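import Pool.Agent.Lib.MP_0f5a55_nt.FF.F07
import Pool.Agent.Lib.MP_0f5a55_nt.II.I12

open Complex MeasureTheory Set Filter Topology
open scoped Real ComplexConjugate

namespace FF

open II

/-- Row F08. The ratio of the frequencies: Quad if the product of the conductors is not a square. -/
theorem quad_of_nonsquare {q1 q2 q3 q4 : ℕ} (p1 : 0 < q1) (p2 : 0 < q2) (p3 : 0 < q3) (p4 : 0 < q4)
    (h : ¬ IsSquare (q1 * q2 * q3 * q4)) : Quad (tht q1 q2) (tht q3 q4) := by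
  have r1 : (0 : ℝ) < q1 := by exact_mod_cast p1
  have r2 : (0 : ℝ) < q2 := by exact_mod_cast p2
  have r3 : (0 : ℝ) < q3 := by exact_mod_cast p3
  have r4 : (0 : ℝ) < q4 := by exact_mod_cast p4
  have a12 : (0 : ℝ) < (q1 : ℝ) * q2 := mul_pos r1 r2
  have a34 : (0 : ℝ) < (q3 : ℝ) * q4 := mul_pos r3 r4
  have s12 : 0 < √((q1 : ℝ) * q2) := Real.sqrt_pos.2 a12
  have s34 : 0 < √((q3 : ℝ) * q4) := Real.sqrt_pos.2 a34
  refine ⟨inv_pos.2 s12, inv_pos.2 s34, ?_, q1 * q2, q3 * q4, Nat.mul_pos p1 p2,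
    Nat.mul_pos p3 p4, ?_⟩
  · have hirr : Irrational (√((q1 * q2 * q3 * q4 : ℕ) : ℝ)) := irrational_sqrt_natCast_iff.2 h
    have hmul : (√((q1 * q2 * q3 * q4 : ℕ) : ℝ)) = (tht q1 q2 / tht q3 q4) * ((q1 * q2 : ℕ) : ℝ) := by
      have e1 : (((q1 * q2 * q3 * q4 : ℕ) : ℝ)) = ((q1 : ℝ) * q2) * ((q3 : ℝ) * q4) := by
        push_cast; ring
      rw [e1, Real.sqrt_mul a12.le]
      unfold tht
      have e2 : (((q1 * q2 : ℕ) : ℝ)) = √((q1 : ℝ) * q2) * √((q1 : ℝ) * q2) := by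
        rw [Real.mul_self_sqrt a12.le]; push_cast; ring
      rw [e2]
      field_simp
    rw [hmul] at hirr
    exact hirr.of_mul_natCast _
  · unfold tht
    rw [inv_pow, inv_pow, Real.sq_sqrt a12.le, Real.sq_sqrt a34.le]
    push_cast
    rw [mul_inv_cancel₀ a12.ne', mul_inv_cancel₀ a34.ne']

theorem ratio_of_square {q1 q2 q3 q4 : ℕ} (p1 : 0 < q1) (p2 : 0 < q2) (p3 : 0 < q3) (p4 : 0 < q4)
    (h : IsSquare (q1 * q2 * q3 * q4)) : ∃ r s : ℕ, 0 < r ∧ 0 < s ∧ (r : ℝ) * tht q1 q2 = s * tht q3 q4 := by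
  obtain ⟨k, hk⟩ := h
  have r1 : (0 : ℝ) < q1 := by exact_mod_cast p1
  have r2 : (0 : ℝ) < q2 := by exact_mod_cast p2
  have r3 : (0 : ℝ) < q3 := by exact_mod_cast p3
  have r4 : (0 : ℝ) < q4 := by exact_mod_cast p4
  have a12 : (0 : ℝ) < (q1 : ℝ) * q2 := mul_pos r1 r2
  have a34 : (0 : ℝ) < (q3 : ℝ) * q4 := mul_pos r3 r4
  have s12 : 0 < √((q1 : ℝ) * q2) := Real.sqrt_pos.2 a12
  have s34 : 0 < √((q3 : ℝ) * q4) := Real.sqrt_pos.2 a34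
  have hkpos : 0 < k := by
    rcases Nat.eq_zero_or_pos k with h0 | h0
    · exfalso
      rw [h0] at hk
      have : 0 < q1 * q2 * q3 * q4 := Nat.mul_pos (Nat.mul_pos (Nat.mul_pos p1 p2) p3) p4
      omega
    · exact h0
  refine ⟨k, q3 * q4, hkpos, Nat.mul_pos p3 p4, ?_⟩
  have hk' : (k : ℝ) = √((q1 : ℝ) * q2) * √((q3 : ℝ) * q4) := by
    rw [← Real.sqrt_mul a12.le]
    have e1 : ((q1 : ℝ) * q2) * ((q3 : ℝ) * q4) = (k : ℝ) * k := by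
      have := congrArg (fun n : ℕ => (n : ℝ)) hk
      push_cast at this
      linarith
    rw [e1, Real.sqrt_mul_self (Nat.cast_nonneg k)]
  unfold tht
  have e2 : (((q3 * q4 : ℕ) : ℝ)) = √((q3 : ℝ) * q4) * √((q3 : ℝ) * q4) := by
    rw [Real.mul_self_sqrt a34.le]; push_cast; ring
  rw [hk', e2]
  field_simp

/-- four characters, irrational case -/
theorem odd4_irr {q1 q2 q3 q4 : ℕ} [NeZero q1] [NeZero q2] [NeZero q3] [NeZero q4]
    {χ1 : DirichletCharacter ℂ q1} {χ2 : DirichletCharacter ℂ q2} {χ3 : DirichletCharacter ℂ q3}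
    {χ4 : DirichletCharacter ℂ q4} (h1 : χ1.IsPrimitive) (h2 : χ2.IsPrimitive) (h3 : χ3.IsPrimitive)
    (h4 : χ4.IsPrimitive) (n12 : OO.Ne12 χ1 χ2) (n13 : OO.Ne12 χ1 χ3) (n14 : OO.Ne12 χ1 χ4)
    (n23 : OO.Ne12 χ2 χ3) (n24 : OO.Ne12 χ2 χ4) (n34 : OO.Ne12 χ3 χ4)
    (hsq : ¬ IsSquare (q1 * q2 * q3 * q4)) :
    {g : ℝ | 0 < g ∧ Odd (analyticOrderNatAt (LX.Lf χ1) (1 / 2 + g * I) +
      analyticOrderNatAt (LX.Lf χ2) (1 / 2 + g * I) + analyticOrderNatAt (LX.Lf χ3) (1 / 2 + g * I) +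
      analyticOrderNatAt (LX.Lf χ4) (1 / 2 + g * I))}.Infinite := by
  refine odd4_of_bound h1 h2 h3 h4 n12 n13 n14 n23 n24 n34 ?_
  exact irr_bound n12 n34 (quad_of_nonsquare (NeZero.pos q1) (NeZero.pos q2) (NeZero.pos q3)
    (NeZero.pos q4) hsq)

end FF
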