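import Pool.Agent.Lib.MP_0f5a55_nt.II.D
import Pool.Agent.Lib.MP_0f5a55_nt.TT.D2

open Complex MeasureTheory Set Filter Topology
open scoped Real ComplexConjugate

namespace FF

open II

/-- 1/sqrt(q1 q2) -/
noncomputable def tht (q1 q2 : ℕ) : ℝ := (√((q1 : ℝ) * q2))⁻¹

/-- Gamma(s) (2 pi theta e^{i(pi/2-ε)})^{-s} L(s,χ1) L(s,χ2) at s = 1/2 + it -/
noncomputable def RR {q1 q2 : ℕ} [NeZero q1] [NeZero q2] (χ1 : DirichletCharacter ℂ q1)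
    (χ2 : DirichletCharacter ℂ q2) (ε t : ℝ) : ℂ :=
  Gamma (1 / 2 + t * I) * (2 * π * tht q1 q2 * om ε : ℂ) ^ (-(1 / 2 + t * I) : ℂ) *
    (LX.Lf χ1 (1 / 2 + t * I) * LX.Lf χ2 (1 / 2 + t * I))

/-- Hardy function -/
noncomputable def ZZ {q : ℕ} [NeZero q] (χ : DirichletCharacter ℂ q) (t : ℝ) : ℝ :=
  (LX.uu χ t * LX.Lf χ (1 / 2 + t * I)).re

/-- positive weight -/
noncomputable def wt (ε t : ℝ) : ℝ := Real.exp ((π - 2 * ε) * t) / Real.cosh (π * t)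

/-- correlation integral -/
noncomputable def JJ {q1 q2 q3 q4 : ℕ} (χ1 : DirichletCharacter ℂ q1) (χ2 : DirichletCharacter ℂ q2)
    (χ3 : DirichletCharacter ℂ q3) (χ4 : DirichletCharacter ℂ q4) (ε : ℝ) : ℂ :=
  ∫ u : ℝ, ((TT.tau u * Real.exp u : ℝ) : ℂ) * FE (cv χ1 χ2) (tht q1 q2) ε (Real.exp u) *
    conj (FE (cv χ3 χ4) (tht q3 q4) ε (Real.exp u))

end FF
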