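import Pool.Agent.Lib.MP_0f5a55_nt.FF.D
import Pool.Agent.Lib.MP_0f5a55_nt.TT.T19
import Pool.Agent.Lib.MP_0f5a55_nt.OM.K010
import Pool.Agent.Lib.MP_0f5a55_nt.OM.K025
import Pool.Agent.Lib.MP_0f5a55_nt.OM.K026

open Complex MeasureTheory Set Filter Topology
open scoped Real ComplexConjugate

namespace FF

open II

theorem F01_hasSum {q1 q2 : ℕ} [NeZero q1] [NeZero q2] (χ1 : DirichletCharacter ℂ q1)
    (χ2 : DirichletCharacter ℂ q2) {s : ℂ} (hs : 1 < s.re) :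
    HasSum (fun n : ℕ => cv χ1 χ2 (n + 1) * ((n + 1 : ℕ) : ℂ) ^ (-s)) (LX.Lf χ1 s * LX.Lf χ2 s) := by
  have s1 := DirichletCharacter.LSeriesSummable_of_one_lt_re χ1 hs
  have s2 := DirichletCharacter.LSeriesSummable_of_one_lt_re χ2 hs
  have h1 := (s1.convolution s2).LSeriesHasSum
  rw [LSeries_convolution' s1 s2] at h1
  have e1 : LX.Lf χ1 s = LSeries (fun n : ℕ => χ1 (n : ZMod q1)) s := by
    unfold LX.Lf
    exact DirichletCharacter.LFunction_eq_LSeries χ1 hs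
  have e2 : LX.Lf χ2 s = LSeries (fun n : ℕ => χ2 (n : ZMod q2)) s := by
    unfold LX.Lf
    exact DirichletCharacter.LFunction_eq_LSeries χ2 hs
  rw [e1, e2]
  unfold LSeriesHasSum at h1
  have h3 := (hasSum_nat_add_iff' 1).mpr h1
  rw [Finset.sum_range_one, LSeries.term_zero, sub_zero] at h3
  refine h3.congr_fun ?_
  intro n
  rw [LSeries.term_of_ne_zero (Nat.succ_ne_zero n), Complex.cpow_neg, div_eq_mul_inv,
    LSeries.convolution_def]
  rfl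

theorem F01_natcpow (n : ℕ) (s : ℂ) : ((n + 1 : ℕ) : ℂ) ^ s = exp (s * Real.log ((n : ℝ) + 1)) := by
  have hn : (0 : ℝ) < (n : ℝ) + 1 := by positivity
  have h0 : ((n + 1 : ℕ) : ℂ) = (((n : ℝ) + 1 : ℝ) : ℂ) := by push_cast; rfl
  rw [h0, cpow_def_of_ne_zero (by exact_mod_cast hn.ne'), ← ofReal_log hn.le]
  congr 1
  ring

theorem F01_series {q1 q2 : ℕ} [NeZero q1] [NeZero q2] (χ1 : DirichletCharacter ℂ q1)
    (χ2 : DirichletCharacter ℂ q2) {W : ℂ} (hW : 0 < W.re) :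
    ∫ y : ℝ, LX.Lf χ1 (2 + y * I) * LX.Lf χ2 (2 + y * I) *
      (Gamma (2 + y * I) * W ^ (-(2 + y * I : ℂ))) =
      2 * π * ∑' n : ℕ, cv χ1 χ2 (n + 1) * exp (-(((n : ℂ) + 1) * W)) := by
  have hW0 : W ≠ 0 := by rintro rfl; simp at hW
  set M : ℂ → ℝ → ℂ := fun V y => Gamma (2 + y * I) * V ^ (-(2 + y * I : ℂ)) with hM
  have hMi : ∀ V : ℂ, 0 < V.re → Integrable (M V) ∧ ∫ y, M V y = 2 * π * exp (-V) := by
    intro V hV
    obtain ⟨h1, h2⟩ := LZX.exp_mellin (c := 2) two_pos hV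
    have e2 : (((2 : ℝ)) : ℂ) = 2 := by push_cast; ring
    rw [e2] at h1 h2
    refine ⟨h1, ?_⟩
    have hpi : (π : ℂ) ≠ 0 := by exact_mod_cast Real.pi_ne_zero
    rw [← h2]
    simp only [hM]
    generalize (∫ y : ℝ, Gamma (2 + y * I) * V ^ (-(2 + y * I : ℂ))) = J
    field_simp
  set F : ℕ → ℝ → ℂ := fun n y => cv χ1 χ2 (n + 1) * ((n + 1 : ℕ) : ℂ) ^ (-(2 + y * I : ℂ)) * M W y
    with hF
  have hVre : ∀ n : ℕ, 0 < (((n : ℂ) + 1) * W).re := by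
    intro n
    have h0 : ((n : ℂ) + 1) = (((n : ℝ) + 1 : ℝ) : ℂ) := by push_cast; rfl
    rw [h0, re_ofReal_mul]
    positivity
  have hF2 : ∀ n : ℕ, F n = fun y => cv χ1 χ2 (n + 1) * M (((n : ℂ) + 1) * W) y := by
    intro n
    funext y
    simp only [hF, hM]
    have h0 : ((n : ℂ) + 1) = (((n : ℝ) + 1 : ℝ) : ℂ) := by push_cast; rfl
    rw [F01_natcpow n (-(2 + y * I : ℂ)), h0,
      TT.T19_mulcpow (by positivity : (0 : ℝ) < (n : ℝ) + 1) hW0]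
    ring
  have hFi : ∀ n, Integrable (F n) := by
    intro n
    rw [hF2 n]
    exact (hMi _ (hVre n)).1.const_mul _
  have hFv : ∀ n, ∫ y, F n y = 2 * π * (cv χ1 χ2 (n + 1) * exp (-(((n : ℂ) + 1) * W))) := by
    intro n
    rw [hF2 n, integral_const_mul, (hMi _ (hVre n)).2]
    ring
  have hb : Summable (fun n : ℕ => ‖cv χ1 χ2 (n + 1) * ((n + 1 : ℕ) : ℂ) ^ (-(2 : ℂ))‖) :=
    (F01_hasSum χ1 χ2 (s := 2) (by norm_num)).summable.norm
  have hnt : ∀ (n : ℕ) (y : ℝ), ‖cv χ1 χ2 (n + 1) * ((n + 1 : ℕ) : ℂ) ^ (-(2 + y * I : ℂ))‖ =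
      ‖cv χ1 χ2 (n + 1) * ((n + 1 : ℕ) : ℂ) ^ (-(2 : ℂ))‖ := by
    intro n y
    rw [norm_mul, norm_mul, Complex.norm_natCast_cpow_of_pos (Nat.succ_pos n),
      Complex.norm_natCast_cpow_of_pos (Nat.succ_pos n)]
    congr 2
    simp
  have hFn : ∀ n, (∫ y, ‖F n y‖) ≤ ‖cv χ1 χ2 (n + 1) * ((n + 1 : ℕ) : ℂ) ^ (-(2 : ℂ))‖ *
      ∫ y, ‖M W y‖ := by
    intro n
    rw [← integral_const_mul]
    refine le_of_eq (integral_congr_ae (Eventually.of_forall fun y => ?_))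
    simp only [hF]
    rw [norm_mul, hnt]
  have hsF : Summable (fun n => ∫ y, ‖F n y‖) :=
    Summable.of_nonneg_of_le (fun n => integral_nonneg fun y => norm_nonneg _) hFn (hb.mul_right _)
  have hmain := hasSum_integral_of_summable_integral_norm hFi hsF
  have hre : ∀ y : ℝ, ((2 : ℂ) + y * I).re = 2 := fun y => by simp
  have hpt : ∀ y : ℝ, ∑' n, F n y = LX.Lf χ1 (2 + y * I) * LX.Lf χ2 (2 + y * I) * M W y := by
    intro y
    exact ((F01_hasSum χ1 χ2 (s := 2 + y * I) (by rw [hre]; norm_num)).mul_right (M W y)).tsum_eq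
  have h1 : ∫ y : ℝ, LX.Lf χ1 (2 + y * I) * LX.Lf χ2 (2 + y * I) * M W y =
      ∫ y : ℝ, ∑' n, F n y := by
    congr 1
    funext y
    exact (hpt y).symm
  rw [h1, ← hmain.tsum_eq]
  simp_rw [hFv]
  rw [tsum_mul_left]

theorem F01_om {ε : ℝ} (h0 : 0 < ε) (h1 : ε ≤ 1 / 2) : om ε ≠ 0 ∧ 0 < (om ε).re ∧
    ∀ z : ℂ, om ε ^ z = exp (z * (((π / 2 - ε : ℝ) : ℂ) * I)) := by
  have hpi := Real.pi_gt_three
  refine ⟨exp_ne_zero _, ?_, ?_⟩
  · unfold om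
    rw [exp_ofReal_mul_I_re]
    exact Real.cos_pos_of_mem_Ioo ⟨by linarith only [hpi, h1], by linarith only [h0]⟩
  · intro z
    have hne : om ε ≠ 0 := exp_ne_zero _
    rw [cpow_def_of_ne_zero hne]
    unfold om
    rw [log_exp]
    · congr 1
      ring
    · simp
      linarith only [hpi, h1]
    · simp
      linarith only [hpi, h0]

theorem F01_ker {ε x : ℝ} (h0 : 0 < ε) (h1 : ε ≤ 1 / 2) (hx : 0 < x) (s : ℂ) :
    OO.T_Gi s * exp ((ε : ℂ) * I * s) * (x : ℂ) ^ (-s) =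
      Gamma s * (2 * π * x * om ε : ℂ) ^ (-s) := by
  obtain ⟨ho, -, hoz⟩ := F01_om h0 h1
  have h2p : (0 : ℝ) < 2 * π := by positivity
  have hxc : (x : ℂ) ≠ 0 := by exact_mod_cast hx.ne'
  have e1 : (2 * π * x * om ε : ℂ) = ((2 * π : ℝ) : ℂ) * ((x : ℂ) * om ε) := by push_cast; ring
  have e2 : (((2 * π : ℝ) : ℂ)) ^ (-s) = exp (-s * Real.log (2 * π)) := by
    rw [cpow_def_of_ne_zero (by exact_mod_cast h2p.ne'), ← ofReal_log h2p.le]
    congr 1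
    ring
  have e3 : ((x : ℂ)) ^ (-s) = exp (-s * Real.log x) := by
    rw [cpow_def_of_ne_zero hxc, ← ofReal_log hx.le]
    congr 1
    ring
  have e4 : exp (-(((Real.pi / 2 : ℝ) : ℂ) * I * s)) * exp ((ε : ℂ) * I * s) =
      exp (-s * (((π / 2 - ε : ℝ) : ℂ) * I)) := by
    rw [← Complex.exp_add]; congr 1; push_cast; ring
  rw [e1, TT.T19_mulcpow h2p (mul_ne_zero hxc ho), TT.T19_mulcpow hx ho, hoz, e3, ← e4]
  unfold OO.T_Gi
  rw [e2]
  ring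

/-- Row F01. Mellin inversion on Re s = 1/2 (polar term only if one of the characters is principal). -/
theorem mellin_pair {q1 q2 : ℕ} [NeZero q1] [NeZero q2] {χ1 : DirichletCharacter ℂ q1}
    {χ2 : DirichletCharacter ℂ q2} (h1 : χ1.IsPrimitive) (h2 : χ2.IsPrimitive) (h12 : OO.Ne12 χ1 χ2) :
    ∃ (c : ℝ → ℂ) (C : ℝ), 0 ≤ C ∧ (∀ ε, ‖c ε‖ ≤ C) ∧ ∀ ε : ℝ, 0 < ε → ε ≤ 1 / 2 → ∀ u : ℝ,
      (2 * (π : ℂ))⁻¹ * ∫ t : ℝ, RR χ1 χ2 ε t * exp (-(t * u * I)) =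
        ((Real.exp (u / 2) : ℝ) : ℂ) * FE (cv χ1 χ2) (tht q1 q2) ε (Real.exp u) -
          c ε * ((Real.exp (-(u / 2)) : ℝ) : ℂ) := by
  obtain ⟨E, hEd, hEe, C1, hC1, hEb⟩ := (OO.T_ent χ1 χ2).2.2 (OO.T_Ent3_nt h12)
  obtain ⟨-, hGd, C2, hC2, hGb⟩ := OO.T_gi
  have hpi := Real.pi_gt_three
  have hpc : (π : ℂ) ≠ 0 := by exact_mod_cast Real.pi_ne_zero
  have hq1 : (0 : ℝ) < q1 := by exact_mod_cast Nat.pos_of_ne_zero (NeZero.ne q1)
  have hq2 : (0 : ℝ) < q2 := by exact_mod_cast Nat.pos_of_ne_zero (NeZero.ne q2)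
  set θ : ℝ := tht q1 q2 with hθdef
  have hθ : 0 < θ := by
    rw [hθdef]
    unfold tht
    positivity
  have hθc : (θ : ℂ) ≠ 0 := by exact_mod_cast hθ.ne'
  set K : ℂ := E 1 / (2 * π * θ) with hK
  refine ⟨fun ε => exp (((-(π / 2 - ε) : ℝ) : ℂ) * I) * K, ‖K‖, norm_nonneg _, ?_, ?_⟩
  · intro ε
    rw [norm_mul, Complex.norm_exp_ofReal_mul_I, one_mul]
  intro ε hε hε' u
  obtain ⟨ho, hore, hoz⟩ := F01_om hε hε'
  set x : ℝ := θ * Real.exp u with hx'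
  have hx : 0 < x := by positivity
  have hxc : (x : ℂ) ≠ 0 := by exact_mod_cast hx.ne'
  set N : ℂ → ℂ := fun s => OO.T_Gi s * exp ((ε : ℂ) * I * s) * E s * (x : ℂ) ^ (-s) with hN
  have hNd : ∀ s : ℂ, 1 / 2 ≤ s.re → s.re ≤ 2 → DifferentiableAt ℂ N s := by
    intro s hs1 _
    have d1 := (hGd s (by linarith only [hs1])).1
    have d2 : DifferentiableAt ℂ (fun s : ℂ => exp ((ε : ℂ) * I * s)) s := by fun_prop
    have d3 : DifferentiableAt ℂ E s := hEd s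
    have d6 : DifferentiableAt ℂ (fun s : ℂ => (x : ℂ) ^ (-s)) s :=
      (differentiableAt_id.neg).const_cpow (Or.inl hxc)
    exact ((d1.mul d2).mul d3).mul d6
  have hNb : ∀ s : ℂ, 1 / 2 ≤ s.re → s.re ≤ 2 →
      ‖N s‖ ≤ (C2 * C1 * (x ^ (-(1 / 2) : ℝ) + x ^ (-2 : ℝ))) * (1 + |s.im|) ^ 8 *
        Real.exp (-(ε * |s.im|)) := by
    intro s hs1 hs2
    have b1 := hGb s hs1 hs2
    have b2 : ‖exp ((ε : ℂ) * I * s)‖ = Real.exp (-(ε * s.im)) := by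
      rw [Complex.norm_exp]; congr 1; simp
    have b3 := hEb s hs1 hs2
    have b6 : ‖(x : ℂ) ^ (-s)‖ ≤ x ^ (-(1 / 2) : ℝ) + x ^ (-2 : ℝ) := by
      rw [Complex.norm_cpow_eq_rpow_re_of_pos hx, Complex.neg_re]
      rcases le_total x 1 with h | h
      · have := Real.rpow_le_rpow_of_exponent_ge hx h (show (-2 : ℝ) ≤ -s.re by linarith only [hs2])
        have h0 := Real.rpow_pos_of_pos hx (-(1 / 2) : ℝ)
        linarith only [this, h0]
      · have := Real.rpow_le_rpow_of_exponent_le h (show -s.re ≤ (-(1 / 2) : ℝ) by linarith only [hs1])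
        have h0 := Real.rpow_pos_of_pos hx (-2 : ℝ)
        linarith only [this, h0]
    have b7 : Real.exp (Real.pi / 2 * s.im - Real.pi / 2 * |s.im|) * Real.exp (-(ε * s.im)) ≤
        Real.exp (-(ε * |s.im|)) := by
      rw [← Real.exp_add]
      apply Real.exp_le_exp.mpr
      rcases abs_cases s.im with ⟨h, h'⟩ | ⟨h, h'⟩
      · rw [h]; linarith only []
      · rw [h]
        have hpe : 2 * ε ≤ Real.pi := by linarith only [hpi, hε']
        have hm := mul_nonneg_of_nonpos_of_nonpos (sub_nonpos.2 hpe) h'.le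
        linarith only [hm]
    have hP : (1 : ℝ) ≤ 1 + |s.im| := by have := abs_nonneg s.im; linarith only [this]
    have b8 : (1 + |s.im|) ^ 6 ≤ (1 + |s.im|) ^ 8 := pow_le_pow_right₀ hP (by norm_num)
    have hX0 : 0 ≤ x ^ (-(1 / 2) : ℝ) + x ^ (-2 : ℝ) := by positivity
    calc ‖N s‖ = ‖OO.T_Gi s‖ * ‖exp ((ε : ℂ) * I * s)‖ * ‖E s‖ * ‖(x : ℂ) ^ (-s)‖ := by
          simp only [hN, norm_mul]
      _ ≤ (C2 * (1 + |s.im|) ^ 3 * Real.exp (Real.pi / 2 * s.im - Real.pi / 2 * |s.im|)) *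
            Real.exp (-(ε * s.im)) * (C1 * (1 + |s.im|) ^ 3) *
            (x ^ (-(1 / 2) : ℝ) + x ^ (-2 : ℝ)) := by
          rw [b2]
          gcongr
      _ = (C2 * C1 * (x ^ (-(1 / 2) : ℝ) + x ^ (-2 : ℝ))) * (1 + |s.im|) ^ 6 *
            (Real.exp (Real.pi / 2 * s.im - Real.pi / 2 * |s.im|) * Real.exp (-(ε * s.im))) := by ring
      _ ≤ _ := by gcongr
  have hNM : ∀ s : ℂ, s ≠ 1 → N s / (s - 1) = LX.Lf χ1 s * LX.Lf χ2 s *
      (Gamma s * (2 * π * x * om ε : ℂ) ^ (-s)) := by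
    intro s hs
    have hs' : s - 1 ≠ 0 := sub_ne_zero.mpr hs
    simp only [hN]
    rw [← F01_ker hε hε' hx s, hEe s hs, OO.T_LL, div_eq_iff hs']
    ring
  obtain ⟨-, -, hsh⟩ := OO.T_shift (N := N) (a := 1 / 2) (b := 2) (by norm_num) (by norm_num) hNd hε hNb
  have c1 : (((1 / 2 : ℝ)) : ℂ) = 1 / 2 := by push_cast; ring
  have c2 : (((2 : ℝ)) : ℂ) = 2 := by push_cast; ring
  rw [c1, c2] at hsh
  have i1 : ∀ y : ℝ, N (2 + y * I) / (2 + y * I - 1) = LX.Lf χ1 (2 + y * I) * LX.Lf χ2 (2 + y * I) *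
      (Gamma (2 + y * I) * (2 * π * x * om ε : ℂ) ^ (-(2 + y * I : ℂ))) := by
    intro y
    apply hNM
    intro h
    have := congrArg Complex.re h
    norm_num at this
  have i2 : ∀ t : ℝ, RR χ1 χ2 ε t * exp (-(t * u * I)) = ((Real.exp (u / 2) : ℝ) : ℂ) *
      (N (1 / 2 + t * I) / (1 / 2 + t * I - 1)) := by
    intro t
    rw [hNM]
    · have e1 : (2 * π * x * om ε : ℂ) = ((Real.exp u : ℝ) : ℂ) * (2 * π * θ * om ε) := by
        rw [hx']
        push_cast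
        ring
      have e2 : (2 * π * θ * om ε : ℂ) ≠ 0 :=
        mul_ne_zero (mul_ne_zero (mul_ne_zero two_ne_zero hpc) hθc) ho
      have e3 : exp (-(t * u * I)) = ((Real.exp (u / 2) : ℝ) : ℂ) *
          exp (-(1 / 2 + t * I) * (u : ℂ)) := by
        rw [ofReal_exp, ← exp_add]
        congr 1
        push_cast
        ring
      rw [e1, TT.T19_mulcpow (Real.exp_pos u) e2, Real.log_exp, e3]
      unfold RR
      rw [← hθdef]
      ring
    · intro h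
      have := congrArg Complex.re h
      norm_num at this
  have hL : ∫ t : ℝ, RR χ1 χ2 ε t * exp (-(t * u * I)) = ((Real.exp (u / 2) : ℝ) : ℂ) *
      ∫ t : ℝ, N (1 / 2 + t * I) / (1 / 2 + t * I - 1) := by
    rw [← integral_const_mul]
    exact integral_congr_ae (Eventually.of_forall fun t => i2 t)
  have hWre : 0 < (2 * π * x * om ε : ℂ).re := by
    have e : (2 * π * x * om ε : ℂ) = ((2 * π * x : ℝ) : ℂ) * om ε := by push_cast; ring
    rw [e, re_ofReal_mul]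
    positivity
  simp only [i1] at hsh
  rw [F01_series χ1 χ2 hWre] at hsh
  have hFE : ∑' n : ℕ, cv χ1 χ2 (n + 1) * exp (-(((n : ℂ) + 1) * (2 * π * x * om ε))) =
      FE (cv χ1 χ2) θ ε (Real.exp u) := by
    unfold FE
    refine tsum_congr fun n => ?_
    congr 2
    rw [hx']
    push_cast
    ring
  rw [hFE] at hsh
  have hN1 : N 1 = exp (((-(π / 2 - ε) : ℝ) : ℂ) * I) * K * ((Real.exp (-u) : ℝ) : ℂ) := by
    have e1 := F01_ker hε hε' hx 1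
    have e2 : N 1 = OO.T_Gi 1 * exp ((ε : ℂ) * I * 1) * (x : ℂ) ^ (-(1 : ℂ)) * E 1 := by
      simp only [hN]
      ring
    rw [e2, e1, Gamma_one, one_mul, cpow_neg_one, hK, hx']
    have e3 : (om ε)⁻¹ = exp (((-(π / 2 - ε) : ℝ) : ℂ) * I) := by
      unfold om
      rw [← exp_neg]
      congr 1
      push_cast
      ring
    have e4 : ((Real.exp (-u) : ℝ) : ℂ) = (((Real.exp u : ℝ) : ℂ))⁻¹ := by
      rw [Real.exp_neg, ofReal_inv]
    rw [e4, ← e3, ofReal_mul]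
    have e5 : ((Real.exp u : ℝ) : ℂ) ≠ 0 := by exact_mod_cast (Real.exp_pos u).ne'
    field_simp
  rw [hN1] at hsh
  rw [hL]
  have e6 : ((Real.exp (-(u / 2)) : ℝ) : ℂ) = ((Real.exp (u / 2) : ℝ) : ℂ) * ((Real.exp (-u) : ℝ) : ℂ) := by
    rw [← ofReal_mul, ← Real.exp_add]
    congr 2
    ring
  rw [e6]
  have hsh' : ∫ y : ℝ, N (1 / 2 + y * I) / (1 / 2 + y * I - 1) =
      2 * π * FE (cv χ1 χ2) θ ε (Real.exp u) -
        2 * π * (exp (((-(π / 2 - ε) : ℝ) : ℂ) * I) * K * ((Real.exp (-u) : ℝ) : ℂ)) := by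
    rw [hsh]
    push_cast
    ring
  rw [hsh']
  field_simp

end FF
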