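import Pool.Agent.Lib.MP_0f5a55_nt.FF.D
import Pool.Agent.Lib.MP_0f5a55_nt.TT.T18
import Pool.Agent.Lib.MP_0f5a55_nt.OM.K026

open Complex MeasureTheory Set Filter Topology
open scoped Real ComplexConjugate

namespace FF

open II

private theorem F02_line_ne (t : ℝ) : (1 / 2 + t * I : ℂ) ≠ 1 := by
  intro h
  have := congrArg Complex.re h
  simp at this

private theorem F02_L_cont {q : ℕ} [NeZero q] (χ : DirichletCharacter ℂ q) :
    Continuous fun t : ℝ => LX.Lf χ (1 / 2 + t * I) := by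
  rw [continuous_iff_continuousAt]
  intro t
  have h1 : ContinuousAt (fun s : ℂ => LX.Lf χ s) (1 / 2 + t * I) :=
    (DirichletCharacter.differentiableAt_LFunction χ _ (Or.inl (F02_line_ne t))).continuousAt
  have h2 : ContinuousAt (fun t : ℝ => (1 / 2 + t * I : ℂ)) t := by fun_prop
  exact ContinuousAt.comp (f := fun t : ℝ => (1 / 2 + t * I : ℂ)) h1 h2

private theorem F02_tht_pos (q1 q2 : ℕ) [NeZero q1] [NeZero q2] : 0 < tht q1 q2 := by
  unfold tht
  have h1 : (0:ℝ) < q1 := by exact_mod_cast Nat.pos_of_ne_zero (NeZero.ne q1)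
  have h2 : (0:ℝ) < q2 := by exact_mod_cast Nat.pos_of_ne_zero (NeZero.ne q2)
  positivity

private theorem F02_base (q1 q2 : ℕ) [NeZero q1] [NeZero q2] (ε : ℝ) :
    (2 * π * tht q1 q2 * om ε : ℂ) = ((2 * π * tht q1 q2 : ℝ) : ℂ) * om ε := by
  push_cast; ring

private theorem F02_base_ne (q1 q2 : ℕ) [NeZero q1] [NeZero q2] (ε : ℝ) :
    (2 * π * tht q1 q2 * om ε : ℂ) ≠ 0 := by
  rw [F02_base]
  have h := F02_tht_pos q1 q2
  have h1 : (0:ℝ) < 2 * π * tht q1 q2 := by positivity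
  have h2 : om ε ≠ 0 := by unfold om; exact exp_ne_zero _
  exact mul_ne_zero (by exact_mod_cast h1.ne') h2

/-- Row F02. Continuity and size. -/
theorem RR_cont {q1 q2 : ℕ} [NeZero q1] [NeZero q2] (χ1 : DirichletCharacter ℂ q1)
    (χ2 : DirichletCharacter ℂ q2) (ε : ℝ) : Continuous (RR χ1 χ2 ε) := by
  unfold RR
  have hG : Continuous fun t : ℝ => Gamma (1 / 2 + t * I) := by
    rw [continuous_iff_continuousAt]
    intro t
    have h1 : ContinuousAt Gamma (1 / 2 + t * I) := by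
      refine (differentiableAt_Gamma _ ?_).continuousAt
      intro m hm
      have := congrArg Complex.re hm
      simp at this
      have h0 : (0:ℝ) ≤ m := Nat.cast_nonneg m
      linarith
    have h2 : ContinuousAt (fun t : ℝ => (1 / 2 + t * I : ℂ)) t := by fun_prop
    exact ContinuousAt.comp (f := fun t : ℝ => (1 / 2 + t * I : ℂ)) h1 h2
  have hP : Continuous fun t : ℝ => (2 * π * tht q1 q2 * om ε : ℂ) ^ (-(1 / 2 + t * I) : ℂ) := by
    have h1 : Continuous fun t : ℝ => (-(1 / 2 + t * I) : ℂ) := by fun_prop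
    exact h1.const_cpow (Or.inl (F02_base_ne q1 q2 ε))
  exact (hG.mul hP).mul ((F02_L_cont χ1).mul (F02_L_cont χ2))

theorem Lf_growth {q : ℕ} [NeZero q] (χ : DirichletCharacter ℂ q) : ∃ C : ℝ, 0 ≤ C ∧ ∀ t : ℝ,
    ‖LX.Lf χ (1 / 2 + t * I)‖ ≤ C * (1 + |t|) := by
  obtain ⟨C, hC, hb⟩ := LP.per_pol (fun j => χ j)
  refine ⟨C, hC.le, fun t => ?_⟩
  have h := hb (1 / 2 + t * I) (by simp; norm_num) (by
    have h1 := Complex.abs_re_le_norm ((1 / 2 + t * I : ℂ) - 1)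
    have h2 : ((1 / 2 + t * I : ℂ) - 1).re = -(1 / 2) := by simp; norm_num
    rw [h2, abs_neg, abs_of_pos (by norm_num)] at h1
    linarith)
  have e : (1 / 2 + t * I : ℂ).im = t := by simp
  rw [e] at h
  exact h

private theorem F02_pow_norm (q1 q2 : ℕ) [NeZero q1] [NeZero q2] {ε : ℝ} (h0 : 0 < ε)
    (h1 : ε ≤ 1 / 2) (t : ℝ) :
    ‖(2 * π * tht q1 q2 * om ε : ℂ) ^ (-(1 / 2 + t * I) : ℂ)‖ =
      (2 * π * tht q1 q2) ^ (-(1 / 2) : ℝ) * Real.exp ((π / 2 - ε) * t) := by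
  have hpi := Real.pi_gt_three
  have ht := F02_tht_pos q1 q2
  have hr : (0:ℝ) < 2 * π * tht q1 q2 := by positivity
  rw [norm_cpow_of_ne_zero (F02_base_ne q1 q2 ε), F02_base]
  have e1 : ‖((2 * π * tht q1 q2 : ℝ) : ℂ) * om ε‖ = 2 * π * tht q1 q2 := by
    unfold om
    rw [norm_mul, norm_exp_ofReal_mul_I, mul_one, Complex.norm_real, Real.norm_eq_abs,
      abs_of_pos hr]
  have e2 : arg (((2 * π * tht q1 q2 : ℝ) : ℂ) * om ε) = π / 2 - ε := by
    unfold om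
    rw [Complex.arg_real_mul _ hr, Complex.arg_exp_mul_I, toIocMod_eq_self]
    constructor <;> linarith
  have e3 : (-(1 / 2 + t * I) : ℂ).re = -(1 / 2) := by simp
  have e4 : (-(1 / 2 + t * I) : ℂ).im = -t := by simp
  rw [e1, e2, e3, e4, mul_neg, Real.exp_neg, div_inv_eq_mul]

theorem RR_le {q1 q2 : ℕ} [NeZero q1] [NeZero q2] (χ1 : DirichletCharacter ℂ q1)
    (χ2 : DirichletCharacter ℂ q2) : ∃ C : ℝ, 0 ≤ C ∧ ∀ ε : ℝ, 0 < ε → ε ≤ 1 / 2 → ∀ t : ℝ,
      ‖RR χ1 χ2 ε t‖ ≤ C * (1 + |t|) ^ 6 * Real.exp (-(ε * |t|)) ∧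
      (t ≤ 0 → ‖RR χ1 χ2 ε t‖ ≤ C * (1 + |t|) ^ 6 * Real.exp (-|t|)) := by
  obtain ⟨Cg, hCg, hg⟩ := LZ.Gamma_strip
  obtain ⟨C1, hC1, h1⟩ := Lf_growth χ1
  obtain ⟨C2, hC2, h2⟩ := Lf_growth χ2
  set r : ℝ := (2 * π * tht q1 q2) ^ (-(1 / 2) : ℝ) with hr
  have hr0 : 0 ≤ r := Real.rpow_nonneg (by have := F02_tht_pos q1 q2; positivity) _
  refine ⟨Cg * r * (C1 * C2), by positivity, ?_⟩
  intro ε hε hε1 t
  have hpi := Real.pi_gt_three
  have ht0 := abs_nonneg t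
  have hG := hg (1 / 2) t (by norm_num) (by norm_num)
  have eG : ((1 / 2 : ℝ) : ℂ) + t * I = 1 / 2 + t * I := by push_cast; ring
  rw [eG] at hG
  have main : ‖RR χ1 χ2 ε t‖ ≤ Cg * r * (C1 * C2) * (1 + |t|) ^ 5 *
      Real.exp (-(π / 2 * |t|) + (π / 2 - ε) * t) := by
    unfold RR
    rw [norm_mul, norm_mul, norm_mul, F02_pow_norm q1 q2 hε hε1, ← hr]
    calc ‖Gamma (1 / 2 + t * I)‖ * (r * Real.exp ((π / 2 - ε) * t)) *
          (‖LX.Lf χ1 (1 / 2 + t * I)‖ * ‖LX.Lf χ2 (1 / 2 + t * I)‖)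
        ≤ (Cg * (1 + |t|) ^ 3 * Real.exp (-(π / 2 * |t|))) * (r * Real.exp ((π / 2 - ε) * t)) *
          ((C1 * (1 + |t|)) * (C2 * (1 + |t|))) := by
          refine mul_le_mul (mul_le_mul_of_nonneg_right hG (by positivity)) ?_ (by positivity)
            (by positivity)
          exact mul_le_mul (h1 t) (h2 t) (norm_nonneg _) (by positivity)
      _ = _ := by
          rw [Real.exp_add]
          ring
  have h56 : (1 + |t|) ^ 5 ≤ (1 + |t|) ^ 6 := pow_le_pow_right₀ (by linarith) (by norm_num)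
  have hK : 0 ≤ Cg * r * (C1 * C2) := by positivity
  constructor
  · refine main.trans ?_
    refine mul_le_mul (mul_le_mul_of_nonneg_left h56 hK) (Real.exp_le_exp.2 ?_)
      (Real.exp_pos _).le (by positivity)
    rcases abs_cases t with ⟨h, _⟩ | ⟨h, _⟩ <;> rw [h] <;> nlinarith
  · intro ht
    refine main.trans ?_
    refine mul_le_mul (mul_le_mul_of_nonneg_left h56 hK) (Real.exp_le_exp.2 ?_)
      (Real.exp_pos _).le (by positivity)
    rw [abs_of_nonpos ht]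
    nlinarith

end FF
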