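import Pool.Agent.Lib.MP_0f5a55_nt.FF.F02
import Pool.Agent.Lib.MP_0f5a55_nt.TT.T18

open Complex MeasureTheory Set Filter Topology
open scoped Real ComplexConjugate

namespace FF

open II

theorem F03_conj_s (t : ℝ) : conj ((1 / 2 : ℂ) + t * I) = 1 - (1 / 2 + t * I) := by
  simp only [map_add, map_mul, conj_ofReal, conj_I, map_div₀, map_one, map_ofNat]
  ring

theorem F03_gam (t : ℝ) : ‖Gamma (1 / 2 + t * I)‖ ^ 2 = π / Real.cosh (π * t) := by
  have h1 := Complex.Gamma_mul_Gamma_one_sub (1 / 2 + t * I)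
  rw [← F03_conj_s, Gamma_conj, mul_conj, normSq_eq_norm_sq] at h1
  have h3 : Complex.sin (π * (1 / 2 + t * I)) = ((Real.cosh (π * t) : ℝ) : ℂ) := by
    have h4 : (π : ℂ) * (1 / 2 + t * I) = ((π * t : ℝ) : ℂ) * I + π / 2 := by push_cast; ring
    rw [h4, Complex.sin_add_pi_div_two, Complex.cos_mul_I, ofReal_cosh]
  rw [h3] at h1
  exact_mod_cast h1

theorem F03_gr_conj (s : ℂ) : Gammaℝ (conj s) = conj (Gammaℝ s) := by
  rw [Gammaℝ_def, Gammaℝ_def, map_mul, ← Gamma_conj, map_div₀, map_ofNat]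
  congr 1
  have h := cpow_conj (π : ℂ) (-s / 2) (by
    rw [arg_ofReal_of_nonneg Real.pi_pos.le]
    exact Real.pi_pos.ne)
  rw [conj_ofReal, map_div₀, map_neg, map_ofNat] at h
  exact h

/-- the product of the two gamma factors, one conjugated -/
theorem F03_ba (t : ℝ) : ∃ ρ : ℝ, 0 < ρ ∧ Gammaℝ (1 / 2 + t * I + 1) * conj (Gammaℝ (1 / 2 + t * I)) =
    ρ * (exp (π / 4 * I) * (1 - (Real.exp (-(π * t)) : ℝ) * I)) := by
  have h1 := Gammaℝ_one_sub_mul_Gammaℝ_one_add (1 / 2 + t * I)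
  rw [← F03_conj_s, F03_gr_conj, add_comm (1 : ℂ) (1 / 2 + t * I)] at h1
  set x : ℝ := Real.exp (-(π * t)) with hx
  have hx0 : 0 < x := Real.exp_pos _
  set r : ℝ := Real.exp (π * t / 2) / 2 with hr
  have hr0 : 0 < r := by positivity
  have h2 : Complex.cos (π * (1 / 2 + t * I) / 2) = r * (exp (-(π / 4 * I)) * (1 + x * I)) := by
    rw [Complex.cos]
    have e1 : (π : ℂ) * (1 / 2 + t * I) / 2 * I = π / 4 * I + -((π * t / 2 : ℝ) : ℂ) := by
      push_cast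
      have := I_mul_I
      linear_combination (π * t / 2 : ℂ) * this
    have e2 : -((π : ℂ) * (1 / 2 + t * I) / 2) * I = -(π / 4 * I) + ((π * t / 2 : ℝ) : ℂ) := by
      push_cast
      have := I_mul_I
      linear_combination -(π * t / 2 : ℂ) * this
    rw [e1, e2, exp_add, exp_add]
    have e3 : exp (π / 4 * I) = exp (-(π / 4 * I)) * I := by
      have : exp (π / 2 * I) = I := by
        rw [exp_mul_I, ← ofReal_ofNat, ← ofReal_div, ← ofReal_cos, ← ofReal_sin, Real.cos_pi_div_two,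
          Real.sin_pi_div_two]
        simp
      calc exp (π / 4 * I) = exp (-(π / 4 * I) + π / 2 * I) := by congr 1; ring
        _ = exp (-(π / 4 * I)) * I := by rw [exp_add, this]
    have e4 : exp (-((π * t / 2 : ℝ) : ℂ)) = ((Real.exp (π * t / 2) * x : ℝ) : ℂ) := by
      rw [hx, ← Real.exp_add, ofReal_exp]
      congr 1
      push_cast
      ring
    rw [e3, e4, ← ofReal_exp, hr]
    push_cast
    ring
  rw [h2] at h1
  have hxx : (0 : ℝ) < 1 + x ^ 2 := by positivity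
  refine ⟨r⁻¹ * (1 + x ^ 2)⁻¹, by positivity, ?_⟩
  rw [mul_comm, h1]
  have h3 : (r : ℂ) ≠ 0 := by exact_mod_cast hr0.ne'
  have h4 : (1 + x * I : ℂ) * (1 - x * I) = ((1 + x ^ 2 : ℝ) : ℂ) := by
    push_cast
    have := I_mul_I
    linear_combination -(x ^ 2 : ℂ) * this
  have h5 : ((1 + x ^ 2 : ℝ) : ℂ) ≠ 0 := by exact_mod_cast hxx.ne'
  have h6 : (1 + x * I : ℂ) ≠ 0 := by
    intro h
    rw [h, zero_mul] at h4
    exact h5 h4.symm
  have h7 : exp (-(π / 4 * I)) * exp (π / 4 * I) = 1 := by rw [← exp_add]; simp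
  have h8 : exp (-(π / 4 * I)) ≠ 0 := exp_ne_zero _
  rw [inv_eq_iff_eq_inv, eq_comm, inv_eq_iff_eq_inv, eq_comm]
  apply inv_eq_of_mul_eq_one_right
  have h9 : ((r⁻¹ * (1 + x ^ 2)⁻¹ : ℝ) : ℂ) = (r : ℂ)⁻¹ * ((1 + x ^ 2 : ℝ) : ℂ)⁻¹ := by push_cast; ring
  rw [h9]
  calc (r : ℂ) * (exp (-(π / 4 * I)) * (1 + x * I)) *
        ((r : ℂ)⁻¹ * ((1 + x ^ 2 : ℝ) : ℂ)⁻¹ * (exp (π / 4 * I) * (1 - x * I))) =
      ((r : ℂ) * (r : ℂ)⁻¹) * (exp (-(π / 4 * I)) * exp (π / 4 * I)) *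
        (((1 + x * I) * (1 - x * I)) * ((1 + x ^ 2 : ℝ) : ℂ)⁻¹) := by ring
    _ = 1 := by
      rw [mul_inv_cancel₀ h3, h7, h4, mul_inv_cancel₀ h5]
      ring

theorem F03_unit (x : ℝ) : 1 - (x : ℂ) * I ≠ 0 ∧ ‖(1 - (x : ℂ) * I) / (‖1 - (x : ℂ) * I‖ : ℂ) - 1‖ ≤ 2 * |x| := by
  have h0 : 1 - (x : ℂ) * I ≠ 0 := by
    intro h
    have := congrArg Complex.re h
    simp at this
  refine ⟨h0, ?_⟩
  set z : ℂ := 1 - (x : ℂ) * I with hz
  have hn : 0 < ‖z‖ := norm_pos_iff.2 h0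
  have h1 : 1 ≤ ‖z‖ := by
    have := Complex.abs_re_le_norm z
    have h2 : z.re = 1 := by simp [hz]
    rw [h2, abs_one] at this
    exact this
  have hzx : ‖z - 1‖ = |x| := by
    have : z - 1 = -((x : ℂ) * I) := by rw [hz]; ring
    rw [this, norm_neg, norm_mul, norm_I, mul_one, norm_real, Real.norm_eq_abs]
  have h3 : z / (‖z‖ : ℂ) - 1 = (z - (‖z‖ : ℂ)) / (‖z‖ : ℂ) := by
    have : (‖z‖ : ℂ) ≠ 0 := by exact_mod_cast hn.ne'
    field_simp
  rw [h3, norm_div, norm_real, norm_norm, div_le_iff₀ hn]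
  have h4 : ‖z - (‖z‖ : ℂ)‖ ≤ 2 * |x| := by
    have h5 : z - (‖z‖ : ℂ) = (z - 1) - ((‖z‖ - ‖(1 : ℂ)‖ : ℝ) : ℂ) := by
      rw [norm_one]
      push_cast
      ring
    rw [h5]
    refine (norm_sub_le _ _).trans ?_
    have h6 := abs_norm_sub_norm_le z 1
    rw [norm_real, Real.norm_eq_abs]
    linarith
  have h7 : 0 ≤ 2 * |x| := by positivity
  nlinarith

/-- the phase of the gamma factors -/
theorem F03_phase {q1 q2 : ℕ} [NeZero q1] [NeZero q2] (χ1 : DirichletCharacter ℂ q1)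
    (χ2 : DirichletCharacter ℂ q2) : ∃ (ω : ℂ) (U : ℝ → ℂ), ‖ω‖ = 1 ∧ (∀ t, ‖U t‖ = 1) ∧
      (∀ t, ‖U t - 1‖ ≤ 2 * Real.exp (-(π * t))) ∧
      ∀ t : ℝ, Gamma (1 / 2 + t * I) * exp (-(Real.log (2 * π) * t * I)) *
        (conj (χ1.gammaFactor (1 / 2 + t * I)) * conj (χ2.gammaFactor (1 / 2 + t * I))) =
        ω * U t * ((‖Gamma (1 / 2 + t * I)‖ *
          (‖χ1.gammaFactor (1 / 2 + t * I)‖ * ‖χ2.gammaFactor (1 / 2 + t * I)‖) : ℝ) : ℂ) := by
  have hpi := Real.pi_pos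
  have h2pi : (0 : ℝ) < 2 * π := by positivity
  -- Gamma in terms of the real gamma factors
  obtain ⟨k0, hk0, hk⟩ : ∃ k0 : ℝ, 0 < k0 ∧ ∀ t : ℝ, Gamma (1 / 2 + t * I) * exp (-(Real.log (2 * π) * t * I)) =
      k0 * (Gammaℝ (1 / 2 + t * I) * Gammaℝ (1 / 2 + t * I + 1)) := by
    refine ⟨Real.exp (Real.log (2 * π) / 2) / 2, by positivity, fun t => ?_⟩
    rw [Gammaℝ_mul_Gammaℝ_add_one, Gammaℂ_def]
    have e1 : (2 * (π : ℂ)) ^ (-(1 / 2 + t * I)) =
        exp (-(Real.log (2 * π) * t * I)) * exp (-(Real.log (2 * π) / 2)) := by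
      have h1 : (2 * (π : ℂ)) = ((2 * π : ℝ) : ℂ) := by push_cast; ring
      rw [h1, cpow_def_of_ne_zero (by exact_mod_cast h2pi.ne'), ← ofReal_log h2pi.le, ← exp_add]
      congr 1
      ring
    rw [e1]
    have e2 : ((Real.exp (Real.log (2 * π) / 2) / 2 : ℝ) : ℂ) = exp (Real.log (2 * π) / 2) / 2 := by
      push_cast; ring
    have e3 : exp ((Real.log (2 * π) : ℂ) / 2) * exp (-((Real.log (2 * π) : ℂ) / 2)) = 1 := by
      rw [← exp_add]; simp
    rw [e2]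
    linear_combination -(Gamma (1 / 2 + t * I) * exp (-(Real.log (2 * π) * t * I))) * e3
  have hexp1 : ∀ t : ℝ, ‖exp (-(Real.log (2 * π) * t * I))‖ = 1 := by
    intro t
    have : -((Real.log (2 * π) : ℂ) * t * I) = ((-(Real.log (2 * π) * t) : ℝ) : ℂ) * I := by push_cast; ring
    rw [this, norm_exp_ofReal_mul_I]
  have hkn : ∀ t : ℝ, ‖Gamma (1 / 2 + t * I)‖ = k0 * (‖Gammaℝ (1 / 2 + t * I)‖ * ‖Gammaℝ (1 / 2 + t * I + 1)‖) := by
    intro t
    have := congrArg norm (hk t)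
    rw [norm_mul, hexp1, mul_one, norm_mul, norm_mul, norm_real, Real.norm_eq_abs, abs_of_pos hk0] at this
    exact this
  have hcc : ∀ z : ℂ, z * conj z = ((‖z‖ ^ 2 : ℝ) : ℂ) := by
    intro z
    rw [mul_conj, normSq_eq_norm_sq]
  -- the two vectors
  have hw : ‖exp (π / 4 * I)‖ = 1 := by
    have : (π / 4 * I : ℂ) = ((π / 4 : ℝ) : ℂ) * I := by push_cast; ring
    rw [this, norm_exp_ofReal_mul_I]
  have hx0 : ∀ t : ℝ, |Real.exp (-(π * t))| = Real.exp (-(π * t)) := fun t => Real.abs_exp _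
  rcases χ1.even_or_odd with p1 | p1 <;> rcases χ2.even_or_odd with p2 | p2
  · -- even, even
    refine ⟨exp (π / 4 * I), fun t => (1 - (Real.exp (-(π * t)) : ℝ) * I) /
      (‖(1 : ℂ) - (Real.exp (-(π * t)) : ℝ) * I‖ : ℂ), hw, fun t => ?_, fun t => ?_, fun t => ?_⟩
    · rw [norm_div, norm_real, norm_norm, div_self (norm_ne_zero_iff.2 (F03_unit _).1)]
    · have := (F03_unit (Real.exp (-(π * t)))).2
      rw [hx0] at this
      exact this
    · obtain ⟨ρ, hρ, hba⟩ := F03_ba t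
      rw [hk t, hkn t, p1.gammaFactor_def, p2.gammaFactor_def]
      have hz0 := (F03_unit (Real.exp (-(π * t)))).1
      set a := Gammaℝ (1 / 2 + t * I) with ha
      set b := Gammaℝ (1 / 2 + t * I + 1) with hb
      set z : ℂ := 1 - (Real.exp (-(π * t)) : ℝ) * I with hz
      have hn : ‖b‖ * ‖a‖ = ρ * ‖z‖ := by
        have := congrArg norm hba
        rw [norm_mul, RCLike.norm_conj, norm_mul, norm_mul, hw, one_mul, norm_real, Real.norm_eq_abs,
          abs_of_pos hρ] at this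
        exact this
      have hnz : (‖z‖ : ℂ) ≠ 0 := by exact_mod_cast norm_ne_zero_iff.2 hz0
      calc (k0 : ℂ) * (a * b) * (conj a * conj a) = k0 * (a * conj a) * (b * conj a) := by ring
        _ = k0 * ((‖a‖ ^ 2 : ℝ) : ℂ) * (ρ * (exp (π / 4 * I) * z)) := by rw [hcc, hba]
        _ = exp (π / 4 * I) * (z / (‖z‖ : ℂ)) * ((k0 * ‖a‖ ^ 2 * (ρ * ‖z‖) : ℝ) : ℂ) := by
          push_cast
          field_simp
        _ = _ := by
          rw [← hn]
          congr 2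
          ring
  · -- even, odd
    refine ⟨1, fun _ => 1, norm_one, fun t => norm_one, fun t => ?_, fun t => ?_⟩
    · simp only [sub_self, norm_zero]
      positivity
    · rw [hk t, hkn t, p1.gammaFactor_def, p2.gammaFactor_def]
      set a := Gammaℝ (1 / 2 + t * I) with ha
      set b := Gammaℝ (1 / 2 + t * I + 1) with hb
      calc (k0 : ℂ) * (a * b) * (conj a * conj b) = k0 * (a * conj a) * (b * conj b) := by ring
        _ = _ := by
          rw [hcc, hcc]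
          push_cast
          ring
  · -- odd, even
    refine ⟨1, fun _ => 1, norm_one, fun t => norm_one, fun t => ?_, fun t => ?_⟩
    · simp only [sub_self, norm_zero]
      positivity
    · rw [hk t, hkn t, p1.gammaFactor_def, p2.gammaFactor_def]
      set a := Gammaℝ (1 / 2 + t * I) with ha
      set b := Gammaℝ (1 / 2 + t * I + 1) with hb
      calc (k0 : ℂ) * (a * b) * (conj b * conj a) = k0 * (a * conj a) * (b * conj b) := by ring
        _ = _ := by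
          rw [hcc, hcc]
          push_cast
          ring
  · -- odd, odd
    refine ⟨conj (exp (π / 4 * I)), fun t => conj ((1 - (Real.exp (-(π * t)) : ℝ) * I) /
      (‖(1 : ℂ) - (Real.exp (-(π * t)) : ℝ) * I‖ : ℂ)), ?_, fun t => ?_, fun t => ?_, fun t => ?_⟩
    · rw [RCLike.norm_conj, hw]
    · rw [RCLike.norm_conj, norm_div, norm_real, norm_norm, div_self (norm_ne_zero_iff.2 (F03_unit _).1)]
    · have := (F03_unit (Real.exp (-(π * t)))).2
      rw [hx0, ← RCLike.norm_conj, map_sub, map_one] at this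
      exact this
    · obtain ⟨ρ, hρ, hba⟩ := F03_ba t
      rw [hk t, hkn t, p1.gammaFactor_def, p2.gammaFactor_def]
      have hz0 := (F03_unit (Real.exp (-(π * t)))).1
      set a := Gammaℝ (1 / 2 + t * I) with ha
      set b := Gammaℝ (1 / 2 + t * I + 1) with hb
      set z : ℂ := 1 - (Real.exp (-(π * t)) : ℝ) * I with hz
      have hn : ‖b‖ * ‖a‖ = ρ * ‖z‖ := by
        have := congrArg norm hba
        rw [norm_mul, RCLike.norm_conj, norm_mul, norm_mul, hw, one_mul, norm_real, Real.norm_eq_abs,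
          abs_of_pos hρ] at this
        exact this
      have hnz : (‖z‖ : ℂ) ≠ 0 := by exact_mod_cast norm_ne_zero_iff.2 hz0
      have hab : a * conj b = conj (ρ * (exp (π / 4 * I) * z)) := by
        rw [← hba, map_mul, conj_conj, mul_comm]
      calc (k0 : ℂ) * (a * b) * (conj b * conj b) = k0 * (b * conj b) * (a * conj b) := by ring
        _ = k0 * ((‖b‖ ^ 2 : ℝ) : ℂ) * (ρ * (conj (exp (π / 4 * I)) * conj z)) := by
          rw [hcc, hab, map_mul, map_mul, conj_ofReal]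
        _ = conj (exp (π / 4 * I)) * conj (z / (‖z‖ : ℂ)) * ((k0 * ‖b‖ ^ 2 * (ρ * ‖z‖) : ℝ) : ℂ) := by
          rw [map_div₀, conj_ofReal]
          push_cast
          field_simp
        _ = _ := by
          rw [← hn]
          congr 2
          ring

/-- the structure of `RR` -/
theorem F03_struct {q1 q2 : ℕ} [NeZero q1] [NeZero q2] {χ1 : DirichletCharacter ℂ q1}
    {χ2 : DirichletCharacter ℂ q2} (h1 : χ1.IsPrimitive) (h2 : χ2.IsPrimitive) :
    ∃ (c : ℂ) (U : ℝ → ℂ), c ≠ 0 ∧ (∀ t, ‖U t‖ = 1) ∧ (∀ t, ‖U t - 1‖ ≤ 2 * Real.exp (-(π * t))) ∧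
      ∀ ε : ℝ, 0 < ε → ε ≤ 1 / 2 → ∀ t : ℝ, RR χ1 χ2 ε t =
        c * exp (-(((π / 2 - ε) / 2 : ℝ) : ℂ) * I) *
          ((Real.exp ((π / 2 - ε) * t) * ‖Gamma (1 / 2 + t * I)‖ * (ZZ χ1 t * ZZ χ2 t) : ℝ) : ℂ) * U t := by
  obtain ⟨ω, U, hω, hU, hU1, hph⟩ := F03_phase χ1 χ2
  obtain ⟨n1, -, i1⟩ := TT.uu_all h1
  obtain ⟨n2, -, i2⟩ := TT.uu_all h2
  have hq1 : (0 : ℝ) < q1 := by exact_mod_cast Nat.pos_of_ne_zero (NeZero.ne q1)
  have hq2 : (0 : ℝ) < q2 := by exact_mod_cast Nat.pos_of_ne_zero (NeZero.ne q2)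
  have hc : ∀ {q : ℕ} [NeZero q] (χ : DirichletCharacter ℂ q), ‖LX.uu χ 0‖ = 1 → LX.cc χ ≠ 0 := by
    intro q _ χ h h0
    unfold LX.uu at h
    rw [h0, zero_mul, zero_mul, norm_zero] at h
    exact zero_ne_one h
  have hc1 := hc χ1 (n1 0)
  have hc2 := hc χ2 (n2 0)
  set l1 : ℝ := Real.log q1 with hl1
  set l2 : ℝ := Real.log q2 with hl2
  set lp : ℝ := Real.log (2 * π) with hlp
  have hth : 0 < tht q1 q2 := by unfold tht; positivity
  have hlth : Real.log (tht q1 q2) = -((l1 + l2) / 2) := by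
    unfold tht
    rw [Real.log_inv, Real.log_sqrt (by positivity), Real.log_mul hq1.ne' hq2.ne']
  have h2pi : (0 : ℝ) < 2 * π := by positivity
  refine ⟨(Real.exp (-(lp / 2) + (l1 + l2) / 4) : ℝ) * (conj (LX.cc χ1) * conj (LX.cc χ2)) * ω, U, ?_, hU, hU1,
    fun ε hε hε1 t => ?_⟩
  · refine mul_ne_zero (mul_ne_zero ?_ (mul_ne_zero ?_ ?_)) ?_
    · exact_mod_cast (Real.exp_pos _).ne'
    · exact (map_ne_zero _).2 hc1
    · exact (map_ne_zero _).2 hc2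
    · rw [← norm_ne_zero_iff, hω]; exact one_ne_zero
  -- the L-functions
  have hL : ∀ {q : ℕ} [NeZero q] (χ : DirichletCharacter ℂ q), ‖LX.uu χ t‖ = 1 →
      (LX.uu χ t * LX.Lf χ (1 / 2 + t * I)).im = 0 →
      LX.Lf χ (1 / 2 + t * I) * (‖χ.gammaFactor (1 / 2 + t * I)‖ : ℂ) =
        conj (LX.cc χ) * exp (-((t / 2 * Real.log q : ℝ) : ℂ) * I) * conj (χ.gammaFactor (1 / 2 + t * I)) * ZZ χ t := by
    intro q _ χ hn hi
    have e1 : LX.uu χ t * LX.Lf χ (1 / 2 + t * I) = (ZZ χ t : ℂ) := by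
      apply Complex.ext
      · rw [ofReal_re]; rfl
      · rw [ofReal_im, hi]
    have e2 : conj (LX.uu χ t) * LX.uu χ t = 1 := by
      rw [mul_comm, mul_conj, normSq_eq_norm_sq, hn]
      norm_num
    have e3 : LX.Lf χ (1 / 2 + t * I) = conj (LX.uu χ t) * ZZ χ t := by
      rw [← e1, ← mul_assoc, e2, one_mul]
    have hg0 : (‖χ.gammaFactor (1 / 2 + t * I)‖ : ℂ) ≠ 0 := by
      exact_mod_cast norm_ne_zero_iff.2 (LX.Z03_gne χ t)
    have e4 : conj (LX.uu χ t) * (‖χ.gammaFactor (1 / 2 + t * I)‖ : ℂ) =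
        conj (LX.cc χ) * exp (-((t / 2 * Real.log q : ℝ) : ℂ) * I) * conj (χ.gammaFactor (1 / 2 + t * I)) := by
      unfold LX.uu
      rw [map_mul, map_mul, map_div₀, conj_ofReal, ← exp_conj, map_mul, conj_ofReal, conj_I]
      have e5 : ((t / 2 * Real.log q : ℝ) : ℂ) * -I = -((t / 2 * Real.log q : ℝ) : ℂ) * I := by ring
      rw [e5, mul_assoc, div_mul_cancel₀ _ hg0]
    rw [e3]
    linear_combination (ZZ χ t : ℂ) * e4
  have L1 := hL χ1 (n1 t) (i1 t)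
  have L2 := hL χ2 (n2 t) (i2 t)
  rw [← hl1] at L1
  rw [← hl2] at L2
  -- the power
  have hpow : (2 * π * tht q1 q2 * om ε : ℂ) ^ (-(1 / 2 + t * I) : ℂ) =
      (Real.exp (-(lp / 2) + (l1 + l2) / 4) : ℝ) * exp (-(((π / 2 - ε) / 2 : ℝ) : ℂ) * I) *
        (Real.exp ((π / 2 - ε) * t) : ℝ) * exp (-(lp * t * I)) *
        (exp (((t / 2 * l1 : ℝ) : ℂ) * I) * exp (((t / 2 * l2 : ℝ) : ℂ) * I)) := by
    have hr : (0 : ℝ) < 2 * π * tht q1 q2 := by positivity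
    have e1 : (2 * π * tht q1 q2 * om ε : ℂ) = ((2 * π * tht q1 q2 : ℝ) : ℂ) * om ε := by push_cast; ring
    have e2 : om ε ≠ 0 := by unfold om; exact exp_ne_zero _
    have e3 : Complex.log (om ε) = ((π / 2 - ε : ℝ) : ℂ) * I := by
      unfold om
      apply Complex.log_exp
      · rw [im_ofReal_mul, I_im, mul_one]
        linarith [Real.pi_gt_three]
      · rw [im_ofReal_mul, I_im, mul_one]
        linarith [Real.pi_gt_three]
    have e4 : Real.log (2 * π * tht q1 q2) = lp - (l1 + l2) / 2 := by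
      rw [Real.log_mul h2pi.ne' hth.ne', hlth]
      ring
    rw [e1, cpow_def_of_ne_zero (mul_ne_zero (by exact_mod_cast hr.ne') e2), Complex.log_ofReal_mul hr e2,
      e3, e4]
    rw [ofReal_exp, ofReal_exp, ← exp_add, ← exp_add, ← exp_add, ← exp_add, ← exp_add]
    congr 1
    push_cast
    have := I_mul_I
    linear_combination -((π / 2 - ε) * t : ℂ) * this
  have hph' := hph t
  have hg1 : (‖χ1.gammaFactor (1 / 2 + t * I)‖ : ℂ) ≠ 0 := by
    exact_mod_cast norm_ne_zero_iff.2 (LX.Z03_gne χ1 t)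
  have hg2 : (‖χ2.gammaFactor (1 / 2 + t * I)‖ : ℂ) ≠ 0 := by
    exact_mod_cast norm_ne_zero_iff.2 (LX.Z03_gne χ2 t)
  have hx1 : exp (((t / 2 * l1 : ℝ) : ℂ) * I) * exp (-((t / 2 * l1 : ℝ) : ℂ) * I) = 1 := by
    rw [← exp_add, neg_mul, add_neg_cancel, exp_zero]
  have hx2 : exp (((t / 2 * l2 : ℝ) : ℂ) * I) * exp (-((t / 2 * l2 : ℝ) : ℂ) * I) = 1 := by
    rw [← exp_add, neg_mul, add_neg_cancel, exp_zero]
  apply mul_right_cancel₀ (mul_ne_zero hg1 hg2)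
  unfold RR
  rw [hpow]
  generalize exp (((t / 2 * l1 : ℝ) : ℂ) * I) = E1 at *
  generalize exp (-((t / 2 * l1 : ℝ) : ℂ) * I) = E1' at *
  generalize exp (((t / 2 * l2 : ℝ) : ℂ) * I) = E2 at *
  generalize exp (-((t / 2 * l2 : ℝ) : ℂ) * I) = E2' at *
  generalize exp (-(((π / 2 - ε) / 2 : ℝ) : ℂ) * I) = Ew at *
  generalize exp (-(lp * t * I)) = Ep at *
  generalize Real.exp (-(lp / 2) + (l1 + l2) / 4) = R0 at *
  generalize Real.exp ((π / 2 - ε) * t) = R1 at *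
  generalize LX.Lf χ1 (1 / 2 + t * I) = V1 at *
  generalize LX.Lf χ2 (1 / 2 + t * I) = V2 at *
  generalize Gamma (1 / 2 + t * I) = Ga at *
  generalize χ1.gammaFactor (1 / 2 + t * I) = g1 at *
  generalize χ2.gammaFactor (1 / 2 + t * I) = g2 at *
  generalize ZZ χ1 t = Z1 at *
  generalize ZZ χ2 t = Z2 at *
  push_cast at hph' ⊢
  calc Ga * (R0 * Ew * R1 * Ep * (E1 * E2)) * (V1 * V2) * (‖g1‖ * ‖g2‖)
      = Ga * (R0 * Ew * R1 * Ep * (E1 * E2)) * ((V1 * ‖g1‖) * (V2 * ‖g2‖)) := by ring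
    _ = (Ga * Ep * (conj g1 * conj g2)) * (R0 * Ew * R1 * (conj (LX.cc χ1) * conj (LX.cc χ2)) * (Z1 * Z2)) *
        ((E1 * E1') * (E2 * E2')) := by
        rw [L1, L2]
        ring
    _ = _ := by
        rw [hph', hx1, hx2]
        ring

theorem F03_gam_le (t : ℝ) : ‖Gamma (1 / 2 + t * I)‖ ≤ 3 * Real.exp (-(π * |t| / 2)) := by
  have hpi := Real.pi_pos
  have h1 : Real.exp (π * |t|) / 2 ≤ Real.cosh (π * t) := by
    rw [← Real.cosh_abs, abs_mul, abs_of_pos hpi, Real.cosh_eq]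
    have := Real.exp_pos (-(π * |t|))
    linarith
  have h2 : π / Real.cosh (π * t) ≤ (3 * Real.exp (-(π * |t| / 2))) ^ 2 := by
    have h3 : (3 * Real.exp (-(π * |t| / 2))) ^ 2 = 9 * Real.exp (-(π * |t|)) := by
      rw [mul_pow, ← Real.exp_nat_mul]
      norm_num
      ring
    rw [h3, div_le_iff₀ (Real.cosh_pos _)]
    have h4 : Real.exp (-(π * |t|)) * Real.exp (π * |t|) = 1 := by rw [← Real.exp_add]; simp
    have h5 : 0 < Real.exp (-(π * |t|)) := Real.exp_pos _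
    have h6 : 9 * Real.exp (-(π * |t|)) * (Real.exp (π * |t|) / 2) ≤ 9 * Real.exp (-(π * |t|)) * Real.cosh (π * t) :=
      mul_le_mul_of_nonneg_left h1 (by positivity)
    have h7 : 9 * Real.exp (-(π * |t|)) * (Real.exp (π * |t|) / 2) = 9 / 2 := by
      linear_combination (9 / 2 : ℝ) * h4
    have h8 := Real.pi_lt_four
    linarith
  rw [← F03_gam] at h2
  exact (pow_le_pow_iff_left₀ (norm_nonneg _) (by positivity) two_ne_zero).1 h2

theorem F03_ZZ_le {q : ℕ} [NeZero q] {χ : DirichletCharacter ℂ q} (hχ : χ.IsPrimitive) :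
    ∃ C : ℝ, 0 ≤ C ∧ ∀ t : ℝ, |ZZ χ t| ≤ C * (1 + |t|) := by
  obtain ⟨C, hC, h⟩ := Lf_growth χ
  obtain ⟨hn, -, -⟩ := TT.uu_all hχ
  refine ⟨C, hC, fun t => ?_⟩
  unfold ZZ
  refine (Complex.abs_re_le_norm _).trans ?_
  rw [norm_mul, hn, one_mul]
  exact h t

/-- Row F03. Reality up to an exponentially small error, for all parities. -/
theorem RR_real {q1 q2 : ℕ} [NeZero q1] [NeZero q2] {χ1 : DirichletCharacter ℂ q1}
    {χ2 : DirichletCharacter ℂ q2} (h1 : χ1.IsPrimitive) (h2 : χ2.IsPrimitive) :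
    ∃ (η : ℝ → ℂ) (C : ℝ), 0 ≤ C ∧ (∀ ε, ‖η ε‖ = 1) ∧ ∀ ε : ℝ, 0 < ε → ε ≤ 1 / 2 → ∀ t : ℝ,
      ‖RR χ1 χ2 ε t - η ε * conj (RR χ1 χ2 ε t)‖ ≤ C * (1 + |t|) ^ 6 * Real.exp (-|t|) := by
  obtain ⟨c, U, hc, hU, hU1, hst⟩ := F03_struct h1 h2
  obtain ⟨C1, hC1, hZ1⟩ := F03_ZZ_le h1
  obtain ⟨C2, hC2, hZ2⟩ := F03_ZZ_le h2
  have hcn : 0 < ‖c‖ := norm_pos_iff.2 hc
  refine ⟨fun ε => c / conj c * exp (-(((π / 2 - ε : ℝ)) : ℂ) * I), ‖c‖ * (C1 * C2) * 12, by positivity,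
    fun ε => ?_, fun ε hε hε1 t => ?_⟩
  · have : -(((π / 2 - ε : ℝ)) : ℂ) * I = ((-(π / 2 - ε) : ℝ) : ℂ) * I := by push_cast; ring
    rw [norm_mul, norm_div, RCLike.norm_conj, div_self hcn.ne', this, norm_exp_ofReal_mul_I, one_mul]
  · have hcc : conj c ≠ 0 := (map_ne_zero _).2 hc
    set A : ℝ := Real.exp ((π / 2 - ε) * t) * ‖Gamma (1 / 2 + t * I)‖ * (ZZ χ1 t * ZZ χ2 t) with hA
    have e0 : RR χ1 χ2 ε t = c * exp (-(((π / 2 - ε) / 2 : ℝ) : ℂ) * I) * (A : ℂ) * U t := hst ε hε hε1 t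
    have e1 : conj (RR χ1 χ2 ε t) = conj c * exp ((((π / 2 - ε) / 2 : ℝ) : ℂ) * I) * (A : ℂ) * conj (U t) := by
      rw [e0, map_mul, map_mul, map_mul, conj_ofReal, ← exp_conj, map_mul, map_neg, conj_ofReal, conj_I]
      congr 4
      ring
    have e2 : exp (-(((π / 2 - ε : ℝ)) : ℂ) * I) * exp ((((π / 2 - ε) / 2 : ℝ) : ℂ) * I) =
        exp (-(((π / 2 - ε) / 2 : ℝ) : ℂ) * I) := by
      rw [← exp_add]
      congr 1
      push_cast
      ring
    have e3 : RR χ1 χ2 ε t - c / conj c * exp (-(((π / 2 - ε : ℝ)) : ℂ) * I) * conj (RR χ1 χ2 ε t) =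
        c * exp (-(((π / 2 - ε) / 2 : ℝ) : ℂ) * I) * (A : ℂ) * (U t - conj (U t)) := by
      rw [e1, e0]
      have e4 : c / conj c * exp (-(((π / 2 - ε : ℝ)) : ℂ) * I) *
          (conj c * exp ((((π / 2 - ε) / 2 : ℝ) : ℂ) * I) * (A : ℂ) * conj (U t)) =
          (c / conj c * conj c) * (exp (-(((π / 2 - ε : ℝ)) : ℂ) * I) * exp ((((π / 2 - ε) / 2 : ℝ) : ℂ) * I)) *
            (A : ℂ) * conj (U t) := by ring
      rw [e4, e2, div_mul_cancel₀ _ hcc]
      ring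
    have e5 : ‖exp (-(((π / 2 - ε) / 2 : ℝ) : ℂ) * I)‖ = 1 := by
      have : -(((π / 2 - ε) / 2 : ℝ) : ℂ) * I = ((-((π / 2 - ε) / 2) : ℝ) : ℂ) * I := by push_cast; ring
      rw [this, norm_exp_ofReal_mul_I]
    show ‖RR χ1 χ2 ε t - c / conj c * exp (-(((π / 2 - ε : ℝ)) : ℂ) * I) * conj (RR χ1 χ2 ε t)‖ ≤ _
    rw [e3, norm_mul, norm_mul, norm_mul, e5, mul_one, norm_real, Real.norm_eq_abs]
    have hd1 : ‖U t - conj (U t)‖ ≤ 2 := by
      refine (norm_sub_le _ _).trans ?_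
      rw [RCLike.norm_conj, hU]
      norm_num
    have hd2 : ‖U t - conj (U t)‖ ≤ 4 * Real.exp (-(π * t)) := by
      have : U t - conj (U t) = (U t - 1) - conj (U t - 1) := by rw [map_sub, map_one]; ring
      rw [this]
      refine (norm_sub_le _ _).trans ?_
      rw [RCLike.norm_conj]
      linarith [hU1 t]
    have hg := F03_gam_le t
    have hpi := Real.pi_gt_three
    have key : Real.exp ((π / 2 - ε) * t) * ‖Gamma (1 / 2 + t * I)‖ * ‖U t - conj (U t)‖ ≤ 12 * Real.exp (-|t|) := by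
      rcases le_total 0 t with ht | ht
      · rw [abs_of_nonneg ht] at hg ⊢
        calc Real.exp ((π / 2 - ε) * t) * ‖Gamma (1 / 2 + t * I)‖ * ‖U t - conj (U t)‖
            ≤ Real.exp ((π / 2 - ε) * t) * (3 * Real.exp (-(π * t / 2))) * (4 * Real.exp (-(π * t))) := by gcongr
          _ = 12 * Real.exp ((π / 2 - ε) * t + -(π * t / 2) + -(π * t)) := by
            rw [Real.exp_add, Real.exp_add]; ring
          _ ≤ 12 * Real.exp (-t) := by
            gcongr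
            nlinarith
      · rw [abs_of_nonpos ht] at hg ⊢
        calc Real.exp ((π / 2 - ε) * t) * ‖Gamma (1 / 2 + t * I)‖ * ‖U t - conj (U t)‖
            ≤ Real.exp ((π / 2 - ε) * t) * (3 * Real.exp (-(π * -t / 2))) * 2 := by gcongr
          _ = 6 * Real.exp ((π / 2 - ε) * t + -(π * -t / 2)) := by
            rw [Real.exp_add]; ring
          _ ≤ 6 * Real.exp (-(-t)) := by
            gcongr
            nlinarith
          _ ≤ 12 * Real.exp (-(-t)) := by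
            have := Real.exp_pos (-(-t))
            linarith
    have hAabs : |A| = Real.exp ((π / 2 - ε) * t) * ‖Gamma (1 / 2 + t * I)‖ * (|ZZ χ1 t| * |ZZ χ2 t|) := by
      rw [hA, abs_mul, abs_mul, abs_mul, Real.abs_exp, abs_norm]
    have hZZ : |ZZ χ1 t| * |ZZ χ2 t| ≤ (C1 * C2) * (1 + |t|) ^ 2 := by
      calc |ZZ χ1 t| * |ZZ χ2 t| ≤ (C1 * (1 + |t|)) * (C2 * (1 + |t|)) :=
            mul_le_mul (hZ1 t) (hZ2 t) (abs_nonneg _) (by positivity)
        _ = _ := by ring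
    have h26 : (1 + |t|) ^ 2 ≤ (1 + |t|) ^ 6 :=
      pow_le_pow_right₀ (by linarith [abs_nonneg t]) (by norm_num)
    calc ‖c‖ * |A| * ‖U t - conj (U t)‖
        = ‖c‖ * (|ZZ χ1 t| * |ZZ χ2 t|) *
          (Real.exp ((π / 2 - ε) * t) * ‖Gamma (1 / 2 + t * I)‖ * ‖U t - conj (U t)‖) := by rw [hAabs]; ring
      _ ≤ ‖c‖ * ((C1 * C2) * (1 + |t|) ^ 6) * (12 * Real.exp (-|t|)) := by
        have : |ZZ χ1 t| * |ZZ χ2 t| ≤ (C1 * C2) * (1 + |t|) ^ 6 :=
          hZZ.trans (mul_le_mul_of_nonneg_left h26 (by positivity))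
        gcongr
      _ = _ := by ring

/-- the product of two pairs is a constant times weight times the real Hardy functions -/
theorem RR_prod {q1 q2 q3 q4 : ℕ} [NeZero q1] [NeZero q2] [NeZero q3] [NeZero q4]
    {χ1 : DirichletCharacter ℂ q1} {χ2 : DirichletCharacter ℂ q2} {χ3 : DirichletCharacter ℂ q3}
    {χ4 : DirichletCharacter ℂ q4} (h1 : χ1.IsPrimitive) (h2 : χ2.IsPrimitive) (h3 : χ3.IsPrimitive)
    (h4 : χ4.IsPrimitive) : ∃ (κ : ℂ) (C : ℝ), κ ≠ 0 ∧ 0 ≤ C ∧ ∀ ε : ℝ, 0 < ε → ε ≤ 1 / 2 → ∀ t : ℝ,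
      ‖RR χ1 χ2 ε t * conj (RR χ3 χ4 ε t) -
        κ * ((wt ε t * (ZZ χ1 t * ZZ χ2 t * ZZ χ3 t * ZZ χ4 t) : ℝ) : ℂ)‖ ≤
        C * (1 + |t|) ^ 12 * Real.exp (-|t|) := by
  obtain ⟨c, U, hc, hU, hU1, hst⟩ := F03_struct h1 h2
  obtain ⟨d, V, hd, hV, hV1, hst'⟩ := F03_struct h3 h4
  obtain ⟨C1, hC1, hZ1⟩ := F03_ZZ_le h1
  obtain ⟨C2, hC2, hZ2⟩ := F03_ZZ_le h2
  obtain ⟨C3, hC3, hZ3⟩ := F03_ZZ_le h3
  obtain ⟨C4, hC4, hZ4⟩ := F03_ZZ_le h4
  have hpi := Real.pi_gt_three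
  refine ⟨(π : ℂ) * (c * conj d), ‖(π : ℂ) * (c * conj d)‖ * (C1 * C2 * C3 * C4) * 8, ?_, by positivity,
    fun ε hε hε1 t => ?_⟩
  · refine mul_ne_zero (by exact_mod_cast Real.pi_ne_zero) (mul_ne_zero hc ((map_ne_zero _).2 hd))
  · set g : ℝ := ‖Gamma (1 / 2 + t * I)‖ with hg
    set e : ℝ := Real.exp ((π / 2 - ε) * t) with he
    have hwt : e * e * g ^ 2 = π * wt ε t := by
      unfold wt
      rw [hg, F03_gam, he, ← Real.exp_add]
      have : (π / 2 - ε) * t + (π / 2 - ε) * t = (π - 2 * ε) * t := by ring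
      rw [this]
      ring
    have e0 : RR χ1 χ2 ε t = c * exp (-(((π / 2 - ε) / 2 : ℝ) : ℂ) * I) *
        ((e * g * (ZZ χ1 t * ZZ χ2 t) : ℝ) : ℂ) * U t := hst ε hε hε1 t
    have e1 : conj (RR χ3 χ4 ε t) = conj d * exp ((((π / 2 - ε) / 2 : ℝ) : ℂ) * I) *
        ((e * g * (ZZ χ3 t * ZZ χ4 t) : ℝ) : ℂ) * conj (V t) := by
      rw [hst' ε hε hε1 t, map_mul, map_mul, map_mul, conj_ofReal, ← exp_conj, map_mul, map_neg, conj_ofReal, conj_I]
      congr 4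
      ring
    have e2 : exp (-(((π / 2 - ε) / 2 : ℝ) : ℂ) * I) * exp ((((π / 2 - ε) / 2 : ℝ) : ℂ) * I) = 1 := by
      rw [← exp_add, neg_mul, neg_add_cancel, exp_zero]
    have hwt' : (e : ℂ) * e * (g : ℂ) ^ 2 = π * (wt ε t : ℂ) := by exact_mod_cast hwt
    have e3 : RR χ1 χ2 ε t * conj (RR χ3 χ4 ε t) -
        (π : ℂ) * (c * conj d) * ((wt ε t * (ZZ χ1 t * ZZ χ2 t * ZZ χ3 t * ZZ χ4 t) : ℝ) : ℂ) =
        (π : ℂ) * (c * conj d) * ((wt ε t * (ZZ χ1 t * ZZ χ2 t * ZZ χ3 t * ZZ χ4 t) : ℝ) : ℂ) *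
          (U t * conj (V t) - 1) := by
      rw [e1, e0]
      generalize exp (-(((π / 2 - ε) / 2 : ℝ) : ℂ) * I) = Ea at e2
      generalize exp ((((π / 2 - ε) / 2 : ℝ) : ℂ) * I) = Eb at e2
      push_cast
      linear_combination ((c * conj d) * ((e : ℂ) * e * (g : ℂ) ^ 2) *
        ((ZZ χ1 t : ℂ) * ZZ χ2 t * ZZ χ3 t * ZZ χ4 t) * (U t * conj (V t))) * e2 +
        ((c * conj d) * ((ZZ χ1 t : ℂ) * ZZ χ2 t * ZZ χ3 t * ZZ χ4 t) * (U t * conj (V t))) * hwt'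
    rw [e3, norm_mul, norm_mul, norm_real, Real.norm_eq_abs]
    have hd1 : ‖U t * conj (V t) - 1‖ ≤ 2 := by
      refine (norm_sub_le _ _).trans ?_
      rw [norm_mul, RCLike.norm_conj, hU, hV, norm_one]
      norm_num
    have hd2 : ‖U t * conj (V t) - 1‖ ≤ 4 * Real.exp (-(π * t)) := by
      have : U t * conj (V t) - 1 = (U t - 1) * conj (V t) + conj (V t - 1) := by rw [map_sub, map_one]; ring
      rw [this]
      refine (norm_add_le _ _).trans ?_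
      rw [norm_mul, RCLike.norm_conj, RCLike.norm_conj, hV, mul_one]
      linarith [hU1 t, hV1 t]
    have hw0 : 0 ≤ wt ε t := by unfold wt; positivity
    have hwle : wt ε t ≤ 2 * Real.exp ((π - 2 * ε) * t - π * |t|) := by
      unfold wt
      have h5 : Real.exp (π * |t|) / 2 ≤ Real.cosh (π * t) := by
        rw [← Real.cosh_abs, abs_mul, abs_of_pos Real.pi_pos, Real.cosh_eq]
        have := Real.exp_pos (-(π * |t|))
        linarith
      rw [div_le_iff₀ (Real.cosh_pos _)]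
      have h6 : 2 * Real.exp ((π - 2 * ε) * t - π * |t|) * (Real.exp (π * |t|) / 2) ≤
          2 * Real.exp ((π - 2 * ε) * t - π * |t|) * Real.cosh (π * t) :=
        mul_le_mul_of_nonneg_left h5 (by positivity)
      have h7 : 2 * Real.exp ((π - 2 * ε) * t - π * |t|) * (Real.exp (π * |t|) / 2) =
          Real.exp ((π - 2 * ε) * t) := by
        have : Real.exp ((π - 2 * ε) * t) = Real.exp ((π - 2 * ε) * t - π * |t|) * Real.exp (π * |t|) := by
          rw [← Real.exp_add]; congr 1; ring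
        rw [this]
        ring
      linarith
    have key : wt ε t * ‖U t * conj (V t) - 1‖ ≤ 8 * Real.exp (-|t|) := by
      rcases le_total 0 t with ht | ht
      · rw [abs_of_nonneg ht] at hwle ⊢
        calc wt ε t * ‖U t * conj (V t) - 1‖
            ≤ (2 * Real.exp ((π - 2 * ε) * t - π * t)) * (4 * Real.exp (-(π * t))) := by gcongr
          _ = 8 * Real.exp ((π - 2 * ε) * t - π * t + -(π * t)) := by
            rw [Real.exp_add]; ring
          _ ≤ 8 * Real.exp (-t) := by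
            gcongr
            nlinarith
      · rw [abs_of_nonpos ht] at hwle ⊢
        calc wt ε t * ‖U t * conj (V t) - 1‖
            ≤ (2 * Real.exp ((π - 2 * ε) * t - π * -t)) * 2 := by gcongr
          _ = 4 * Real.exp ((π - 2 * ε) * t - π * -t) := by ring
          _ ≤ 4 * Real.exp (-(-t)) := by
            gcongr
            nlinarith
          _ ≤ 8 * Real.exp (-(-t)) := by
            have := Real.exp_pos (-(-t))
            linarith
    have hZZ : |ZZ χ1 t * ZZ χ2 t * ZZ χ3 t * ZZ χ4 t| ≤ (C1 * C2 * C3 * C4) * (1 + |t|) ^ 4 := by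
      rw [abs_mul, abs_mul, abs_mul]
      have ha := abs_nonneg t
      calc |ZZ χ1 t| * |ZZ χ2 t| * |ZZ χ3 t| * |ZZ χ4 t|
          ≤ (C1 * (1 + |t|)) * (C2 * (1 + |t|)) * (C3 * (1 + |t|)) * (C4 * (1 + |t|)) := by
            have := hZ1 t; have := hZ2 t; have := hZ3 t; have := hZ4 t
            gcongr
        _ = _ := by ring
    have h26 : (1 + |t|) ^ 4 ≤ (1 + |t|) ^ 12 :=
      pow_le_pow_right₀ (by linarith [abs_nonneg t]) (by norm_num)
    rw [abs_mul, abs_of_nonneg hw0]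
    calc ‖(π : ℂ) * (c * conj d)‖ * (wt ε t * |ZZ χ1 t * ZZ χ2 t * ZZ χ3 t * ZZ χ4 t|) * ‖U t * conj (V t) - 1‖
        = ‖(π : ℂ) * (c * conj d)‖ * |ZZ χ1 t * ZZ χ2 t * ZZ χ3 t * ZZ χ4 t| *
          (wt ε t * ‖U t * conj (V t) - 1‖) := by ring
      _ ≤ ‖(π : ℂ) * (c * conj d)‖ * ((C1 * C2 * C3 * C4) * (1 + |t|) ^ 12) * (8 * Real.exp (-|t|)) := by
        have : |ZZ χ1 t * ZZ χ2 t * ZZ χ3 t * ZZ χ4 t| ≤ (C1 * C2 * C3 * C4) * (1 + |t|) ^ 12 :=
          hZZ.trans (mul_le_mul_of_nonneg_left h26 (by positivity))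
        gcongr
      _ = _ := by ring

end FF
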