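import Pool.Agent.Lib.MP_0f5a55_nt.FF.D
import Pool.Agent.Lib.MP_0f5a55_nt.II.I01
import Pool.Agent.Lib.MP_0f5a55_nt.II.I02
import Pool.Agent.Lib.MP_0f5a55_nt.II.I03
import Pool.Agent.Lib.MP_0f5a55_nt.II.I05

open Complex MeasureTheory Set Filter Topology
open scoped Real ComplexConjugate

namespace FF

open II

private theorem F04_dv_le (n : ℕ) : dv n ≤ n := by
  unfold dv
  exact_mod_cast Nat.card_divisors_le_self n

private theorem F04_dv_nonneg (n : ℕ) : 0 ≤ dv n := Nat.cast_nonneg _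

private theorem F04_cv_le {q1 q2 : ℕ} [NeZero q1] [NeZero q2] (χ1 : DirichletCharacter ℂ q1)
    (χ2 : DirichletCharacter ℂ q2) (n : ℕ) : ‖cv χ1 χ2 n‖ ≤ dv n := by
  unfold cv dv
  refine (norm_sum_le _ _).trans ?_
  calc ∑ x ∈ n.divisorsAntidiagonal, ‖χ1 (x.1 : ZMod q1) * χ2 (x.2 : ZMod q2)‖
      ≤ ∑ x ∈ n.divisorsAntidiagonal, (fun _ _ => (1 : ℝ)) x.1 x.2 := by
        refine Finset.sum_le_sum (fun x _ => ?_)
        rw [norm_mul]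
        exact mul_le_one₀ (DirichletCharacter.norm_le_one _ _) (norm_nonneg _)
          (DirichletCharacter.norm_le_one _ _)
    _ = (n.divisors.card : ℝ) := by
        rw [Nat.sum_divisorsAntidiagonal (fun _ _ => (1 : ℝ))]
        simp

private theorem F04_nre (θ ε x : ℝ) (n : ℕ) : (-(2 * π * θ * ((n : ℂ) + 1) * x * om ε)).re =
    -(2 * π * θ * ((n : ℝ) + 1) * x * Real.sin ε) := by
  have h : (-(2 * π * θ * ((n : ℂ) + 1) * x * om ε)) =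
      (((-(2 * π * θ * ((n : ℝ) + 1) * x)) : ℝ) : ℂ) * om ε := by
    push_cast; ring
  rw [h, re_ofReal_mul, om_eq, add_re, ofReal_re, re_ofReal_mul, I_re, mul_zero, add_zero]
  ring

private theorem F04_cont {θ ε : ℝ} (hθ : 0 < θ) (h0 : 0 < ε) (he : ε ≤ 1 / 2) {a : ℕ → ℂ}
    (ha : ∀ n : ℕ, ‖a n‖ ≤ n) : Continuous (fun u : ℝ => FE a θ ε (Real.exp u)) := by
  rw [continuous_iff_continuousAt]
  intro u0
  have hs : 0 < Real.sin ε := TT.sin_pos' h0 he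
  obtain ⟨c, hc⟩ : ∃ c : ℝ, c = 2 * π * θ * Real.exp (u0 - 1) * Real.sin ε := ⟨_, rfl⟩
  have hc0 : 0 < c := by rw [hc]; positivity
  have hsum : Summable (fun n : ℕ => ((n + 1 : ℕ) : ℝ) * Real.exp (-c * ((n + 1 : ℕ) : ℝ))) := by
    have h1 := (Real.summable_pow_mul_exp_neg_nat_mul 1 hc0)
    have h2 := (summable_nat_add_iff 1).mpr h1
    refine h2.congr (fun n => ?_)
    rw [pow_one]
  have hco : ContinuousOn (fun u : ℝ => FE a θ ε (Real.exp u)) (Ioi (u0 - 1)) := by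
    unfold FE
    refine continuousOn_tsum (fun n => ?_) hsum (fun n u hu => ?_)
    · apply Continuous.continuousOn
      fun_prop
    · rw [norm_mul, Complex.norm_exp, F04_nre]
      refine mul_le_mul (ha (n + 1)) (Real.exp_le_exp.mpr ?_) (Real.exp_pos _).le (Nat.cast_nonneg _)
      have h3 : Real.exp (u0 - 1) ≤ Real.exp u := Real.exp_le_exp.mpr (le_of_lt hu)
      have h4 : 0 ≤ 2 * π * θ * ((n : ℝ) + 1) * Real.sin ε := by positivity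
      have h5 := mul_le_mul_of_nonneg_left h3 h4
      rw [hc]
      push_cast
      linarith
  exact hco.continuousAt (Ioi_mem_nhds (by linarith))

private theorem F04_sq : Summable (fun n : ℕ => (((n : ℝ) + 1) ^ 2)⁻¹) := by
  have h := (summable_nat_add_iff 1).mpr (Real.summable_one_div_nat_pow.mpr (by norm_num : 1 < 2))
  refine h.congr (fun n => ?_)
  push_cast
  rw [one_div]

private theorem F04_maj {θ ε : ℝ} (hθ : 0 < θ) (h0 : 0 < ε) (he : ε ≤ 1 / 2) {α : ℕ → ℝ}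
    (h1 : ∀ n, 0 ≤ α n) (h2 : ∀ n : ℕ, α n ≤ n) (k : ℕ) :
    Summable (fun x : ℕ × ℕ => α (x.1 + 1) * α (x.2 + 1) *
        ((1 + ‖((Real.exp k : ℝ) : ℂ) * zz θ θ ε (x.1 + 1) (x.2 + 1)‖) ^ 12)⁻¹) := by
  have hs : 0 < Real.sin ε := TT.sin_pos' h0 he
  have hprod : Summable (fun x : ℕ × ℕ => (((x.1 : ℝ) + 1) ^ 2)⁻¹ * (((x.2 : ℝ) + 1) ^ 2)⁻¹) :=
    F04_sq.mul_of_nonneg F04_sq (fun n => by positivity) (fun n => by positivity)
  refine Summable.of_nonneg_of_le (fun x => ?_) (fun x => ?_)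
    (hprod.mul_left (((Real.sin ε * θ) ^ 12)⁻¹))
  · have := h1 (x.1 + 1)
    have := h1 (x.2 + 1)
    positivity
  · obtain ⟨n, m⟩ := x
    show α (n + 1) * α (m + 1) * ((1 + ‖((Real.exp k : ℝ) : ℂ) * zz θ θ ε (n + 1) (m + 1)‖) ^ 12)⁻¹ ≤
      ((Real.sin ε * θ) ^ 12)⁻¹ * ((((n : ℝ) + 1) ^ 2)⁻¹ * (((m : ℝ) + 1) ^ 2)⁻¹)
    have an := h2 (n + 1)
    have am := h2 (m + 1)
    push_cast at an am
    have hn : (1 : ℝ) ≤ (n : ℝ) + 1 := by linarith [(Nat.cast_nonneg n : (0 : ℝ) ≤ n)]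
    have hm : (1 : ℝ) ≤ (m : ℝ) + 1 := by linarith [(Nat.cast_nonneg m : (0 : ℝ) ≤ m)]
    have hz : Real.sin ε * θ * (((n : ℝ) + 1) + ((m : ℝ) + 1)) ≤
        1 + ‖((Real.exp k : ℝ) : ℂ) * zz θ θ ε (n + 1) (m + 1)‖ := by
      have e1 : Real.sin ε * θ * (((n : ℝ) + 1) + ((m : ℝ) + 1)) = (zz θ θ ε (n + 1) (m + 1)).re := by
        rw [zz_re]
        push_cast
        ring
      have e2 : (zz θ θ ε (n + 1) (m + 1)).re ≤ ‖zz θ θ ε (n + 1) (m + 1)‖ := Complex.re_le_norm _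
      have e3 : ‖((Real.exp k : ℝ) : ℂ) * zz θ θ ε (n + 1) (m + 1)‖ =
          Real.exp k * ‖zz θ θ ε (n + 1) (m + 1)‖ := by
        rw [norm_mul, Complex.norm_real, Real.norm_of_nonneg (Real.exp_pos _).le]
      have e4 : (1 : ℝ) ≤ Real.exp k := Real.one_le_exp (Nat.cast_nonneg _)
      have e5 : ‖zz θ θ ε (n + 1) (m + 1)‖ ≤ Real.exp k * ‖zz θ θ ε (n + 1) (m + 1)‖ :=
        le_mul_of_one_le_left (norm_nonneg _) e4
      rw [e1, e3]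
      linarith
    have hc : 0 < Real.sin ε * θ := by positivity
    have hp : 0 ≤ α (n + 1) * α (m + 1) := mul_nonneg (h1 _) (h1 _)
    have hq : α (n + 1) * α (m + 1) ≤ ((n : ℝ) + 1) * ((m : ℝ) + 1) :=
      mul_le_mul an am (h1 _) (by positivity)
    revert hz hq hp hc
    generalize α (n + 1) * α (m + 1) = A
    generalize ‖((Real.exp k : ℝ) : ℂ) * zz θ θ ε (n + 1) (m + 1)‖ = Z
    revert hn hm
    generalize (n : ℝ) + 1 = N
    generalize (m : ℝ) + 1 = M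
    generalize Real.sin ε * θ = c
    intro hn hm hz hc hp hq
    have hNM : 1 ≤ N * M := one_le_mul_of_one_le_of_one_le hn hm
    have h5 : c ^ 12 * (N * M) ^ 6 ≤ (1 + Z) ^ 12 := by
      have h6 : N * M ≤ (N + M) ^ 2 := by nlinarith
      calc c ^ 12 * (N * M) ^ 6 ≤ c ^ 12 * ((N + M) ^ 2) ^ 6 :=
            mul_le_mul_of_nonneg_left (pow_le_pow_left₀ (by positivity) h6 6) (by positivity)
        _ = (c * (N + M)) ^ 12 := by ring
        _ ≤ (1 + Z) ^ 12 := pow_le_pow_left₀ (by positivity) hz 12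
    have h7 : ((1 + Z) ^ 12)⁻¹ ≤ (c ^ 12 * (N * M) ^ 6)⁻¹ := inv_anti₀ (by positivity) h5
    have h8 : (N * M) ^ 3 ≤ (N * M) ^ 6 := pow_le_pow_right₀ hNM (by norm_num)
    calc A * ((1 + Z) ^ 12)⁻¹ ≤ (N * M) * (c ^ 12 * (N * M) ^ 6)⁻¹ :=
          mul_le_mul hq h7 (inv_nonneg.mpr (by
            have : 0 ≤ 1 + Z := le_trans (by positivity) hz
            positivity)) (by positivity)
      _ ≤ (N * M) * (c ^ 12 * (N * M) ^ 3)⁻¹ := by
          refine mul_le_mul_of_nonneg_left (inv_anti₀ (by positivity) ?_) (by positivity)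
          exact mul_le_mul_of_nonneg_left h8 (by positivity)
      _ = (c ^ 12)⁻¹ * ((N ^ 2)⁻¹ * (M ^ 2)⁻¹) := by
          have hN : N ≠ 0 := by positivity
          have hM : M ≠ 0 := by positivity
          field_simp

private theorem F04_geo : Summable (fun i : ℕ => ((i : ℝ) + 1) ^ 3 * (1 / 8) ^ i) := by
  have h := summable_pow_mul_geometric_of_norm_lt_one (R := ℝ) 3 (r := 1 / 8) (by norm_num)
  have h2 := ((summable_nat_add_iff 1).mpr h).mul_left 8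
  refine h2.congr (fun i => ?_)
  push_cast
  rw [pow_succ (1 / 8 : ℝ)]
  ring

private theorem F04_term (y A : ℝ) (hy : 0 < y) (hA : 0 ≤ A) (M : ℕ) (hM : y ≤ 2 ^ M) :
    A * ((1 + y) ^ 4)⁻¹ ≤ ∑ i ∈ Finset.range (M + 1), 16 * (1 / 16 : ℝ) ^ i * (if y ≤ 2 ^ i then A else 0) := by
  classical
  have hex : ∃ i : ℕ, y ≤ 2 ^ i := ⟨M, hM⟩
  obtain ⟨j, hj⟩ : ∃ j, j = Nat.find hex := ⟨_, rfl⟩
  have hj1 : y ≤ 2 ^ j := by rw [hj]; exact Nat.find_spec hex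
  have hj2 : j ≤ M := by rw [hj]; exact Nat.find_min' hex hM
  have h1 : ((1 + y) ^ 4)⁻¹ ≤ 16 * (1 / 16 : ℝ) ^ j := by
    rcases Nat.eq_zero_or_pos j with h | h
    · rw [h, pow_zero, mul_one]
      have : (1 : ℝ) ≤ (1 + y) ^ 4 := one_le_pow₀ (by linarith)
      have := inv_le_one_of_one_le₀ this
      linarith
    · obtain ⟨i, rfl⟩ : ∃ i, j = i + 1 := ⟨j - 1, by omega⟩
      have h2 : ¬ (y ≤ 2 ^ i) := by
        apply Nat.find_min hex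
        omega
      rw [not_le] at h2
      have h3 : (16 : ℝ) ^ i ≤ (1 + y) ^ 4 := by
        have h4 : ((2 : ℝ) ^ i) ^ 4 = 16 ^ i := by
          rw [← pow_mul, mul_comm, pow_mul]; norm_num
        rw [← h4]
        exact pow_le_pow_left₀ (by positivity) (by linarith) 4
      calc ((1 + y) ^ 4)⁻¹ ≤ ((16 : ℝ) ^ i)⁻¹ := inv_anti₀ (by positivity) h3
        _ = 16 * (1 / 16 : ℝ) ^ (i + 1) := by
            rw [pow_succ, one_div, inv_pow]; ring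
  calc A * ((1 + y) ^ 4)⁻¹ ≤ A * (16 * (1 / 16 : ℝ) ^ j) := mul_le_mul_of_nonneg_left h1 hA
    _ = 16 * (1 / 16 : ℝ) ^ j * (if y ≤ 2 ^ j then A else 0) := by rw [if_pos hj1]; ring
    _ ≤ _ := by
        refine Finset.single_le_sum (f := fun i => 16 * (1 / 16 : ℝ) ^ i * (if y ≤ 2 ^ i then A else 0))
          (fun i _ => ?_) (Finset.mem_range.mpr (by omega))
        have : 0 ≤ (if y ≤ 2 ^ i then A else 0) := by split_ifs <;> simp [hA]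
        positivity

private theorem F04_block (α : ℕ → ℝ) (h1 : ∀ n, 0 ≤ α n) (h2 : ∀ n, α n ≤ dv n) (w : ℝ) (hw : 0 < w)
    (hw1 : w ≤ 1) (N i : ℕ) :
    ∑ n ∈ Finset.range N, (if w * ((n : ℝ) + 1) ≤ 2 ^ i then α (n + 1) ^ 2 else 0) ≤
      2 ^ i * w⁻¹ * (((i : ℝ) + 1) * (1 + Real.log w⁻¹)) ^ 3 := by
  have hwi : 1 ≤ w⁻¹ := (one_le_inv₀ hw).mpr hw1
  have hlog : 0 ≤ Real.log w⁻¹ := Real.log_nonneg hwi
  have h2i : (1 : ℝ) ≤ 2 ^ i := one_le_pow₀ (by norm_num)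
  obtain ⟨X, hX⟩ : ∃ X : ℝ, X = 2 ^ i * w⁻¹ := ⟨_, rfl⟩
  have hX1 : 1 ≤ X := by rw [hX]; exact one_le_mul_of_one_le_of_one_le h2i hwi
  obtain ⟨x, hx⟩ : ∃ x : ℕ, x = ⌊X⌋₊ := ⟨_, rfl⟩
  have hx1 : 1 ≤ x := by rw [hx]; exact Nat.le_floor (by exact_mod_cast hX1)
  have hxX : (x : ℝ) ≤ X := by rw [hx]; exact Nat.floor_le (by linarith)
  have hx1' : (1 : ℝ) ≤ x := by exact_mod_cast hx1
  have hs1 : ∑ n ∈ Finset.range N, (if w * ((n : ℝ) + 1) ≤ 2 ^ i then α (n + 1) ^ 2 else 0) ≤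
      ∑ n ∈ Finset.range x, dv (n + 1) ^ 2 := by
    rw [← Finset.sum_filter]
    refine (Finset.sum_le_sum (fun n _ => pow_le_pow_left₀ (h1 _) (h2 (n + 1)) 2)).trans ?_
    refine Finset.sum_le_sum_of_subset_of_nonneg ?_ (fun n _ _ => by positivity)
    intro n hn
    rw [Finset.mem_filter] at hn
    rw [Finset.mem_range]
    have h3 : ((n + 1 : ℕ) : ℝ) ≤ X := by
      rw [hX, ← div_eq_mul_inv, le_div_iff₀ hw]
      push_cast
      linarith [hn.2]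
    have h4 : n + 1 ≤ x := by rw [hx]; exact Nat.le_floor h3
    omega
  have hs2 : ∑ n ∈ Finset.range x, dv (n + 1) ^ 2 = ∑ n ∈ Finset.Icc 1 x, dv n ^ 2 := by
    rw [show Finset.Icc 1 x = Finset.Ico 1 (x + 1) from by ext; rw [Finset.mem_Icc, Finset.mem_Ico]; omega,
      Finset.sum_Ico_eq_sum_range]
    simp [add_comm]
  have hs3 := div_sq x hx1
  have hlx : Real.log x ≤ (i : ℝ) + Real.log w⁻¹ := by
    have h5 : Real.log x ≤ Real.log X := Real.log_le_log (by linarith) hxX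
    have h6 : Real.log X = (i : ℝ) * Real.log 2 + Real.log w⁻¹ := by
      rw [hX, Real.log_mul (by positivity) (by positivity), Real.log_pow]
    have h7 : (i : ℝ) * Real.log 2 ≤ i := by
      have := Real.log_two_lt_d9
      have hi : (0 : ℝ) ≤ i := Nat.cast_nonneg i
      nlinarith
    linarith
  have hl0 : 0 ≤ Real.log x := Real.log_nonneg hx1'
  have hi : (0 : ℝ) ≤ i := Nat.cast_nonneg i
  have h8 : 1 + Real.log x ≤ ((i : ℝ) + 1) * (1 + Real.log w⁻¹) := by nlinarith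
  calc _ ≤ ∑ n ∈ Finset.range x, dv (n + 1) ^ 2 := hs1
    _ = ∑ n ∈ Finset.Icc 1 x, dv n ^ 2 := hs2
    _ ≤ x * (1 + Real.log x) ^ 3 := hs3
    _ ≤ X * (((i : ℝ) + 1) * (1 + Real.log w⁻¹)) ^ 3 :=
        mul_le_mul hxX (pow_le_pow_left₀ (by positivity) h8 3) (by positivity) (by linarith)
    _ = _ := by rw [hX]

private theorem F04_small : ∃ C : ℝ, 0 ≤ C ∧ ∀ α : ℕ → ℝ, (∀ n, 0 ≤ α n) → (∀ n, α n ≤ dv n) →
    ∀ w : ℝ, 0 < w → w ≤ 1 →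
    ∑' n : ℕ, α (n + 1) ^ 2 * ((1 + w * ((n : ℝ) + 1)) ^ 4)⁻¹ ≤ C * w⁻¹ * (1 + Real.log w⁻¹) ^ 3 := by
  refine ⟨16 * ∑' i : ℕ, ((i : ℝ) + 1) ^ 3 * (1 / 8) ^ i,
    mul_nonneg (by norm_num) (tsum_nonneg (fun i => by positivity)), ?_⟩
  intro α h1 h2 w hw hw1
  have hwi : 1 ≤ w⁻¹ := (one_le_inv₀ hw).mpr hw1
  have hlog : 0 ≤ Real.log w⁻¹ := Real.log_nonneg hwi
  refine Real.tsum_le_of_sum_range_le (fun n => by positivity) (fun N => ?_)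
  obtain ⟨M, hM⟩ : ∃ M : ℕ, w * N < 2 ^ M := pow_unbounded_of_one_lt _ (by norm_num)
  have ht : ∀ n ∈ Finset.range N, α (n + 1) ^ 2 * ((1 + w * ((n : ℝ) + 1)) ^ 4)⁻¹ ≤
      ∑ i ∈ Finset.range (M + 1), 16 * (1 / 16 : ℝ) ^ i *
        (if w * ((n : ℝ) + 1) ≤ 2 ^ i then α (n + 1) ^ 2 else 0) := by
    intro n hn
    refine F04_term _ _ (by positivity) (by positivity) M (le_trans ?_ hM.le)
    have h3 : ((n : ℝ) + 1) ≤ N := by exact_mod_cast Finset.mem_range.mp hn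
    exact mul_le_mul_of_nonneg_left h3 hw.le
  calc ∑ n ∈ Finset.range N, α (n + 1) ^ 2 * ((1 + w * ((n : ℝ) + 1)) ^ 4)⁻¹
      ≤ ∑ n ∈ Finset.range N, ∑ i ∈ Finset.range (M + 1), 16 * (1 / 16 : ℝ) ^ i *
        (if w * ((n : ℝ) + 1) ≤ 2 ^ i then α (n + 1) ^ 2 else 0) := Finset.sum_le_sum ht
    _ = ∑ i ∈ Finset.range (M + 1), 16 * (1 / 16 : ℝ) ^ i *
        ∑ n ∈ Finset.range N, (if w * ((n : ℝ) + 1) ≤ 2 ^ i then α (n + 1) ^ 2 else 0) := by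
        rw [Finset.sum_comm]
        exact Finset.sum_congr rfl (fun i _ => (Finset.mul_sum _ _ _).symm)
    _ ≤ ∑ i ∈ Finset.range (M + 1), 16 * (1 / 16 : ℝ) ^ i *
        (2 ^ i * w⁻¹ * (((i : ℝ) + 1) * (1 + Real.log w⁻¹)) ^ 3) :=
        Finset.sum_le_sum (fun i _ => mul_le_mul_of_nonneg_left (F04_block α h1 h2 w hw hw1 N i)
          (by positivity))
    _ = (16 * ∑ i ∈ Finset.range (M + 1), ((i : ℝ) + 1) ^ 3 * (1 / 8) ^ i) * w⁻¹ *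
        (1 + Real.log w⁻¹) ^ 3 := by
        rw [Finset.mul_sum, Finset.sum_mul, Finset.sum_mul]
        refine Finset.sum_congr rfl (fun i _ => ?_)
        have h4 : (1 / 16 : ℝ) ^ i * 2 ^ i = (1 / 8) ^ i := by
          rw [← mul_pow]; norm_num
        rw [← h4]
        ring
    _ ≤ _ := by
        have h5 := F04_geo.sum_le_tsum (Finset.range (M + 1)) (fun i _ => by positivity)
        have h6 : 0 ≤ w⁻¹ * (1 + Real.log w⁻¹) ^ 3 := by positivity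
        have h7 := mul_le_mul_of_nonneg_right (mul_le_mul_of_nonneg_left h5 (by norm_num : (0 : ℝ) ≤ 16)) h6
        simpa only [mul_assoc] using h7

private theorem F04_large : ∃ C : ℝ, 0 ≤ C ∧ ∀ α : ℕ → ℝ, (∀ n, 0 ≤ α n) → (∀ n : ℕ, α n ≤ n) →
    ∀ w : ℝ, 0 < w →
    ∑' n : ℕ, α (n + 1) ^ 2 * ((1 + w * ((n : ℝ) + 1)) ^ 4)⁻¹ ≤ C * (w ^ 4)⁻¹ := by
  refine ⟨∑' n : ℕ, (((n : ℝ) + 1) ^ 2)⁻¹, tsum_nonneg (fun i => by positivity), ?_⟩
  intro α h1 h2 w hw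
  have hb : ∀ n : ℕ, α (n + 1) ^ 2 * ((1 + w * ((n : ℝ) + 1)) ^ 4)⁻¹ ≤
      (((n : ℝ) + 1) ^ 2)⁻¹ * (w ^ 4)⁻¹ := by
    intro n
    have h3 : α (n + 1) ≤ (n : ℝ) + 1 := by have := h2 (n + 1); push_cast at this; exact this
    have h4 : α (n + 1) ^ 2 ≤ ((n : ℝ) + 1) ^ 2 := pow_le_pow_left₀ (h1 _) h3 2
    have h5 : (w * ((n : ℝ) + 1)) ^ 4 ≤ (1 + w * ((n : ℝ) + 1)) ^ 4 :=
      pow_le_pow_left₀ (by positivity) (by linarith) 4
    calc _ ≤ ((n : ℝ) + 1) ^ 2 * ((w * ((n : ℝ) + 1)) ^ 4)⁻¹ :=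
          mul_le_mul h4 (inv_anti₀ (by positivity) h5) (by positivity) (by positivity)
      _ = (((n : ℝ) + 1) ^ 2)⁻¹ * (w ^ 4)⁻¹ := by
          have : (n : ℝ) + 1 ≠ 0 := by positivity
          field_simp
  rw [← tsum_mul_right]
  exact Summable.tsum_le_tsum hb (Summable.of_nonneg_of_le (fun n => by positivity) hb
    (F04_sq.mul_right _)) (F04_sq.mul_right _)

private theorem F04_BKeq (a : ℕ → ℂ) (θ ε : ℝ) (k : ℕ) : BK a a θ θ ε k =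
    ((∫ u : ℝ, TT.phi (u - k) * Real.exp u * ‖FE a θ ε (Real.exp u)‖ ^ 2 : ℝ) : ℂ) := by
  unfold BK
  refine Eq.trans ?_ (integral_ofReal (𝕜 := ℂ) (μ := volume)
    (f := fun u : ℝ => TT.phi (u - k) * Real.exp u * ‖FE a θ ε (Real.exp u)‖ ^ 2))
  refine integral_congr_ae (Eventually.of_forall (fun u => ?_))
  show ((TT.phi (u - k) * Real.exp u : ℝ) : ℂ) * FE a θ ε (Real.exp u) * conj (FE a θ ε (Real.exp u)) =
    ((TT.phi (u - k) * Real.exp u * ‖FE a θ ε (Real.exp u)‖ ^ 2 : ℝ) : ℂ)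
  rw [mul_assoc, Complex.mul_conj']
  push_cast
  ring

private theorem F04_piece {q1 q2 : ℕ} [NeZero q1] [NeZero q2] (χ1 : DirichletCharacter ℂ q1)
    (χ2 : DirichletCharacter ℂ q2) {θ : ℝ} (hθ : 0 < θ) : ∃ C : ℝ, 0 ≤ C ∧ ∀ ε : ℝ, 0 < ε → ε ≤ 1 / 2 →
      ∀ k : ℕ, ∫ u : ℝ, TT.phi (u - k) * Real.exp u * ‖FE (cv χ1 χ2) θ ε (Real.exp u)‖ ^ 2 ≤
        C * (Real.exp k * ∑' n : ℕ, ‖cv χ1 χ2 (n + 1)‖ ^ 2 * ((1 + Real.exp k * ε * ((n : ℝ) + 1)) ^ 4)⁻¹) := by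
  obtain ⟨C1, hC1, B1⟩ := Xi_bound 12
  obtain ⟨C2, hC2, B2⟩ := schur hθ hθ
  refine ⟨C1 * C2, mul_nonneg hC1 hC2, ?_⟩
  intro ε h0 he k
  have ha : ∀ n : ℕ, ‖cv χ1 χ2 n‖ ≤ n := fun n => (F04_cv_le χ1 χ2 n).trans (F04_dv_le n)
  have hs : 0 < Real.sin ε := TT.sin_pos' h0 he
  have h1 : ∫ u : ℝ, TT.phi (u - k) * Real.exp u * ‖FE (cv χ1 χ2) θ ε (Real.exp u)‖ ^ 2 ≤
      ‖BK (cv χ1 χ2) (cv χ1 χ2) θ θ ε k‖ := by
    rw [F04_BKeq, Complex.norm_real]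
    exact Real.le_norm_self _
  obtain ⟨hsum, hle⟩ := BK_le hθ hθ h0 he ha ha k
  have hmaj := F04_maj hθ h0 he (α := fun n => ‖cv χ1 χ2 n‖) (fun n => norm_nonneg _) ha k
  have h2 : ∑' x : ℕ × ℕ, ‖cv χ1 χ2 (x.1 + 1)‖ * ‖cv χ1 χ2 (x.2 + 1)‖ *
      ‖Xi (((Real.exp k : ℝ) : ℂ) * zz θ θ ε (x.1 + 1) (x.2 + 1))‖ ≤
      C1 * ∑' x : ℕ × ℕ, ‖cv χ1 χ2 (x.1 + 1)‖ * ‖cv χ1 χ2 (x.2 + 1)‖ *
        ((1 + ‖((Real.exp k : ℝ) : ℂ) * zz θ θ ε (x.1 + 1) (x.2 + 1)‖) ^ 12)⁻¹ := by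
    rw [← tsum_mul_left]
    refine Summable.tsum_le_tsum (fun x => ?_) hsum (hmaj.mul_left C1)
    have hre : 0 ≤ (((Real.exp k : ℝ) : ℂ) * zz θ θ ε (x.1 + 1) (x.2 + 1)).re := by
      rw [re_ofReal_mul, zz_re]
      positivity
    have h3 := B1 _ hre
    have h4 : 0 ≤ ‖cv χ1 χ2 (x.1 + 1)‖ * ‖cv χ1 χ2 (x.2 + 1)‖ := by positivity
    have h5 := mul_le_mul_of_nonneg_left h3 h4
    refine h5.trans (le_of_eq ?_)
    ring
  have h6 := B2 (fun n => ‖cv χ1 χ2 n‖) (fun n => ‖cv χ1 χ2 n‖) (fun n => norm_nonneg _)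
    (fun n => norm_nonneg _) ha ha ε h0 he k
  rw [Real.mul_self_sqrt (tsum_nonneg (fun n => by positivity))] at h6
  have h7 : (0 : ℝ) < Real.exp k := Real.exp_pos _
  calc _ ≤ ‖BK (cv χ1 χ2) (cv χ1 χ2) θ θ ε k‖ := h1
    _ ≤ _ := hle
    _ ≤ Real.exp k * (C1 * (C2 * ∑' n : ℕ, ‖cv χ1 χ2 (n + 1)‖ ^ 2 *
          ((1 + Real.exp k * ε * ((n : ℝ) + 1)) ^ 4)⁻¹)) :=
        mul_le_mul_of_nonneg_left (h2.trans (mul_le_mul_of_nonneg_left h6 hC1)) h7.le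
    _ = _ := by ring

/-- nonnegative sequence with two-regime bound -/
private theorem F04_total (b : ℕ → ℝ) (hb : ∀ k, 0 ≤ b k) (K : ℕ) (A1 A2 : ℝ) (hA2 : 0 ≤ A2)
    (h1 : ∀ k, k ≤ K → b k ≤ A1) (h2 : ∀ j : ℕ, b (j + (K + 1)) ≤ A2 * (Real.exp (-3)) ^ j) :
    Summable b ∧ ∑' k, b k ≤ ((K : ℝ) + 1) * A1 + 2 * A2 := by
  have hr : Real.exp (-3) < 1 / 2 := by
    have h3 : Real.exp (-3) = (Real.exp 3)⁻¹ := Real.exp_neg 3
    have h4 : (3 : ℝ) + 1 ≤ Real.exp 3 := Real.add_one_le_exp 3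
    rw [h3, inv_lt_comm₀ (Real.exp_pos 3) (by norm_num)]
    linarith
  have hr0 := Real.exp_pos (-3)
  have hg : Summable (fun j : ℕ => A2 * (Real.exp (-3)) ^ j) :=
    (summable_geometric_of_lt_one hr0.le (by linarith)).mul_left A2
  have hs1 : Summable (fun j : ℕ => b (j + (K + 1))) :=
    Summable.of_nonneg_of_le (fun j => hb _) h2 hg
  have hs : Summable b := (summable_nat_add_iff (K + 1)).mp hs1
  refine ⟨hs, ?_⟩
  rw [← hs.sum_add_tsum_nat_add (K + 1)]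
  have h5 : ∑ i ∈ Finset.range (K + 1), b i ≤ ((K : ℝ) + 1) * A1 := by
    have h6 := Finset.sum_le_card_nsmul (Finset.range (K + 1)) b A1
      (fun k hk => h1 k (by have := Finset.mem_range.mp hk; omega))
    rw [Finset.card_range, nsmul_eq_mul] at h6
    push_cast at h6
    exact h6
  have h7 : ∑' j : ℕ, b (j + (K + 1)) ≤ 2 * A2 := by
    refine (Summable.tsum_le_tsum h2 hs1 hg).trans ?_
    rw [tsum_mul_left, tsum_geometric_of_lt_one hr0.le (by linarith), mul_comm]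
    refine mul_le_mul_of_nonneg_right ?_ hA2
    rw [inv_le_comm₀ (by linarith) (by norm_num)]
    linarith
  linarith

/-- Row F04. Mean square of the exponential series. -/
theorem FE_sq {q1 q2 : ℕ} [NeZero q1] [NeZero q2] (χ1 : DirichletCharacter ℂ q1)
    (χ2 : DirichletCharacter ℂ q2) {θ : ℝ} (hθ : 0 < θ) : ∃ C : ℝ, 0 ≤ C ∧ ∀ ε : ℝ, 0 < ε → ε ≤ 1 / 2 →
      Integrable (fun u : ℝ => TT.tau u * Real.exp u * ‖FE (cv χ1 χ2) θ ε (Real.exp u)‖ ^ 2) ∧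
      ∫ u : ℝ, TT.tau u * Real.exp u * ‖FE (cv χ1 χ2) θ ε (Real.exp u)‖ ^ 2 ≤
        C * ε⁻¹ * (1 + Real.log (1 / ε)) ^ 5 := by
  obtain ⟨C0, hC0, B0⟩ := F04_piece χ1 χ2 hθ
  obtain ⟨CA, hCA, BA⟩ := F04_small
  obtain ⟨CB, hCB, BB⟩ := F04_large
  refine ⟨C0 * CA + 2 * (C0 * CB), by positivity, ?_⟩
  intro ε h0 he
  have ha : ∀ n : ℕ, ‖cv χ1 χ2 n‖ ≤ n := fun n => (F04_cv_le χ1 χ2 n).trans (F04_dv_le n)
  have hcont := F04_cont hθ h0 he ha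
  obtain ⟨F, hF⟩ : ∃ F : ℕ → ℝ → ℝ, F = fun (k : ℕ) (u : ℝ) => TT.phi (u - (k : ℝ)) * Real.exp u *
    ‖FE (cv χ1 χ2) θ ε (Real.exp u)‖ ^ 2 := ⟨_, rfl⟩
  have hF0 : ∀ k u, 0 ≤ F k u := by
    intro k u
    rw [hF]
    have := TT.phi_nonneg (u - k)
    positivity
  have hFc : ∀ k, Continuous (F k) := by
    intro k
    rw [hF]
    have := TT.phi_cont
    fun_prop
  have hFi : ∀ k, Integrable (F k) := by
    intro k
    refine (hFc k).integrable_of_hasCompactSupport ?_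
    refine HasCompactSupport.intro (isCompact_Icc (a := (k : ℝ) - 1) (b := k + 2)) (fun u hu => ?_)
    rw [Set.mem_Icc, not_and_or, not_le, not_le] at hu
    rw [hF]
    rcases hu with h | h
    · show TT.phi (u - k) * _ * _ = 0
      rw [TT.phi_zero_left (by linarith), zero_mul, zero_mul]
    · show TT.phi (u - k) * _ * _ = 0
      rw [TT.phi_zero_right (by linarith), zero_mul, zero_mul]
  obtain ⟨b, hbdef⟩ : ∃ b : ℕ → ℝ, b = fun k => ∫ u, F k u := ⟨_, rfl⟩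
  have hb0 : ∀ k, 0 ≤ b k := by
    intro k
    rw [hbdef]
    exact integral_nonneg (hF0 k)
  have hbk : ∀ k, b k ≤ C0 * (Real.exp k * ∑' n : ℕ, ‖cv χ1 χ2 (n + 1)‖ ^ 2 *
      ((1 + Real.exp k * ε * ((n : ℝ) + 1)) ^ 4)⁻¹) := by
    intro k
    rw [hbdef, hF]
    exact B0 ε h0 he k
  have hT1 : 1 ≤ ε⁻¹ := (one_le_inv₀ h0).mpr (by linarith)
  have hlT : 0 ≤ Real.log ε⁻¹ := Real.log_nonneg hT1
  obtain ⟨K, hK⟩ : ∃ K : ℕ, K = ⌊Real.log ε⁻¹⌋₊ := ⟨_, rfl⟩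
  have hK1 : (K : ℝ) ≤ Real.log ε⁻¹ := by rw [hK]; exact Nat.floor_le hlT
  have hK2 : Real.log ε⁻¹ < (K : ℝ) + 1 := by rw [hK]; exact Nat.lt_floor_add_one _
  have hTexp : Real.exp (Real.log ε⁻¹) = ε⁻¹ := Real.exp_log (by positivity)
  have c1 : ∀ k, k ≤ K → b k ≤ C0 * CA * (ε⁻¹ * (1 + Real.log ε⁻¹) ^ 3) := by
    intro k hk
    have hkT : Real.exp k ≤ ε⁻¹ := by
      rw [← hTexp]
      refine Real.exp_le_exp.mpr (le_trans ?_ hK1)
      exact_mod_cast hk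
    have hk1 : (1 : ℝ) ≤ Real.exp k := Real.one_le_exp (Nat.cast_nonneg _)
    have hw1 : Real.exp k * ε ≤ 1 := by
      have := mul_le_mul_of_nonneg_right hkT h0.le
      rwa [inv_mul_cancel₀ h0.ne'] at this
    have h3 := BA (fun n => ‖cv χ1 χ2 n‖) (fun n => norm_nonneg _) (F04_cv_le χ1 χ2) (Real.exp k * ε)
      (by positivity) hw1
    have h4 : Real.log (Real.exp k * ε)⁻¹ ≤ Real.log ε⁻¹ := by
      apply Real.log_le_log (by positivity)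
      exact inv_anti₀ h0 (le_mul_of_one_le_left h0.le hk1)
    have h5 : 0 ≤ Real.log (Real.exp k * ε)⁻¹ := Real.log_nonneg ((one_le_inv₀ (by positivity)).mpr hw1)
    have h6 : (1 + Real.log (Real.exp k * ε)⁻¹) ^ 3 ≤ (1 + Real.log ε⁻¹) ^ 3 :=
      pow_le_pow_left₀ (by positivity) (by linarith) 3
    have hek := Real.exp_pos (k : ℝ)
    calc b k ≤ C0 * (Real.exp k * (CA * (Real.exp k * ε)⁻¹ * (1 + Real.log (Real.exp k * ε)⁻¹) ^ 3)) :=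
          (hbk k).trans (mul_le_mul_of_nonneg_left (mul_le_mul_of_nonneg_left h3 hek.le) hC0)
      _ = C0 * CA * (ε⁻¹ * (1 + Real.log (Real.exp k * ε)⁻¹) ^ 3) := by
          rw [mul_inv]
          field_simp
      _ ≤ _ := by
          refine mul_le_mul_of_nonneg_left (mul_le_mul_of_nonneg_left h6 (by positivity)) (by positivity)
  have c2 : ∀ j : ℕ, b (j + (K + 1)) ≤ (C0 * CB * ε⁻¹) * (Real.exp (-3)) ^ j := by
    intro j
    obtain ⟨k, hk⟩ : ∃ k : ℕ, k = j + (K + 1) := ⟨_, rfl⟩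
    rw [← hk]
    have hek := Real.exp_pos (k : ℝ)
    have h3 := BB (fun n => ‖cv χ1 χ2 n‖) (fun n => norm_nonneg _) ha (Real.exp k * ε) (by positivity)
    have h4 : ε⁻¹ ^ 3 * (Real.exp k ^ 3)⁻¹ ≤ (Real.exp (-3)) ^ j := by
      have h5 : ε⁻¹ ≤ Real.exp ((K : ℝ) + 1) := by
        rw [← hTexp]
        exact Real.exp_le_exp.mpr hK2.le
      calc ε⁻¹ ^ 3 * (Real.exp k ^ 3)⁻¹ ≤ Real.exp ((K : ℝ) + 1) ^ 3 * (Real.exp k ^ 3)⁻¹ :=
            mul_le_mul_of_nonneg_right (pow_le_pow_left₀ (by positivity) h5 3) (by positivity)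
        _ = (Real.exp (-3)) ^ j := by
            rw [← Real.exp_nat_mul, ← Real.exp_nat_mul, ← Real.exp_nat_mul, ← Real.exp_neg, ← Real.exp_add,
              hk]
            congr 1
            push_cast
            ring
    calc b k ≤ C0 * (Real.exp k * (CB * ((Real.exp k * ε) ^ 4)⁻¹)) :=
          (hbk k).trans (mul_le_mul_of_nonneg_left (mul_le_mul_of_nonneg_left h3 hek.le) hC0)
      _ = (C0 * CB * ε⁻¹) * (ε⁻¹ ^ 3 * (Real.exp k ^ 3)⁻¹) := by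
          have := hek.ne'
          field_simp
      _ ≤ _ := mul_le_mul_of_nonneg_left h4 (by positivity)
  obtain ⟨hbs, hbt⟩ := F04_total b hb0 K _ _ (by positivity) c1 c2
  have hGF : ∀ u : ℝ, HasSum (fun k => F k u) (TT.tau u * Real.exp u *
      ‖FE (cv χ1 χ2) θ ε (Real.exp u)‖ ^ 2) := by
    intro u
    rw [hF]
    exact ((TT.phi_hasSum u).mul_right _).mul_right _
  have hGc : Continuous (fun u : ℝ => TT.tau u * Real.exp u * ‖FE (cv χ1 χ2) θ ε (Real.exp u)‖ ^ 2) := by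
    have := TT.tau_cont
    fun_prop
  have hint : Integrable (fun u : ℝ => TT.tau u * Real.exp u * ‖FE (cv χ1 χ2) θ ε (Real.exp u)‖ ^ 2) := by
    refine ⟨hGc.aestronglyMeasurable, ?_⟩
    rw [hasFiniteIntegral_iff_ofReal (Eventually.of_forall (fun u => by
      have := TT.tau_nonneg u
      positivity))]
    have h3 : ∀ u : ℝ, ENNReal.ofReal (TT.tau u * Real.exp u * ‖FE (cv χ1 χ2) θ ε (Real.exp u)‖ ^ 2) =
        ∑' k, ENNReal.ofReal (F k u) := by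
      intro u
      rw [← (hGF u).tsum_eq, ENNReal.ofReal_tsum_of_nonneg (fun k => hF0 k u) (hGF u).summable]
    rw [lintegral_congr h3, lintegral_tsum (fun k => (hFc k).measurable.ennreal_ofReal.aemeasurable)]
    have h4 : ∀ k, ∫⁻ u, ENNReal.ofReal (F k u) = ENNReal.ofReal (b k) := by
      intro k
      rw [hbdef, ofReal_integral_eq_lintegral_ofReal (hFi k) (Eventually.of_forall (hF0 k))]
    rw [tsum_congr h4, ← ENNReal.ofReal_tsum_of_nonneg hb0 hbs]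
    exact ENNReal.ofReal_lt_top
  refine ⟨hint, ?_⟩
  have hsn : Summable (fun k => ∫ u, ‖F k u‖) := by
    refine hbs.congr (fun k => ?_)
    rw [hbdef]
    refine integral_congr_ae (Eventually.of_forall (fun u => ?_))
    exact (Real.norm_of_nonneg (hF0 k u)).symm
  have hI := (hasSum_integral_of_summable_integral_norm hFi hsn).tsum_eq
  have hI2 : ∫ u : ℝ, TT.tau u * Real.exp u * ‖FE (cv χ1 χ2) θ ε (Real.exp u)‖ ^ 2 = ∑' k, b k := by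
    rw [hbdef, hI]
    refine integral_congr_ae (Eventually.of_forall (fun u => ?_))
    exact (hGF u).tsum_eq.symm
  rw [hI2, one_div]
  refine hbt.trans ?_
  obtain ⟨L, hL⟩ : ∃ L : ℝ, L = 1 + Real.log ε⁻¹ := ⟨_, rfl⟩
  have hL1 : 1 ≤ L := by rw [hL]; linarith
  have hKL : (K : ℝ) + 1 ≤ L := by rw [hL]; linarith
  rw [← hL]
  have h9 : (L : ℝ) ^ 4 ≤ L ^ 5 := pow_le_pow_right₀ hL1 (by norm_num)
  have h10 : (1 : ℝ) ≤ L ^ 5 := one_le_pow₀ hL1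
  have e1 : ((K : ℝ) + 1) * (C0 * CA * (ε⁻¹ * L ^ 3)) ≤ C0 * CA * ε⁻¹ * L ^ 5 := by
    calc ((K : ℝ) + 1) * (C0 * CA * (ε⁻¹ * L ^ 3)) ≤ L * (C0 * CA * (ε⁻¹ * L ^ 3)) :=
          mul_le_mul_of_nonneg_right hKL (by positivity)
      _ = C0 * CA * ε⁻¹ * L ^ 4 := by ring
      _ ≤ _ := mul_le_mul_of_nonneg_left h9 (by positivity)
  have e2 : 2 * (C0 * CB * ε⁻¹) ≤ 2 * (C0 * CB * ε⁻¹) * L ^ 5 :=
    le_mul_of_one_le_right (by positivity) h10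
  calc _ ≤ C0 * CA * ε⁻¹ * L ^ 5 + 2 * (C0 * CB * ε⁻¹) * L ^ 5 := add_le_add e1 e2
    _ = _ := by ring

end FF
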