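import Pool.Agent.Lib.MP_0f5a55_nt.TT.T00
import Pool.Agent.Lib.MP_0f5a55_nt.OM.K011
import Pool.Agent.Lib.MP_0f5a55_nt.FF.F01
import Pool.Agent.Lib.MP_0f5a55_nt.FF.F02
import Pool.Agent.Lib.MP_0f5a55_nt.FF.F03
import Pool.Agent.Lib.MP_0f5a55_nt.FF.F04

open Complex MeasureTheory Set Filter Topology
open scoped Real ComplexConjugate

namespace FF

open II

/-- normalised transform -/
noncomputable def F05_T (R : ℝ → ℂ) (u : ℝ) : ℂ :=
  (2 * (π : ℂ))⁻¹ * ∫ t : ℝ, R t * exp (-(t * u * I))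

/-- integrable and square integrable, continuous -/
def F05_G (R : ℝ → ℂ) : Prop :=
  Continuous R ∧ Integrable R ∧ Integrable (fun t => ‖R t‖ ^ 2)

theorem F05_T_eq (R : ℝ → ℂ) (u : ℝ) : F05_T R u = (2 * (π : ℂ))⁻¹ * OO.T_ft R (u / (2 * π)) := by
  unfold F05_T OO.T_ft
  congr 1
  refine integral_congr_ae (ae_of_all _ fun t => ?_)
  simp only
  rw [mul_comm]
  congr 2
  have : (π : ℝ) ≠ 0 := Real.pi_ne_zero
  push_cast
  field_simp

theorem F05_norm_exp (t u : ℝ) : ‖exp (-((t : ℂ) * u * I))‖ = 1 := by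
  have : -((t : ℂ) * u * I) = ((-(t * u) : ℝ) : ℂ) * I := by push_cast; ring
  rw [this, Complex.norm_exp_ofReal_mul_I]

theorem F05_int {R : ℝ → ℂ} (h : F05_G R) (u : ℝ) :
    Integrable (fun t : ℝ => R t * exp (-(t * u * I))) := by
  refine (h.2.1.norm).mono' (Continuous.aestronglyMeasurable ?_) (ae_of_all _ fun t => ?_)
  · have := h.1
    fun_prop
  · rw [norm_mul, F05_norm_exp, mul_one]

theorem F05_T_add {R S : ℝ → ℂ} (hR : F05_G R) (hS : F05_G S) (c : ℂ) (u : ℝ) :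
    F05_T (fun t => R t + c * S t) u = F05_T R u + c * F05_T S u := by
  unfold F05_T
  have e : (fun t : ℝ => (R t + c * S t) * exp (-(t * u * I))) =
      fun t : ℝ => R t * exp (-(t * u * I)) + c * (S t * exp (-(t * u * I))) := by
    funext t; ring
  rw [e, integral_add (F05_int hR u) ((F05_int hS u).const_mul c), integral_const_mul]
  ring

theorem F05_G_add {R S : ℝ → ℂ} (hR : F05_G R) (hS : F05_G S) (c : ℂ) :
    F05_G (fun t => R t + c * S t) := by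
  refine ⟨?_, hR.2.1.add (hS.2.1.const_mul c), ?_⟩
  · have := hR.1
    have := hS.1
    fun_prop
  · refine ((hR.2.2.const_mul 2).add (hS.2.2.const_mul (2 * ‖c‖ ^ 2))).mono'
      (Continuous.aestronglyMeasurable ?_) (ae_of_all _ fun t => ?_)
    · have := hR.1
      have := hS.1
      fun_prop
    · simp only [Pi.add_apply]
      rw [Real.norm_of_nonneg (by positivity)]
      have h1 := norm_add_le (R t) (c * S t)
      rw [norm_mul] at h1
      have h2 := pow_le_pow_left₀ (norm_nonneg _) h1 2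
      nlinarith [sq_nonneg (‖R t‖ - ‖c‖ * ‖S t‖)]

theorem F05_G_conj {R : ℝ → ℂ} (hR : F05_G R) : F05_G (fun t => conj (R t)) := by
  refine ⟨Complex.continuous_conj.comp hR.1, ?_, ?_⟩
  · refine hR.2.1.norm.mono' (Complex.continuous_conj.comp hR.1).aestronglyMeasurable
      (ae_of_all _ fun t => ?_)
    simp
  · simpa using hR.2.2

theorem F05_T_conj (R : ℝ → ℂ) (u : ℝ) :
    F05_T (fun t => conj (R t)) (-u) = conj (F05_T R u) := by
  unfold F05_T
  rw [map_mul, ← integral_conj]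
  congr 1
  · rw [show (2 * (π : ℂ)) = ((2 * π : ℝ) : ℂ) by push_cast; ring, map_inv₀, conj_ofReal]
  · refine integral_congr_ae (ae_of_all _ fun t => ?_)
    simp only
    rw [map_mul, ← exp_conj]
    congr 2
    simp

theorem F05_sq {R : ℝ → ℂ} (h : F05_G R) : Continuous (F05_T R) ∧
    Integrable (fun u => ‖F05_T R u‖ ^ 2) ∧
    2 * π * ∫ u, ‖F05_T R u‖ ^ 2 = ∫ t, ‖R t‖ ^ 2 := by
  obtain ⟨hc, hi, he⟩ := OO.X_planch h.2.1 h.2.2
  have hπ : (0 : ℝ) < 2 * π := by positivity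
  have e : F05_T R = fun u => (2 * (π : ℂ))⁻¹ * OO.T_ft R (u / (2 * π)) := funext (F05_T_eq R)
  have e2 : (fun u => ‖F05_T R u‖ ^ 2) =
      fun u => ((2 * π) ^ 2)⁻¹ * (fun x => ‖OO.T_ft R x‖ ^ 2) (u / (2 * π)) := by
    funext u
    rw [F05_T_eq, norm_mul, mul_pow, norm_inv, inv_pow]
    congr 3
    rw [show (2 * (π : ℂ)) = ((2 * π : ℝ) : ℂ) by push_cast; ring, Complex.norm_real,
      Real.norm_of_nonneg hπ.le]
  refine ⟨?_, ?_, ?_⟩
  · rw [e]
    exact continuous_const.mul (hc.comp (continuous_id.div_const _))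
  · rw [e2]
    exact (hi.comp_div hπ.ne').const_mul _
  · have h4 := MeasureTheory.Measure.integral_comp_div (fun x => ‖OO.T_ft R x‖ ^ 2) (2 * π)
    rw [e2, integral_const_mul, h4, he, abs_of_pos hπ]
    simp only [smul_eq_mul]
    field_simp

theorem F05_pol (a b : ℂ) : a * conj b = (1 / 4 : ℂ) * (((‖a + 1 * b‖ ^ 2 : ℝ) : ℂ) - ((‖a + (-1) * b‖ ^ 2 : ℝ) : ℂ)
    + I * (((‖a + I * b‖ ^ 2 : ℝ) : ℂ) - ((‖a + (-I) * b‖ ^ 2 : ℝ) : ℂ))) := by
  have h : ∀ z : ℂ, ((‖z‖ ^ 2 : ℝ) : ℂ) = z * conj z := by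
    intro z
    rw [Complex.mul_conj, Complex.normSq_eq_norm_sq]
  rw [h, h, h, h]
  simp only [map_add, map_mul, map_neg, map_one, conj_I]
  linear_combination (1 / 2 : ℂ) * (a * conj b) * I_sq - (1 / 2 : ℂ) * (conj a * b) * I_sq

theorem F05_inner {R S : ℝ → ℂ} (hR : F05_G R) (hS : F05_G S) :
    ∫ t, R t * conj (S t) = 2 * π * ∫ u, F05_T R u * conj (F05_T S u) := by
  have key : ∀ c : ℂ, Integrable (fun u => ‖F05_T R u + c * F05_T S u‖ ^ 2) ∧
      Integrable (fun t => ‖R t + c * S t‖ ^ 2) ∧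
      2 * π * ∫ u, ‖F05_T R u + c * F05_T S u‖ ^ 2 = ∫ t, ‖R t + c * S t‖ ^ 2 := by
    intro c
    have hG := F05_G_add hR hS c
    obtain ⟨_, h2, h3⟩ := F05_sq hG
    have e : (fun u => ‖F05_T (fun t => R t + c * S t) u‖ ^ 2) =
        fun u => ‖F05_T R u + c * F05_T S u‖ ^ 2 := by
      funext u; rw [F05_T_add hR hS]
    rw [e] at h2 h3
    exact ⟨h2, hG.2.2, h3⟩
  have ex : ∀ (A B : ℝ → ℂ), (∀ c : ℂ, Integrable (fun u => ‖A u + c * B u‖ ^ 2)) →
      ∫ u, A u * conj (B u) = (1 / 4 : ℂ) * (((∫ u, ‖A u + 1 * B u‖ ^ 2 : ℝ) : ℂ) -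
        ((∫ u, ‖A u + (-1) * B u‖ ^ 2 : ℝ) : ℂ) + I * (((∫ u, ‖A u + I * B u‖ ^ 2 : ℝ) : ℂ) -
        ((∫ u, ‖A u + (-I) * B u‖ ^ 2 : ℝ) : ℂ))) := by
    intro A B hAB
    have e : (fun u => A u * conj (B u)) = fun u => (1 / 4 : ℂ) * (((‖A u + 1 * B u‖ ^ 2 : ℝ) : ℂ) -
        ((‖A u + (-1) * B u‖ ^ 2 : ℝ) : ℂ) + I * (((‖A u + I * B u‖ ^ 2 : ℝ) : ℂ) -
        ((‖A u + (-I) * B u‖ ^ 2 : ℝ) : ℂ))) := by
      funext u; exact F05_pol _ _
    have ii : ∀ c : ℂ, Integrable (fun u => ((‖A u + c * B u‖ ^ 2 : ℝ) : ℂ)) :=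
      fun c => (hAB c).ofReal
    have i1 := ii 1
    have i2 := ii (-1)
    have i3 := ii I
    have i4 := ii (-I)
    rw [e, integral_const_mul]
    congr 1
    have j1 : Integrable (fun u => ((‖A u + 1 * B u‖ ^ 2 : ℝ) : ℂ) -
        ((‖A u + (-1) * B u‖ ^ 2 : ℝ) : ℂ)) := i1.sub i2
    have j2 : Integrable (fun u => ((‖A u + I * B u‖ ^ 2 : ℝ) : ℂ) -
        ((‖A u + (-I) * B u‖ ^ 2 : ℝ) : ℂ)) := i3.sub i4
    rw [integral_add j1 (j2.const_mul I), integral_sub i1 i2, integral_const_mul,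
      integral_sub i3 i4]
    simp only [integral_complex_ofReal]
  rw [ex R S (fun c => (key c).2.1), ex _ _ (fun c => (key c).1), ← (key 1).2.2, ← (key (-1)).2.2,
    ← (key I).2.2, ← (key (-I)).2.2]
  push_cast
  ring

theorem F05_tau_exp : Integrable (fun u : ℝ => TT.tau u * Real.exp (-u)) := by
  have h1 : IntegrableOn (fun u : ℝ => Real.exp (-u)) (Ioi (-1)) := integrableOn_exp_neg_Ioi (-1)
  have h2 : Integrable ((Ioi (-1 : ℝ)).indicator (fun u : ℝ => Real.exp (-u))) :=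
    (integrable_indicator_iff measurableSet_Ioi).mpr h1
  refine h2.mono' (Continuous.aestronglyMeasurable ?_) (ae_of_all _ fun u => ?_)
  · have := TT.tau_cont
    fun_prop
  · rw [Real.norm_of_nonneg (mul_nonneg (TT.tau_nonneg u) (Real.exp_pos _).le)]
    by_cases hu : u ∈ Ioi (-1 : ℝ)
    · rw [indicator_of_mem hu]
      exact mul_le_of_le_one_left (Real.exp_pos _).le (TT.tau_le_one u)
    · rw [indicator_of_notMem hu, TT.tau_zero (by simpa using hu), zero_mul]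

theorem F05_amgm {a b δ : ℝ} (hδ : 0 < δ) : a * b ≤ δ / 2 * a ^ 2 + 1 / (2 * δ) * b ^ 2 := by
  have h : 0 ≤ (δ * a - b) ^ 2 / (2 * δ) := by positivity
  have e : (δ * a - b) ^ 2 / (2 * δ) = δ / 2 * a ^ 2 + 1 / (2 * δ) * b ^ 2 - a * b := by
    field_simp
    ring
  linarith

/-- the abstract folding inequality -/
theorem F05_fold {R1 R2 P1 P2 : ℝ → ℂ} (h1 : F05_G R1) (h2 : F05_G R2) {η1 η2 c1 c2 : ℂ}
    (n1 : ‖η1‖ = 1) (n2 : ‖η2‖ = 1) {c A B E δ : ℝ} (hδ : 0 < δ) (hc : 0 ≤ c) (hc1 : ‖c1‖ ≤ c)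
    (hc2 : ‖c2‖ ≤ c)
    (e1 : ∀ u, F05_T R1 u = P1 u - c1 * ((Real.exp (-(u / 2)) : ℝ) : ℂ))
    (e2 : ∀ u, F05_T R2 u = P2 u - c2 * ((Real.exp (-(u / 2)) : ℝ) : ℂ))
    (i1 : Integrable (fun u => TT.tau u * ‖P1 u‖ ^ 2))
    (i2 : Integrable (fun u => TT.tau u * ‖P2 u‖ ^ 2))
    (a1 : ∫ u, TT.tau u * ‖P1 u‖ ^ 2 ≤ A) (a2 : ∫ u, TT.tau u * ‖P2 u‖ ^ 2 ≤ A)
    (b1 : ∫ t, ‖R1 t - η1 * conj (R1 t)‖ ^ 2 ≤ B) (b2 : ∫ t, ‖R2 t - η2 * conj (R2 t)‖ ^ 2 ≤ B)
    (hE : ∫ u : ℝ, TT.tau u * Real.exp (-u) = E) :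
    ‖∫ t, R1 t * conj (R2 t)‖ ≤ 4 * π * ‖∫ u, ((TT.tau u : ℝ) : ℂ) * (P1 u * conj (P2 u))‖ +
      4 * π * (c * δ * A + c / δ * E + c ^ 2 * E) +
      (2 * π * (2 * δ * A + 2 * δ * c ^ 2 * E) + (1 / δ + 1) * B) := by
  obtain ⟨cF1, sF1, -⟩ := F05_sq h1
  obtain ⟨cF2, sF2, -⟩ := F05_sq h2
  have g1 : F05_G (fun t => R1 t + (-η1) * conj (R1 t)) := F05_G_add h1 (F05_G_conj h1) (-η1)
  have g2 : F05_G (fun t => R2 t + (-η2) * conj (R2 t)) := F05_G_add h2 (F05_G_conj h2) (-η2)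
  obtain ⟨cS1, sS1, q1⟩ := F05_sq g1
  obtain ⟨cS2, sS2, q2⟩ := F05_sq g2
  have tc := TT.tau_cont
  set F1 := F05_T R1 with hF1
  set F2 := F05_T R2 with hF2
  set H1 : ℝ → ℂ := fun u => F05_T (fun t => R1 t + (-η1) * conj (R1 t)) (-u) with hH1
  set H2 : ℝ → ℂ := fun u => F05_T (fun t => R2 t + (-η2) * conj (R2 t)) (-u) with hH2
  have cH1 : Continuous H1 := cS1.comp continuous_neg
  have cH2 : Continuous H2 := cS2.comp continuous_neg
  have sH1 : Integrable (fun u => ‖H1 u‖ ^ 2) := sS1.comp_neg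
  have sH2 : Integrable (fun u => ‖H2 u‖ ^ 2) := sS2.comp_neg
  have qH1 : ∫ u, ‖H1 u‖ ^ 2 ≤ B / (2 * π) := by
    rw [le_div_iff₀ (by positivity), mul_comm]
    have e : ∫ u, ‖H1 u‖ ^ 2 = ∫ u, ‖F05_T (fun t => R1 t + (-η1) * conj (R1 t)) u‖ ^ 2 :=
      integral_neg_eq_self (fun u => ‖F05_T (fun t => R1 t + (-η1) * conj (R1 t)) u‖ ^ 2) volume
    rw [e, q1]
    refine le_trans (le_of_eq ?_) b1
    refine integral_congr_ae (ae_of_all _ fun t => ?_)
    simp only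
    congr 2
    ring
  have qH2 : ∫ u, ‖H2 u‖ ^ 2 ≤ B / (2 * π) := by
    rw [le_div_iff₀ (by positivity), mul_comm]
    have e : ∫ u, ‖H2 u‖ ^ 2 = ∫ u, ‖F05_T (fun t => R2 t + (-η2) * conj (R2 t)) u‖ ^ 2 :=
      integral_neg_eq_self (fun u => ‖F05_T (fun t => R2 t + (-η2) * conj (R2 t)) u‖ ^ 2) volume
    rw [e, q2]
    refine le_trans (le_of_eq ?_) b2
    refine integral_congr_ae (ae_of_all _ fun t => ?_)
    simp only
    congr 2
    ring
  have r1 : ∀ u, F1 (-u) = η1 * conj (F1 u) + H1 u := by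
    intro u
    have e := F05_T_add h1 (F05_G_conj h1) (-η1) (-u)
    rw [F05_T_conj] at e
    rw [hH1]
    simp only
    rw [e]
    ring
  have r2 : ∀ u, F2 (-u) = η2 * conj (F2 u) + H2 u := by
    intro u
    have e := F05_T_add h2 (F05_G_conj h2) (-η2) (-u)
    rw [F05_T_conj] at e
    rw [hH2]
    simp only
    rw [e]
    ring
  have cP1 : Continuous P1 := by
    have e : P1 = fun u => F1 u + c1 * ((Real.exp (-(u / 2)) : ℝ) : ℂ) := by
      funext u; rw [e1]; ring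
    rw [e]; fun_prop
  have cP2 : Continuous P2 := by
    have e : P2 = fun u => F2 u + c2 * ((Real.exp (-(u / 2)) : ℝ) : ℂ) := by
      funext u; rw [e2]; ring
    rw [e]; fun_prop
  have iE := F05_tau_exp
  -- integrability of products
  have mk : ∀ X Y : ℝ → ℂ, Continuous X → Continuous Y → Integrable (fun u => ‖X u‖ ^ 2) →
      Integrable (fun u => ‖Y u‖ ^ 2) → Integrable (fun u => X u * conj (Y u)) := by
    intro X Y cX cY iX iY
    refine ((iX.const_mul (1 / 2)).add (iY.const_mul (1 / 2))).mono' (Continuous.aestronglyMeasurable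
      (by fun_prop)) (ae_of_all _ fun u => ?_)
    simp only [Pi.add_apply]
    rw [norm_mul, RCLike.norm_conj]
    nlinarith [sq_nonneg (‖X u‖ - ‖Y u‖)]
  have tmul : ∀ X : ℝ → ℂ, Continuous X → Integrable X →
      Integrable (fun u => ((TT.tau u : ℝ) : ℂ) * X u) := by
    intro X cX iX
    refine iX.norm.mono' (Continuous.aestronglyMeasurable (by fun_prop)) (ae_of_all _ fun u => ?_)
    rw [norm_mul, Complex.norm_real, Real.norm_of_nonneg (TT.tau_nonneg u)]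
    exact mul_le_of_le_one_left (norm_nonneg _) (TT.tau_le_one u)
  have tmulr : ∀ X : ℝ → ℝ, Continuous X → (∀ u, 0 ≤ X u) → Integrable X →
      Integrable (fun u => TT.tau u * X u) := by
    intro X cX pX iX
    refine iX.mono' (Continuous.aestronglyMeasurable (by fun_prop)) (ae_of_all _ fun u => ?_)
    rw [Real.norm_of_nonneg (mul_nonneg (TT.tau_nonneg u) (pX u))]
    exact mul_le_of_le_one_left (pX u) (TT.tau_le_one u)
  have iFF : Integrable (fun u => F1 u * conj (F2 u)) := mk F1 F2 cF1 cF2 sF1 sF2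
  have iX : Integrable (fun u => ((TT.tau u : ℝ) : ℂ) * (F1 u * conj (F2 u))) :=
    tmul _ (by fun_prop) iFF
  have iFFn : Integrable (fun u => F1 (-u) * conj (F2 (-u))) := iFF.comp_neg
  have iY : Integrable (fun u => ((TT.tau u : ℝ) : ℂ) * (F1 (-u) * conj (F2 (-u)))) :=
    tmul _ (by fun_prop) iFFn
  have iJ : Integrable (fun u => ((TT.tau u : ℝ) : ℂ) * (P1 u * conj (P2 u))) := by
    refine ((i1.const_mul (1 / 2)).add (i2.const_mul (1 / 2))).mono' (Continuous.aestronglyMeasurable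
      (by fun_prop)) (ae_of_all _ fun u => ?_)
    simp only [Pi.add_apply]
    rw [norm_mul, norm_mul, RCLike.norm_conj, Complex.norm_real, Real.norm_of_nonneg (TT.tau_nonneg u)]
    have := mul_nonneg (TT.tau_nonneg u) (sq_nonneg (‖P1 u‖ - ‖P2 u‖))
    nlinarith
  set X := ∫ u, ((TT.tau u : ℝ) : ℂ) * (F1 u * conj (F2 u)) with hX
  set Y := ∫ u, ((TT.tau u : ℝ) : ℂ) * (F1 (-u) * conj (F2 (-u))) with hY
  set J := ∫ u, ((TT.tau u : ℝ) : ℂ) * (P1 u * conj (P2 u)) with hJ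
  have split : ∫ u, F1 u * conj (F2 u) = X + Y := by
    have eY : Y = ∫ u, ((TT.tau (-u) : ℝ) : ℂ) * (F1 u * conj (F2 u)) := by
      have := integral_neg_eq_self (fun u => ((TT.tau (-u) : ℝ) : ℂ) * (F1 u * conj (F2 u))) volume
      rw [← this, hY]
      simp only [neg_neg]
    have iY' : Integrable (fun u => ((TT.tau (-u) : ℝ) : ℂ) * (F1 u * conj (F2 u))) := by
      have := iY.comp_neg
      simpa using this
    rw [eY, hX, ← integral_add iX iY']
    refine integral_congr_ae (ae_of_all _ fun u => ?_)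
    simp only
    have h := TT.tau_add_neg u
    have h' : ((TT.tau u : ℝ) : ℂ) + ((TT.tau (-u) : ℝ) : ℂ) = 1 := by
      rw [← ofReal_add, h, ofReal_one]
    rw [← add_mul, h', one_mul]
  -- step A
  have stepA : ‖X - J‖ ≤ c * δ * A + c / δ * E + c ^ 2 * E := by
    rw [hX, hJ, ← integral_sub iX iJ]
    have ib : Integrable (fun u => c * δ / 2 * (TT.tau u * ‖P1 u‖ ^ 2) +
        c * δ / 2 * (TT.tau u * ‖P2 u‖ ^ 2) + (c / δ + c ^ 2) * (TT.tau u * Real.exp (-u))) :=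
      ((i1.const_mul _).add (i2.const_mul _)).add (iE.const_mul _)
    refine le_trans (norm_integral_le_of_norm_le ib (ae_of_all _ fun u => ?_)) ?_
    · have hx : 0 < Real.exp (-(u / 2)) := Real.exp_pos _
      have hxx : Real.exp (-u) = Real.exp (-(u / 2)) ^ 2 := by
        rw [← Real.exp_nat_mul]; congr 1; push_cast; ring
      set x := Real.exp (-(u / 2)) with hxdef
      rw [← mul_sub, norm_mul, Complex.norm_real, Real.norm_of_nonneg (TT.tau_nonneg u)]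
      have e : F1 u * conj (F2 u) - P1 u * conj (P2 u) =
          -(P1 u * (conj c2 * (x : ℂ))) - c1 * (x : ℂ) * conj (P2 u) +
            c1 * (x : ℂ) * (conj c2 * (x : ℂ)) := by
        rw [e1, e2, map_sub, map_mul, conj_ofReal]
        ring
      have hb : ‖F1 u * conj (F2 u) - P1 u * conj (P2 u)‖ ≤
          c * (‖P1 u‖ * x) + c * (‖P2 u‖ * x) + c ^ 2 * x ^ 2 := by
        rw [e]
        refine le_trans (norm_add_le _ _) (add_le_add (le_trans (norm_sub_le _ _)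
          (add_le_add ?_ ?_)) ?_)
        · rw [norm_neg, norm_mul, norm_mul, RCLike.norm_conj, Complex.norm_real,
            Real.norm_of_nonneg hx.le]
          calc ‖P1 u‖ * (‖c2‖ * x) = ‖c2‖ * (‖P1 u‖ * x) := by ring
            _ ≤ _ := mul_le_mul_of_nonneg_right hc2 (by positivity)
        · rw [norm_mul, norm_mul, RCLike.norm_conj, Complex.norm_real, Real.norm_of_nonneg hx.le]
          calc ‖c1‖ * x * ‖P2 u‖ = ‖c1‖ * (‖P2 u‖ * x) := by ring
            _ ≤ _ := mul_le_mul_of_nonneg_right hc1 (by positivity)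
        · rw [norm_mul, norm_mul, norm_mul, RCLike.norm_conj, Complex.norm_real,
            Real.norm_of_nonneg hx.le]
          calc ‖c1‖ * x * (‖c2‖ * x) = (‖c1‖ * ‖c2‖) * x ^ 2 := by ring
            _ ≤ (c * c) * x ^ 2 := by gcongr
            _ = _ := by ring
      have k1 := F05_amgm (a := ‖P1 u‖) (b := x) hδ
      have k2 := F05_amgm (a := ‖P2 u‖) (b := x) hδ
      have k3 : ‖F1 u * conj (F2 u) - P1 u * conj (P2 u)‖ ≤
          c * δ / 2 * ‖P1 u‖ ^ 2 + c * δ / 2 * ‖P2 u‖ ^ 2 + (c / δ + c ^ 2) * x ^ 2 := by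
        have m1 := mul_le_mul_of_nonneg_left k1 hc
        have m2 := mul_le_mul_of_nonneg_left k2 hc
        have m3 : c * (1 / (2 * δ) * x ^ 2) + c * (1 / (2 * δ) * x ^ 2) = c / δ * x ^ 2 := by
          field_simp
          ring
        linarith
      have k4 := mul_le_mul_of_nonneg_left k3 (TT.tau_nonneg u)
      rw [hxx]
      linarith
    · have j12 : Integrable (fun u => c * δ / 2 * (TT.tau u * ‖P1 u‖ ^ 2) +
          c * δ / 2 * (TT.tau u * ‖P2 u‖ ^ 2)) := (i1.const_mul _).add (i2.const_mul _)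
      have jE : Integrable (fun u => (c / δ + c ^ 2) * (TT.tau u * Real.exp (-u))) :=
        iE.const_mul _
      rw [integral_add j12 jE,
        integral_add (i1.const_mul _) (i2.const_mul _), integral_const_mul, integral_const_mul,
        integral_const_mul, hE]
      have hcd : 0 ≤ c * δ / 2 := by positivity
      have m1 := mul_le_mul_of_nonneg_left a1 hcd
      have m2 := mul_le_mul_of_nonneg_left a2 hcd
      linarith
  -- step B
  have nF : ∀ (F P : ℝ → ℂ) (cc : ℂ), Continuous F → Integrable (fun u => ‖F u‖ ^ 2) → ‖cc‖ ≤ c →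
      (∀ u, F u = P u - cc * ((Real.exp (-(u / 2)) : ℝ) : ℂ)) →
      Integrable (fun u => TT.tau u * ‖P u‖ ^ 2) → ∫ u, TT.tau u * ‖P u‖ ^ 2 ≤ A →
      ∫ u, TT.tau u * ‖F u‖ ^ 2 ≤ 2 * A + 2 * c ^ 2 * E := by
    intro F P cc cF iF hcc eF iP aP
    have ib : Integrable (fun u => 2 * (TT.tau u * ‖P u‖ ^ 2) +
        2 * c ^ 2 * (TT.tau u * Real.exp (-u))) := (iP.const_mul _).add (iE.const_mul _)
    refine le_trans (integral_mono (tmulr _ (by fun_prop) (fun u => by positivity) iF) ib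
      (fun u => ?_)) ?_
    · simp only
      have hx : 0 < Real.exp (-(u / 2)) := Real.exp_pos _
      have hxx : Real.exp (-u) = Real.exp (-(u / 2)) ^ 2 := by
        rw [← Real.exp_nat_mul]; congr 1; push_cast; ring
      have l1 : ‖F u‖ ≤ ‖P u‖ + c * Real.exp (-(u / 2)) := by
        rw [eF]
        refine le_trans (norm_sub_le _ _) (add_le_add le_rfl ?_)
        rw [norm_mul, Complex.norm_real, Real.norm_of_nonneg hx.le]
        exact mul_le_mul_of_nonneg_right hcc hx.le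
      have l2 : ‖F u‖ ^ 2 ≤ 2 * ‖P u‖ ^ 2 + 2 * c ^ 2 * Real.exp (-u) := by
        have := pow_le_pow_left₀ (norm_nonneg _) l1 2
        rw [hxx]
        nlinarith [sq_nonneg (‖P u‖ - c * Real.exp (-(u / 2)))]
      have l3 := mul_le_mul_of_nonneg_left l2 (TT.tau_nonneg u)
      linarith
    · rw [integral_add (iP.const_mul _) (iE.const_mul _), integral_const_mul, integral_const_mul, hE]
      linarith
  have nF1 := nF F1 P1 c1 cF1 sF1 hc1 e1 i1 a1
  have nF2 := nF F2 P2 c2 cF2 sF2 hc2 e2 i2 a2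
  have stepB : ‖Y - η1 * conj η2 * conj X‖ ≤ 2 * δ * A + 2 * δ * c ^ 2 * E +
      (1 / δ + 1) * (B / (2 * π)) := by
    have eX : η1 * conj η2 * conj X =
        ∫ u, η1 * conj η2 * conj (((TT.tau u : ℝ) : ℂ) * (F1 u * conj (F2 u))) := by
      rw [integral_const_mul, integral_conj]
    have iX' : Integrable (fun u => η1 * conj η2 *
        conj (((TT.tau u : ℝ) : ℂ) * (F1 u * conj (F2 u)))) := by
      refine Integrable.const_mul ?_ _
      refine iX.norm.mono' (Continuous.aestronglyMeasurable (by fun_prop)) (ae_of_all _ fun u => ?_)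
      rw [RCLike.norm_conj]
    rw [eX, hY, ← integral_sub iY iX']
    have iF1t : Integrable (fun u => TT.tau u * ‖F1 u‖ ^ 2) :=
      tmulr _ (by fun_prop) (fun u => by positivity) sF1
    have iF2t : Integrable (fun u => TT.tau u * ‖F2 u‖ ^ 2) :=
      tmulr _ (by fun_prop) (fun u => by positivity) sF2
    have ib : Integrable (fun u => δ / 2 * (TT.tau u * ‖F1 u‖ ^ 2) +
        δ / 2 * (TT.tau u * ‖F2 u‖ ^ 2) + (1 / (2 * δ) + 1 / 2) * (‖H1 u‖ ^ 2 + ‖H2 u‖ ^ 2)) :=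
      ((iF1t.const_mul _).add (iF2t.const_mul _)).add ((sH1.add sH2).const_mul _)
    refine le_trans (norm_integral_le_of_norm_le ib (ae_of_all _ fun u => ?_)) ?_
    · have e : ((TT.tau u : ℝ) : ℂ) * (F1 (-u) * conj (F2 (-u))) - η1 * conj η2 *
          conj (((TT.tau u : ℝ) : ℂ) * (F1 u * conj (F2 u))) = ((TT.tau u : ℝ) : ℂ) *
          (η1 * conj (F1 u) * conj (H2 u) + H1 u * (conj η2 * F2 u) + H1 u * conj (H2 u)) := by
        rw [r1, r2]
        simp only [map_add, map_mul, conj_ofReal, Complex.conj_conj]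
        ring
      rw [e, norm_mul, Complex.norm_real, Real.norm_of_nonneg (TT.tau_nonneg u)]
      have hb : ‖η1 * conj (F1 u) * conj (H2 u) + H1 u * (conj η2 * F2 u) + H1 u * conj (H2 u)‖ ≤
          ‖F1 u‖ * ‖H2 u‖ + ‖F2 u‖ * ‖H1 u‖ + ‖H1 u‖ * ‖H2 u‖ := by
        refine le_trans (norm_add_le _ _) (add_le_add (le_trans (norm_add_le _ _)
          (add_le_add ?_ ?_)) ?_)
        · simp only [norm_mul, RCLike.norm_conj, n1, one_mul, le_refl]
        · simp only [norm_mul, RCLike.norm_conj, n2, one_mul]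
          rw [mul_comm]
        · simp only [norm_mul, RCLike.norm_conj, le_refl]
      have k1 := F05_amgm (a := ‖F1 u‖) (b := ‖H2 u‖) hδ
      have k2 := F05_amgm (a := ‖F2 u‖) (b := ‖H1 u‖) hδ
      have k3 : ‖H1 u‖ * ‖H2 u‖ ≤ 1 / 2 * (‖H1 u‖ ^ 2 + ‖H2 u‖ ^ 2) := by
        nlinarith [sq_nonneg (‖H1 u‖ - ‖H2 u‖)]
      have k4 : ‖η1 * conj (F1 u) * conj (H2 u) + H1 u * (conj η2 * F2 u) + H1 u * conj (H2 u)‖ ≤
          δ / 2 * ‖F1 u‖ ^ 2 + δ / 2 * ‖F2 u‖ ^ 2 + (1 / (2 * δ) + 1 / 2) *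
            (‖H1 u‖ ^ 2 + ‖H2 u‖ ^ 2) := by linarith
      have k5 := mul_le_mul_of_nonneg_left k4 (TT.tau_nonneg u)
      have k6 : TT.tau u * ((1 / (2 * δ) + 1 / 2) * (‖H1 u‖ ^ 2 + ‖H2 u‖ ^ 2)) ≤
          (1 / (2 * δ) + 1 / 2) * (‖H1 u‖ ^ 2 + ‖H2 u‖ ^ 2) :=
        mul_le_of_le_one_left (by positivity) (TT.tau_le_one u)
      linarith
    · have j12 : Integrable (fun u => δ / 2 * (TT.tau u * ‖F1 u‖ ^ 2) +
          δ / 2 * (TT.tau u * ‖F2 u‖ ^ 2)) := (iF1t.const_mul _).add (iF2t.const_mul _)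
      have jH0 : Integrable (fun u => ‖H1 u‖ ^ 2 + ‖H2 u‖ ^ 2) := sH1.add sH2
      have jH : Integrable (fun u => (1 / (2 * δ) + 1 / 2) * (‖H1 u‖ ^ 2 + ‖H2 u‖ ^ 2)) :=
        jH0.const_mul _
      rw [integral_add j12 jH,
        integral_add (iF1t.const_mul _) (iF2t.const_mul _), integral_const_mul, integral_const_mul,
        integral_const_mul, integral_add sH1 sH2]
      have hd : 0 ≤ δ / 2 := by positivity
      have hd2 : 0 ≤ 1 / (2 * δ) + 1 / 2 := by positivity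
      have m1 := mul_le_mul_of_nonneg_left nF1 hd
      have m2 := mul_le_mul_of_nonneg_left nF2 hd
      have m3 := mul_le_mul_of_nonneg_left (add_le_add qH1 qH2) hd2
      have m4 : (1 / (2 * δ) + 1 / 2) * (B / (2 * π) + B / (2 * π)) =
          (1 / δ + 1) * (B / (2 * π)) := by
        field_simp
        ring
      linarith
  -- conclusion
  have hYn : ‖Y‖ ≤ ‖X‖ + (2 * δ * A + 2 * δ * c ^ 2 * E + (1 / δ + 1) * (B / (2 * π))) := by
    have t1 : Y = η1 * conj η2 * conj X + (Y - η1 * conj η2 * conj X) := by ring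
    rw [t1]
    refine le_trans (norm_add_le _ _) (add_le_add ?_ stepB)
    simp only [norm_mul, RCLike.norm_conj, n1, n2, one_mul, le_refl]
  have hXn : ‖X‖ ≤ ‖J‖ + (c * δ * A + c / δ * E + c ^ 2 * E) := by
    have t1 : X = J + (X - J) := by ring
    rw [t1]
    exact le_trans (norm_add_le _ _) (add_le_add le_rfl stepA)
  rw [F05_inner h1 h2, norm_mul, split]
  have hn : ‖(2 * (π : ℂ))‖ = 2 * π := by
    rw [show (2 * (π : ℂ)) = ((2 * π : ℝ) : ℂ) by push_cast; ring, Complex.norm_real,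
      Real.norm_of_nonneg (by positivity)]
  rw [hn]
  have hXY : ‖X + Y‖ ≤ 2 * (‖J‖ + (c * δ * A + c / δ * E + c ^ 2 * E)) +
      (2 * δ * A + 2 * δ * c ^ 2 * E + (1 / δ + 1) * (B / (2 * π))) := by
    have := norm_add_le X Y
    linarith
  have hπ : (0 : ℝ) ≤ 2 * π := by positivity
  have fin := mul_le_mul_of_nonneg_left hXY hπ
  have fe : 2 * π * ((1 / δ + 1) * (B / (2 * π))) = (1 / δ + 1) * B := by
    have := Real.pi_ne_zero
    field_simp
  linarith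

theorem F05_polyexp (n : ℕ) {ε : ℝ} (hε : 0 < ε) :
    Integrable (fun t : ℝ => (1 + |t|) ^ n * Real.exp (-(ε * |t|))) := by
  have hb : ∀ t : ℝ, (1 + |t|) ^ n * Real.exp (-(ε * |t|)) ≤
      Real.exp ε * ((n + 2).factorial : ℝ) / ε ^ (n + 2) * (1 + t ^ 2)⁻¹ := by
    intro t
    have h := Real.pow_div_factorial_le_exp (ε * (1 + |t|)) (by positivity) (n + 2)
    rw [div_le_iff₀ (by positivity), mul_pow] at h
    have e1 : Real.exp (ε * (1 + |t|)) = Real.exp ε * Real.exp (ε * |t|) := by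
      rw [← Real.exp_add]; congr 1; ring
    rw [e1] at h
    have h2 : 1 + t ^ 2 ≤ (1 + |t|) ^ 2 := by
      have := abs_nonneg t
      nlinarith [sq_abs t]
    have h3 : Real.exp (-(ε * |t|)) * Real.exp (ε * |t|) = 1 := by
      rw [← Real.exp_add]; simp
    rw [← div_eq_mul_inv, le_div_iff₀ (by positivity)]
    calc (1 + |t|) ^ n * Real.exp (-(ε * |t|)) * (1 + t ^ 2)
        ≤ (1 + |t|) ^ n * Real.exp (-(ε * |t|)) * (1 + |t|) ^ 2 := by gcongr
      _ = (1 + |t|) ^ (n + 2) * Real.exp (-(ε * |t|)) := by ring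
      _ ≤ _ := by
        rw [le_div_iff₀ (by positivity)]
        calc (1 + |t|) ^ (n + 2) * Real.exp (-(ε * |t|)) * ε ^ (n + 2)
            = (ε ^ (n + 2) * (1 + |t|) ^ (n + 2)) * Real.exp (-(ε * |t|)) := by ring
          _ ≤ (Real.exp ε * Real.exp (ε * |t|) * ((n + 2).factorial : ℝ)) *
              Real.exp (-(ε * |t|)) := by gcongr
          _ = Real.exp ε * ((n + 2).factorial : ℝ) *
              (Real.exp (-(ε * |t|)) * Real.exp (ε * |t|)) := by ring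
          _ = _ := by rw [h3, mul_one]
  refine (integrable_inv_one_add_sq.const_mul
    (Real.exp ε * ((n + 2).factorial : ℝ) / ε ^ (n + 2))).mono'
    (Continuous.aestronglyMeasurable (by fun_prop)) (ae_of_all _ fun t => ?_)
  rw [Real.norm_of_nonneg (by positivity)]
  exact hb t

theorem F05_G_RR {q1 q2 : ℕ} [NeZero q1] [NeZero q2] (χ1 : DirichletCharacter ℂ q1)
    (χ2 : DirichletCharacter ℂ q2) {ε : ℝ} (hε : 0 < ε) (hε2 : ε ≤ 1 / 2) :
    F05_G (RR χ1 χ2 ε) := by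
  obtain ⟨C, hC, hb⟩ := RR_le χ1 χ2
  have hc := RR_cont χ1 χ2 ε
  refine ⟨hc, ?_, ?_⟩
  · refine ((F05_polyexp 6 hε).const_mul C).mono' hc.aestronglyMeasurable (ae_of_all _ fun t => ?_)
    have := (hb ε hε hε2 t).1
    rwa [mul_assoc] at this
  · refine ((F05_polyexp 12 (by positivity : 0 < 2 * ε)).const_mul (C ^ 2)).mono'
      (Continuous.aestronglyMeasurable (by fun_prop)) (ae_of_all _ fun t => ?_)
    have h := pow_le_pow_left₀ (norm_nonneg _) (hb ε hε hε2 t).1 2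
    rw [Real.norm_of_nonneg (by positivity)]
    refine le_trans h (le_of_eq ?_)
    have e : Real.exp (-(2 * ε * |t|)) = Real.exp (-(ε * |t|)) ^ 2 := by
      rw [← Real.exp_nat_mul]; congr 1; push_cast; ring
    rw [e]
    ring

theorem F05_real {R : ℝ → ℂ} {η : ℂ} {C : ℝ} (hR : Continuous R)
    (h : ∀ t : ℝ, ‖R t - η * conj (R t)‖ ≤ C * (1 + |t|) ^ 6 * Real.exp (-|t|)) :
    ∫ t, ‖R t - η * conj (R t)‖ ^ 2 ≤ C ^ 2 * ∫ t : ℝ, (1 + |t|) ^ 12 * Real.exp (-(2 * |t|)) := by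
  have hi := (F05_polyexp 12 (by norm_num : (0 : ℝ) < 2)).const_mul (C ^ 2)
  have hb : ∀ t : ℝ, ‖R t - η * conj (R t)‖ ^ 2 ≤
      C ^ 2 * ((1 + |t|) ^ 12 * Real.exp (-(2 * |t|))) := by
    intro t
    have h := pow_le_pow_left₀ (norm_nonneg _) (h t) 2
    refine le_trans h (le_of_eq ?_)
    have e : Real.exp (-(2 * |t|)) = Real.exp (-|t|) ^ 2 := by
      rw [← Real.exp_nat_mul]; congr 1; push_cast; ring
    rw [e]
    ring
  rw [← integral_const_mul]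
  refine integral_mono (hi.mono' (Continuous.aestronglyMeasurable (by fun_prop))
    (ae_of_all _ fun t => ?_)) hi hb
  rw [Real.norm_of_nonneg (by positivity)]
  exact hb t

theorem F05_log {ε : ℝ} (hε : 0 < ε) (hε2 : ε ≤ 1 / 2) :
    (1 + Real.log (1 / ε)) ^ 5 ≤ 21 ^ 5 * ε ^ (-(1 / 4 : ℝ)) := by
  have h1 : Real.log (1 / ε) ≤ (1 / ε) ^ (1 / 20 : ℝ) / (1 / 20) :=
    Real.log_le_rpow_div (by positivity) (by norm_num)
  have e : (1 / ε) ^ (1 / 20 : ℝ) = ε ^ (-(1 / 20) : ℝ) := by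
    rw [one_div, Real.inv_rpow hε.le, Real.rpow_neg hε.le]
  have h2 : (1 : ℝ) ≤ ε ^ (-(1 / 20) : ℝ) :=
    Real.one_le_rpow_of_pos_of_le_one_of_nonpos hε (by linarith) (by norm_num)
  have h3 : 1 + Real.log (1 / ε) ≤ 21 * ε ^ (-(1 / 20) : ℝ) := by
    rw [e] at h1
    linarith
  have h0 : 0 ≤ Real.log (1 / ε) := by
    refine Real.log_nonneg ?_
    rw [le_div_iff₀ hε]
    linarith
  refine le_trans (pow_le_pow_left₀ (by linarith) h3 5) (le_of_eq ?_)
  rw [mul_pow, ← Real.rpow_natCast (ε ^ (-(1 / 20) : ℝ)) 5, ← Real.rpow_mul hε.le]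
  norm_num

theorem F05_num {J c δ A E B A0 w D : ℝ} (hJ0 : 0 ≤ J) (hc0 : 0 ≤ c) (hE0 : 0 ≤ E) (hB0 : 0 ≤ B)
    (hD0 : 0 ≤ D) (hw1 : 1 ≤ w) (hδw : δ ≤ w) (hδi : 1 / δ ≤ w) (hδA : δ * A ≤ A0 * w)
    (hD : D = 4 * π * (c * A0 + c * E + c ^ 2 * E) +
      (2 * π * (2 * A0 + 2 * c ^ 2 * E) + 2 * B)) :
    4 * π * J + 4 * π * (c * δ * A + c / δ * E + c ^ 2 * E) +
      (2 * π * (2 * δ * A + 2 * δ * c ^ 2 * E) + (1 / δ + 1) * B) ≤
      (4 * π + D) * J + (4 * π + D) * w := by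
  have hπ := Real.pi_pos
  have m1 : c * δ * A ≤ c * A0 * w := by
    calc c * δ * A = c * (δ * A) := by ring
      _ ≤ c * (A0 * w) := mul_le_mul_of_nonneg_left hδA hc0
      _ = _ := by ring
  have m2 : c / δ * E ≤ c * E * w := by
    calc c / δ * E = c * E * (1 / δ) := by ring
      _ ≤ _ := mul_le_mul_of_nonneg_left hδi (by positivity)
  have m3 : c ^ 2 * E ≤ c ^ 2 * E * w := le_mul_of_one_le_right (by positivity) hw1
  have m4 : 2 * δ * A ≤ 2 * A0 * w := by linarith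
  have m5 : 2 * δ * c ^ 2 * E ≤ 2 * c ^ 2 * E * w := by
    calc 2 * δ * c ^ 2 * E = 2 * c ^ 2 * E * δ := by ring
      _ ≤ _ := mul_le_mul_of_nonneg_left hδw (by positivity)
  have m6 : (1 / δ + 1) * B ≤ 2 * B * w := by
    calc (1 / δ + 1) * B ≤ (w + w) * B := mul_le_mul_of_nonneg_right (by linarith) hB0
      _ = _ := by ring
  have f1 := mul_le_mul_of_nonneg_left (add_le_add (add_le_add m1 m2) m3)
    (by positivity : (0 : ℝ) ≤ 4 * π)
  have f2 := mul_le_mul_of_nonneg_left (add_le_add m4 m5) (by positivity : (0 : ℝ) ≤ 2 * π)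
  have f3 : 0 ≤ D * J := by positivity
  have hw0 : 0 ≤ w := by linarith
  have f4 : 0 ≤ 4 * π * w := by positivity
  have f5 : D * w = 4 * π * (c * A0 * w + c * E * w + c ^ 2 * E * w) +
      (2 * π * (2 * A0 * w + 2 * c ^ 2 * E * w) + 2 * B * w) := by
    rw [hD]; ring
  have f6 : (4 * π + D) * J + (4 * π + D) * w =
      4 * π * J + D * J + 4 * π * w + D * w := by ring
  rw [f6, f5]
  linarith

/-- Row F05. Parseval and folding u to -u. -/
theorem parseval {q1 q2 q3 q4 : ℕ} [NeZero q1] [NeZero q2] [NeZero q3] [NeZero q4]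
    {χ1 : DirichletCharacter ℂ q1} {χ2 : DirichletCharacter ℂ q2} {χ3 : DirichletCharacter ℂ q3}
    {χ4 : DirichletCharacter ℂ q4} (h1 : χ1.IsPrimitive) (h2 : χ2.IsPrimitive) (h3 : χ3.IsPrimitive)
    (h4 : χ4.IsPrimitive) (n12 : OO.Ne12 χ1 χ2) (n34 : OO.Ne12 χ3 χ4) : ∃ C : ℝ, 0 ≤ C ∧
    ∀ ε : ℝ, 0 < ε → ε ≤ 1 / 2 → ‖∫ t : ℝ, RR χ1 χ2 ε t * conj (RR χ3 χ4 ε t)‖ ≤
      C * ‖JJ χ1 χ2 χ3 χ4 ε‖ + C * ε ^ (-(3 / 4 : ℝ)) := by
  obtain ⟨c1, D1, hD1, hc1, hm1⟩ := mellin_pair h1 h2 n12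
  obtain ⟨c2, D2, hD2, hc2, hm2⟩ := mellin_pair h3 h4 n34
  obtain ⟨η1, G1, hG1, hη1, hr1⟩ := RR_real h1 h2
  obtain ⟨η2, G2, hG2, hη2, hr2⟩ := RR_real h3 h4
  have q12 : 0 < tht q1 q2 := by
    have a := Nat.pos_of_ne_zero (NeZero.ne q1)
    have b := Nat.pos_of_ne_zero (NeZero.ne q2)
    unfold tht
    positivity
  have q34 : 0 < tht q3 q4 := by
    have a := Nat.pos_of_ne_zero (NeZero.ne q3)
    have b := Nat.pos_of_ne_zero (NeZero.ne q4)
    unfold tht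
    positivity
  obtain ⟨A1, hA1, hs1⟩ := FE_sq χ1 χ2 q12
  obtain ⟨A2, hA2, hs2⟩ := FE_sq χ3 χ4 q34
  set K := ∫ t : ℝ, (1 + |t|) ^ 12 * Real.exp (-(2 * |t|)) with hK
  have hK0 : 0 ≤ K := integral_nonneg fun t => by positivity
  set E := ∫ u : ℝ, TT.tau u * Real.exp (-u) with hE
  have hE0 : 0 ≤ E := integral_nonneg fun u => mul_nonneg (TT.tau_nonneg u) (Real.exp_pos _).le
  set c := D1 + D2 with hc
  have hc0 : 0 ≤ c := by positivity
  set A0 := (A1 + A2) * 21 ^ 5 with hA0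
  have hA00 : 0 ≤ A0 := by positivity
  set B := (G1 ^ 2 + G2 ^ 2) * K with hB
  have hB0 : 0 ≤ B := by positivity
  set D := 4 * π * (c * A0 + c * E + c ^ 2 * E) + (2 * π * (2 * A0 + 2 * c ^ 2 * E) + 2 * B) with hD
  have hD0 : 0 ≤ D := by
    have := Real.pi_pos
    positivity
  refine ⟨4 * π + D, by positivity, fun ε hε hε2 => ?_⟩
  set δ := √ε with hδ
  have hδ0 : 0 < δ := Real.sqrt_pos.mpr hε
  set w := ε ^ (-(3 / 4 : ℝ)) with hw
  have hw1 : 1 ≤ w := Real.one_le_rpow_of_pos_of_le_one_of_nonpos hε (by linarith) (by norm_num)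
  have hδ1 : δ ≤ 1 := by
    rw [hδ]
    exact Real.sqrt_le_one.mpr (by linarith)
  have hδw : δ ≤ w := le_trans hδ1 hw1
  have hδe : δ = ε ^ (1 / 2 : ℝ) := by rw [hδ, Real.sqrt_eq_rpow]
  have hδi : 1 / δ ≤ w := by
    rw [hδe, one_div, ← Real.rpow_neg hε.le]
    exact Real.rpow_le_rpow_of_exponent_ge hε (by linarith) (by norm_num)
  set A := (A1 + A2) * ε⁻¹ * (1 + Real.log (1 / ε)) ^ 5 with hA
  have hL0 : 0 ≤ Real.log (1 / ε) := by
    refine Real.log_nonneg ?_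
    rw [le_div_iff₀ hε]
    linarith
  have hδA : δ * A ≤ A0 * w := by
    have h := F05_log hε hε2
    have e : w = ε ^ (1 / 2 : ℝ) * ε⁻¹ * ε ^ (-(1 / 4 : ℝ)) := by
      rw [← Real.rpow_neg_one ε, ← Real.rpow_add hε, ← Real.rpow_add hε, hw]
      congr 1
      norm_num
    calc δ * A = (A1 + A2) * (δ * ε⁻¹) * (1 + Real.log (1 / ε)) ^ 5 := by rw [hA]; ring
      _ ≤ (A1 + A2) * (δ * ε⁻¹) * (21 ^ 5 * ε ^ (-(1 / 4 : ℝ))) := by gcongr
      _ = A0 * w := by rw [e, ← hδe, hA0]; ring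
  -- the two squares
  have sq_id : ∀ (f : ℝ → ℂ), (fun u : ℝ => TT.tau u *
      ‖((Real.exp (u / 2) : ℝ) : ℂ) * f u‖ ^ 2) = fun u => TT.tau u * Real.exp u * ‖f u‖ ^ 2 := by
    intro f
    funext u
    have e : Real.exp u = Real.exp (u / 2) ^ 2 := by
      rw [← Real.exp_nat_mul]; congr 1; push_cast; ring
    rw [norm_mul, Complex.norm_real, Real.norm_of_nonneg (Real.exp_pos _).le, e]
    ring
  have i1 : Integrable (fun u : ℝ => TT.tau u * ‖((Real.exp (u / 2) : ℝ) : ℂ) *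
      FE (cv χ1 χ2) (tht q1 q2) ε (Real.exp u)‖ ^ 2) := by
    rw [sq_id]; exact (hs1 ε hε hε2).1
  have i2 : Integrable (fun u : ℝ => TT.tau u * ‖((Real.exp (u / 2) : ℝ) : ℂ) *
      FE (cv χ3 χ4) (tht q3 q4) ε (Real.exp u)‖ ^ 2) := by
    rw [sq_id]; exact (hs2 ε hε hε2).1
  have hpos : 0 ≤ ε⁻¹ * (1 + Real.log (1 / ε)) ^ 5 := by positivity
  have a1 : ∫ u : ℝ, TT.tau u * ‖((Real.exp (u / 2) : ℝ) : ℂ) *
      FE (cv χ1 χ2) (tht q1 q2) ε (Real.exp u)‖ ^ 2 ≤ A := by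
    rw [sq_id]
    refine le_trans (hs1 ε hε hε2).2 ?_
    rw [hA, mul_assoc, mul_assoc]
    exact mul_le_mul_of_nonneg_right (by linarith) hpos
  have a2 : ∫ u : ℝ, TT.tau u * ‖((Real.exp (u / 2) : ℝ) : ℂ) *
      FE (cv χ3 χ4) (tht q3 q4) ε (Real.exp u)‖ ^ 2 ≤ A := by
    rw [sq_id]
    refine le_trans (hs2 ε hε hε2).2 ?_
    rw [hA, mul_assoc, mul_assoc]
    exact mul_le_mul_of_nonneg_right (by linarith) hpos
  have b1 : ∫ t, ‖RR χ1 χ2 ε t - η1 ε * conj (RR χ1 χ2 ε t)‖ ^ 2 ≤ B := by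
    refine le_trans (F05_real (RR_cont χ1 χ2 ε) (hr1 ε hε hε2)) ?_
    rw [hB]
    exact mul_le_mul_of_nonneg_right (le_add_of_nonneg_right (sq_nonneg G2)) hK0
  have b2 : ∫ t, ‖RR χ3 χ4 ε t - η2 ε * conj (RR χ3 χ4 ε t)‖ ^ 2 ≤ B := by
    refine le_trans (F05_real (RR_cont χ3 χ4 ε) (hr2 ε hε hε2)) ?_
    rw [hB]
    exact mul_le_mul_of_nonneg_right (le_add_of_nonneg_left (sq_nonneg G1)) hK0
  have fold := F05_fold (F05_G_RR χ1 χ2 hε hε2) (F05_G_RR χ3 χ4 hε hε2) (hη1 ε) (hη2 ε) hδ0 hc0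
    (le_trans (hc1 ε) (by linarith)) (le_trans (hc2 ε) (by linarith)) (hm1 ε hε hε2)
    (hm2 ε hε hε2) i1 i2 a1 a2 b1 b2 hE.symm
  have eJ : ∫ u : ℝ, ((TT.tau u : ℝ) : ℂ) * (((Real.exp (u / 2) : ℝ) : ℂ) *
      FE (cv χ1 χ2) (tht q1 q2) ε (Real.exp u) * conj (((Real.exp (u / 2) : ℝ) : ℂ) *
      FE (cv χ3 χ4) (tht q3 q4) ε (Real.exp u))) = JJ χ1 χ2 χ3 χ4 ε := by
    unfold JJ
    refine integral_congr_ae (ae_of_all _ fun u => ?_)
    have e : Real.exp u = Real.exp (u / 2) * Real.exp (u / 2) := by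
      rw [← Real.exp_add]; congr 1; ring
    have e2 : ((TT.tau u * Real.exp u : ℝ) : ℂ) =
        ((TT.tau u : ℝ) : ℂ) * (((Real.exp (u / 2) : ℝ) : ℂ) * ((Real.exp (u / 2) : ℝ) : ℂ)) := by
      rw [← ofReal_mul, ← e, ofReal_mul]
    simp only
    rw [e2, map_mul, conj_ofReal]
    ring
  rw [eJ] at fold
  exact le_trans fold (F05_num (norm_nonneg _) hc0 hE0 hB0 hD0 hw1 hδw hδi hδA hD)

end FF
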