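import Pool.Agent.Lib.MP_0f5a55_nt.FF.D
import Pool.Agent.Lib.MP_0f5a55_nt.TT.T18
import Pool.Agent.Lib.MP_0f5a55_nt.OM.K004

open Complex MeasureTheory Set Filter Topology
open scoped Real ComplexConjugate

namespace FF

open II

private theorem F06_ne (t : ℝ) : (1 / 2 + t * I : ℂ) ≠ 1 := by
  intro h
  have := congrArg Complex.re h
  norm_num at this

private theorem F06_an {q : ℕ} [NeZero q] (χ : DirichletCharacter ℂ q) :
    AnalyticOnNhd ℂ (LX.Lf χ) {1}ᶜ := by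
  apply DifferentiableOn.analyticOnNhd _ isOpen_compl_singleton
  intro s hs
  exact (DirichletCharacter.differentiableAt_LFunction χ s (Or.inl hs)).differentiableWithinAt

private theorem F06_top {q : ℕ} [NeZero q] (χ : DirichletCharacter ℂ q) (t : ℝ) :
    analyticOrderAt (LX.Lf χ) (1 / 2 + t * I) ≠ ⊤ := by
  intro htop
  have hpre : IsPreconnected ({1}ᶜ : Set ℂ) :=
    (isConnected_compl_singleton_of_one_lt_rank (by simp) 1).isPreconnected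
  have h0 : LX.Lf χ =ᶠ[𝓝 (1 / 2 + t * I : ℂ)] 0 := by
    rw [analyticOrderAt_eq_top] at htop
    exact htop
  have h1 : EqOn (LX.Lf χ) 0 {1}ᶜ :=
    (F06_an χ).eqOn_zero_of_preconnected_of_eventuallyEq_zero hpre (F06_ne t) h0
  have h2 : LX.Lf χ 2 = 0 := h1 (by norm_num : (2 : ℂ) ∈ ({1}ᶜ : Set ℂ))
  have h3 : LX.Lf χ 2 ≠ 0 :=
    DirichletCharacter.LFunction_ne_zero_of_one_le_re χ (Or.inr (by norm_num)) (by norm_num)
  exact h3 h2

private theorem F06_mul {f g : ℂ → ℂ} {z : ℂ} (a1 : AnalyticAt ℂ f z) (a2 : AnalyticAt ℂ g z)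
    (t1 : analyticOrderAt f z ≠ ⊤) (t2 : analyticOrderAt g z ≠ ⊤) :
    AnalyticAt ℂ (f * g) z ∧ analyticOrderAt (f * g) z ≠ ⊤ ∧
      analyticOrderNatAt (f * g) z = analyticOrderNatAt f z + analyticOrderNatAt g z := by
  refine ⟨a1.mul a2, ?_, analyticOrderNatAt_mul a1 a2 t1 t2⟩
  rw [analyticOrderAt_mul a1 a2]
  intro h
  rcases ENat.add_eq_top.mp h with h | h
  · exact t1 h
  · exact t2 h

private theorem F06_orders {q1 q2 q3 q4 : ℕ} [NeZero q1] [NeZero q2] [NeZero q3] [NeZero q4]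
    (χ1 : DirichletCharacter ℂ q1) (χ2 : DirichletCharacter ℂ q2) (χ3 : DirichletCharacter ℂ q3)
    (χ4 : DirichletCharacter ℂ q4) (t : ℝ) :
    AnalyticAt ℂ (LX.Lf χ1 * LX.Lf χ2 * LX.Lf χ3 * LX.Lf χ4) (1 / 2 + t * I) ∧
      analyticOrderAt (LX.Lf χ1 * LX.Lf χ2 * LX.Lf χ3 * LX.Lf χ4) (1 / 2 + t * I) ≠ ⊤ ∧
      analyticOrderNatAt (LX.Lf χ1 * LX.Lf χ2 * LX.Lf χ3 * LX.Lf χ4) (1 / 2 + t * I) =
        analyticOrderNatAt (LX.Lf χ1) (1 / 2 + t * I) + analyticOrderNatAt (LX.Lf χ2) (1 / 2 + t * I) +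
          analyticOrderNatAt (LX.Lf χ3) (1 / 2 + t * I) + analyticOrderNatAt (LX.Lf χ4) (1 / 2 + t * I) := by
  obtain ⟨a12, t12, e12⟩ := F06_mul (F06_an χ1 _ (F06_ne t)) (F06_an χ2 _ (F06_ne t)) (F06_top χ1 t)
    (F06_top χ2 t)
  obtain ⟨a123, t123, e123⟩ := F06_mul a12 (F06_an χ3 _ (F06_ne t)) t12 (F06_top χ3 t)
  obtain ⟨a, t', e⟩ := F06_mul a123 (F06_an χ4 _ (F06_ne t)) t123 (F06_top χ4 t)
  exact ⟨a, t', by rw [e, e123, e12]⟩

theorem ZZ_abs {q : ℕ} [NeZero q] {χ : DirichletCharacter ℂ q} (h : χ.IsPrimitive) (t : ℝ) :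
    |ZZ χ t| = ‖LX.Lf χ (1 / 2 + t * I)‖ := by
  obtain ⟨n1, c1, i1⟩ := TT.uu_all h
  have h1 : ((ZZ χ t : ℝ) : ℂ) = LX.uu χ t * LX.Lf χ (1 / 2 + t * I) := by
    apply Complex.ext
    · simp [ZZ]
    · rw [i1 t]
      simp
  calc |ZZ χ t| = ‖((ZZ χ t : ℝ) : ℂ)‖ := by rw [Complex.norm_real, Real.norm_eq_abs]
    _ = ‖LX.Lf χ (1 / 2 + t * I)‖ := by rw [h1, norm_mul, n1 t, one_mul]

theorem ZZ_cont {q : ℕ} [NeZero q] {χ : DirichletCharacter ℂ q} (h : χ.IsPrimitive) : Continuous (ZZ χ) := by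
  obtain ⟨n1, c1, i1⟩ := TT.uu_all h
  have h2 : Continuous (fun t : ℝ => LX.Lf χ (1 / 2 + t * I)) := by
    rw [continuous_iff_continuousAt]
    intro t
    have h3 : ContinuousAt (LX.Lf χ) (1 / 2 + t * I) := (F06_an χ _ (F06_ne t)).continuousAt
    have h4 : ContinuousAt (fun t : ℝ => (1 / 2 + t * I : ℂ)) t := by fun_prop
    exact ContinuousAt.comp (f := fun t : ℝ => (1 / 2 + t * I : ℂ)) h3 h4
  exact Complex.continuous_re.comp (c1.mul h2)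

/-- Row F06. Finitely many odd heights: the product of the four Hardy functions has a constant sign eventually. -/
theorem sign4 {q1 q2 q3 q4 : ℕ} [NeZero q1] [NeZero q2] [NeZero q3] [NeZero q4]
    {χ1 : DirichletCharacter ℂ q1} {χ2 : DirichletCharacter ℂ q2} {χ3 : DirichletCharacter ℂ q3}
    {χ4 : DirichletCharacter ℂ q4} (h1 : χ1.IsPrimitive) (h2 : χ2.IsPrimitive) (h3 : χ3.IsPrimitive)
    (h4 : χ4.IsPrimitive)
    (hfin : {g : ℝ | 0 < g ∧ Odd (analyticOrderNatAt (LX.Lf χ1) (1 / 2 + g * I) +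
      analyticOrderNatAt (LX.Lf χ2) (1 / 2 + g * I) + analyticOrderNatAt (LX.Lf χ3) (1 / 2 + g * I) +
      analyticOrderNatAt (LX.Lf χ4) (1 / 2 + g * I))}.Finite) : ∃ T0 : ℝ, 0 < T0 ∧
      ((∀ t, T0 < t → 0 ≤ ZZ χ1 t * ZZ χ2 t * ZZ χ3 t * ZZ χ4 t) ∨
        (∀ t, T0 < t → ZZ χ1 t * ZZ χ2 t * ZZ χ3 t * ZZ χ4 t ≤ 0)) := by
  obtain ⟨T0, hT0, hev⟩ : ∃ T0 : ℝ, 0 < T0 ∧ ∀ t : ℝ, T0 < t → Even (analyticOrderNatAt (LX.Lf χ1) (1 / 2 + t * I) +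
      analyticOrderNatAt (LX.Lf χ2) (1 / 2 + t * I) + analyticOrderNatAt (LX.Lf χ3) (1 / 2 + t * I) +
      analyticOrderNatAt (LX.Lf χ4) (1 / 2 + t * I)) := by
    obtain ⟨M, hM⟩ := hfin.bddAbove
    refine ⟨max M 1, lt_of_lt_of_le one_pos (le_max_right _ _), ?_⟩
    intro t ht
    by_contra hodd
    rw [Nat.not_even_iff_odd] at hodd
    have hmem := hM (show t ∈ {g : ℝ | 0 < g ∧ Odd (analyticOrderNatAt (LX.Lf χ1) (1 / 2 + g * I) +
      analyticOrderNatAt (LX.Lf χ2) (1 / 2 + g * I) + analyticOrderNatAt (LX.Lf χ3) (1 / 2 + g * I) +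
      analyticOrderNatAt (LX.Lf χ4) (1 / 2 + g * I))} from
        ⟨lt_of_lt_of_le one_pos ((le_max_right M 1).trans ht.le), hodd⟩)
    exact absurd (lt_of_le_of_lt (le_max_left M 1) ht) (not_lt.mpr hmem)
  refine ⟨T0, hT0, ?_⟩
  obtain ⟨n1, c1, i1⟩ := TT.uu_all h1
  obtain ⟨n2, c2, i2⟩ := TT.uu_all h2
  obtain ⟨n3, c3, i3⟩ := TT.uu_all h3
  obtain ⟨n4, c4, i4⟩ := TT.uu_all h4
  have hre : ∀ z : ℂ, z.im = 0 → ((z.re : ℝ) : ℂ) = z := by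
    intro z hz
    apply Complex.ext
    · simp
    · simp [hz]
  have key : ∀ b : ℝ, (∀ t ∈ Ioo T0 b, 0 ≤ ZZ χ1 t * ZZ χ2 t * ZZ χ3 t * ZZ χ4 t) ∨
      (∀ t ∈ Ioo T0 b, ZZ χ1 t * ZZ χ2 t * ZZ χ3 t * ZZ χ4 t ≤ 0) := by
    intro b
    refine OO.F_sign (LX.Lf χ1 * LX.Lf χ2 * LX.Lf χ3 * LX.Lf χ4)
      (fun t => LX.uu χ1 t * LX.uu χ2 t * LX.uu χ3 t * LX.uu χ4 t)
      (fun t => ZZ χ1 t * ZZ χ2 t * ZZ χ3 t * ZZ χ4 t) (((c1.mul c2).mul c3).mul c4) ?_ ?_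
      (fun t => (F06_orders χ1 χ2 χ3 χ4 t).1) (fun t => (F06_orders χ1 χ2 χ3 χ4 t).2.1) T0 b ?_
    · intro t
      have e1 : LX.uu χ1 t ≠ 0 := by
        intro h; have := n1 t; rw [h] at this; simp at this
      have e2 : LX.uu χ2 t ≠ 0 := by
        intro h; have := n2 t; rw [h] at this; simp at this
      have e3 : LX.uu χ3 t ≠ 0 := by
        intro h; have := n3 t; rw [h] at this; simp at this
      have e4 : LX.uu χ4 t ≠ 0 := by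
        intro h; have := n4 t; rw [h] at this; simp at this
      exact mul_ne_zero (mul_ne_zero (mul_ne_zero e1 e2) e3) e4
    · intro t
      simp only [ZZ]
      rw [ofReal_mul, ofReal_mul, ofReal_mul, hre _ (i1 t), hre _ (i2 t), hre _ (i3 t), hre _ (i4 t)]
      show _ = LX.uu χ1 t * LX.uu χ2 t * LX.uu χ3 t * LX.uu χ4 t *
        (LX.Lf χ1 (1 / 2 + t * I) * LX.Lf χ2 (1 / 2 + t * I) * LX.Lf χ3 (1 / 2 + t * I) *
          LX.Lf χ4 (1 / 2 + t * I))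
      ring
    · intro t ht
      rw [(F06_orders χ1 χ2 χ3 χ4 t).2.2]
      exact hev t ht.1
  by_contra hcon
  push Not at hcon
  obtain ⟨⟨a, ha, ha'⟩, b, hb, hb'⟩ := hcon
  rcases key (max a b + 1) with h | h
  · exact absurd (h a ⟨ha, lt_of_le_of_lt (le_max_left a b) (lt_add_one _)⟩) (not_le.mpr ha')
  · exact absurd (h b ⟨hb, lt_of_le_of_lt (le_max_right a b) (lt_add_one _)⟩) (not_le.mpr hb')

end FF
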