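import Pool.Agent.Lib.MP_0f5a55_nt.FF.F02
import Pool.Agent.Lib.MP_0f5a55_nt.FF.F03
import Pool.Agent.Lib.MP_0f5a55_nt.FF.F05
import Pool.Agent.Lib.MP_0f5a55_nt.FF.F06
import Pool.Agent.Lib.MP_0f5a55_nt.GG.G10

open Complex MeasureTheory Set Filter Topology
open scoped Real ComplexConjugate

namespace FF

open II

private theorem F07_pow_exp (a : ℝ) (ha : 0 < a) (n : ℕ) :
    ∃ C : ℝ, 0 ≤ C ∧ ∀ t : ℝ, (1 + |t|) ^ n * Real.exp (-(a * |t|)) ≤ C := by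
  refine ⟨(n.factorial : ℝ) / a ^ n * Real.exp a, by positivity, fun t => ?_⟩
  have h0 : 0 ≤ |t| := abs_nonneg t
  have h1 : (a * (1 + |t|)) ^ n / n.factorial ≤ Real.exp (a * (1 + |t|)) :=
    Real.pow_div_factorial_le_exp _ (by positivity) n
  have hf : (0 : ℝ) < n.factorial := by exact_mod_cast n.factorial_pos
  have han : 0 < a ^ n := by positivity
  have h2 : (1 + |t|) ^ n ≤ (n.factorial : ℝ) / a ^ n * Real.exp (a * (1 + |t|)) := by
    rw [div_le_iff₀ hf, mul_pow] at h1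
    rw [div_mul_eq_mul_div, le_div_iff₀ han]
    linarith
  calc (1 + |t|) ^ n * Real.exp (-(a * |t|))
      ≤ (n.factorial : ℝ) / a ^ n * Real.exp (a * (1 + |t|)) * Real.exp (-(a * |t|)) :=
        mul_le_mul_of_nonneg_right h2 (Real.exp_pos _).le
    _ = (n.factorial : ℝ) / a ^ n * Real.exp a := by
        rw [mul_assoc, ← Real.exp_add]
        congr 2
        ring

private theorem F07_int (a : ℝ) (ha : 0 < a) (n : ℕ) :
    Integrable (fun t : ℝ => (1 + |t|) ^ n * Real.exp (-(a * |t|))) := by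
  obtain ⟨C, hC0, hC⟩ := F07_pow_exp a ha (n + 2)
  have hi : Integrable (fun t : ℝ => C * (1 + t ^ 2)⁻¹) := integrable_inv_one_add_sq.const_mul C
  refine hi.mono' (by fun_prop) (Eventually.of_forall fun t => ?_)
  have h0 : 0 ≤ |t| := abs_nonneg t
  rw [Real.norm_of_nonneg (by positivity)]
  have h1 := hC t
  have h2 : (0:ℝ) < 1 + t ^ 2 := by positivity
  rw [← div_eq_mul_inv, le_div_iff₀ h2]
  refine le_trans ?_ h1
  have h3 : 1 + t ^ 2 ≤ (1 + |t|) ^ 2 := by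
    have : |t| ^ 2 = t ^ 2 := sq_abs t
    nlinarith
  calc (1 + |t|) ^ n * Real.exp (-(a * |t|)) * (1 + t ^ 2)
      ≤ (1 + |t|) ^ n * Real.exp (-(a * |t|)) * (1 + |t|) ^ 2 :=
        mul_le_mul_of_nonneg_left h3 (by positivity)
    _ = _ := by rw [pow_add]; ring

private theorem F07_wt_pos (ε t : ℝ) : 0 < wt ε t := by
  unfold wt
  exact div_pos (Real.exp_pos _) (Real.cosh_pos _)

private theorem F07_wt_cont (ε : ℝ) : Continuous (wt ε) := by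
  unfold wt
  refine Continuous.div (by fun_prop) (by fun_prop) fun t => (Real.cosh_pos _).ne'

/-- cosh(pi t) >= exp(pi |t|)/2 -/
private theorem F07_cosh (x : ℝ) : Real.exp |x| / 2 ≤ Real.cosh x := by
  rw [← Real.cosh_abs x, Real.cosh_eq]
  have := Real.exp_pos (-|x|)
  linarith

private theorem F07_wt_le (ε t : ℝ) : wt ε t ≤ 2 * Real.exp ((π - 2 * ε) * t - π * |t|) := by
  unfold wt
  rw [div_le_iff₀ (Real.cosh_pos _), Real.exp_sub]
  have h1 := F07_cosh (π * t)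
  have h2 : |π * t| = π * |t| := by rw [abs_mul, abs_of_pos Real.pi_pos]
  rw [h2] at h1
  have h3 : 0 < Real.exp (π * |t|) := Real.exp_pos _
  have h4 : 0 < Real.exp ((π - 2 * ε) * t) := Real.exp_pos _
  calc Real.exp ((π - 2 * ε) * t)
      = 2 * (Real.exp ((π - 2 * ε) * t) / Real.exp (π * |t|)) * (Real.exp (π * |t|) / 2) := by
        field_simp
    _ ≤ _ := mul_le_mul_of_nonneg_left h1 (by positivity)

private theorem F07_wt_le2 {ε : ℝ} (h0 : 0 < ε) (h1 : ε ≤ 1 / 2) (t : ℝ) :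
    wt ε t ≤ 2 * Real.exp (-(2 * ε * |t|)) := by
  refine (F07_wt_le ε t).trans ?_
  have hpi := Real.pi_gt_three
  have : (π - 2 * ε) * t - π * |t| ≤ -(2 * ε * |t|) := by
    rcases le_total 0 t with h | h
    · rw [abs_of_nonneg h]; nlinarith
    · rw [abs_of_nonpos h]; nlinarith
  have := Real.exp_le_exp.mpr this
  linarith

private theorem F07_wt_le3 {ε T0 : ℝ} (h0 : 0 < ε) (h1 : ε ≤ 1 / 2) (hT : 0 < T0) {t : ℝ} (ht : t ≤ T0) :
    wt ε t ≤ 2 * Real.exp T0 * Real.exp (-|t|) := by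
  refine (F07_wt_le ε t).trans ?_
  have hpi := Real.pi_gt_three
  have : (π - 2 * ε) * t - π * |t| ≤ T0 + -|t| := by
    rcases le_total 0 t with h | h
    · rw [abs_of_nonneg h]; nlinarith
    · rw [abs_of_nonpos h]; nlinarith
  have := Real.exp_le_exp.mpr this
  rw [Real.exp_add] at this
  linarith

private theorem F07_wt_ge {ε t : ℝ} (ht : 0 ≤ t) : Real.exp (-(2 * ε * t)) ≤ wt ε t := by
  unfold wt
  rw [le_div_iff₀ (Real.cosh_pos _)]
  have h1 : Real.cosh (π * t) ≤ Real.exp (π * t) := by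
    have hh : 0 ≤ π * t := by positivity
    rw [Real.cosh_eq]
    have : Real.exp (-(π * t)) ≤ Real.exp (π * t) := Real.exp_le_exp.mpr (by linarith)
    linarith
  calc Real.exp (-(2 * ε * t)) * Real.cosh (π * t)
      ≤ Real.exp (-(2 * ε * t)) * Real.exp (π * t) := mul_le_mul_of_nonneg_left h1 (Real.exp_pos _).le
    _ = Real.exp ((π - 2 * ε) * t) := by rw [← Real.exp_add]; congr 1; ring

/-- The analytic core: the weighted integral over (T0, oo). -/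
private theorem F07_core {Z : ℝ → ℝ} (hZc : Continuous Z) {CZ : ℝ} (hCZ : 0 ≤ CZ)
    (hZ : ∀ t, |Z t| ≤ CZ * (1 + |t|) ^ 4) {T0 : ℝ} (hT0 : 0 < T0)
    (hs : (∀ t, T0 < t → 0 ≤ Z t) ∨ (∀ t, T0 < t → Z t ≤ 0)) : ∃ K : ℝ, 0 ≤ K ∧
    ∀ ε : ℝ, 0 < ε → ε ≤ 1 / 2 → Integrable (fun t => wt ε t * Z t) ∧
      ∫ t in Ioi T0, wt ε t * |Z t| ≤ |∫ t, wt ε t * Z t| + K := by
  refine ⟨∫ t : ℝ, CZ * (2 * Real.exp T0) * ((1 + |t|) ^ 4 * Real.exp (-(1 * |t|))),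
    integral_nonneg fun t => by positivity, fun ε h0 h1 => ?_⟩
  have hint : Integrable (fun t => wt ε t * Z t) := by
    refine ((F07_int (2 * ε) (by positivity) 4).const_mul (2 * CZ)).mono'
      ((F07_wt_cont ε).mul hZc).aestronglyMeasurable (Eventually.of_forall fun t => ?_)
    rw [norm_mul, Real.norm_of_nonneg (F07_wt_pos ε t).le, Real.norm_eq_abs]
    calc wt ε t * |Z t| ≤ (2 * Real.exp (-(2 * ε * |t|))) * (CZ * (1 + |t|) ^ 4) :=
          mul_le_mul (F07_wt_le2 h0 h1 t) (hZ t) (abs_nonneg _) (by positivity)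
      _ = _ := by ring
  refine ⟨hint, ?_⟩
  have hK : ‖∫ t in Iic T0, wt ε t * Z t‖ ≤
      ∫ t : ℝ, CZ * (2 * Real.exp T0) * ((1 + |t|) ^ 4 * Real.exp (-(1 * |t|))) := by
    have hi : Integrable (fun t : ℝ => CZ * (2 * Real.exp T0) * ((1 + |t|) ^ 4 * Real.exp (-(1 * |t|)))) :=
      (F07_int 1 one_pos 4).const_mul _
    calc ‖∫ t in Iic T0, wt ε t * Z t‖
        ≤ ∫ t in Iic T0, CZ * (2 * Real.exp T0) * ((1 + |t|) ^ 4 * Real.exp (-(1 * |t|))) := by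
          refine norm_integral_le_of_norm_le hi.integrableOn ?_
          refine (ae_restrict_iff' measurableSet_Iic).mpr (Eventually.of_forall fun t ht => ?_)
          rw [norm_mul, Real.norm_of_nonneg (F07_wt_pos ε t).le, Real.norm_eq_abs]
          calc wt ε t * |Z t| ≤ (2 * Real.exp T0 * Real.exp (-|t|)) * (CZ * (1 + |t|) ^ 4) :=
                mul_le_mul (F07_wt_le3 h0 h1 hT0 ht) (hZ t) (abs_nonneg _) (by positivity)
            _ = _ := by rw [one_mul]; ring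
      _ ≤ _ := setIntegral_le_integral hi (Eventually.of_forall fun t => by positivity)
  have hsplit : ∫ t in Ioi T0, wt ε t * Z t = (∫ t, wt ε t * Z t) - ∫ t in Iic T0, wt ε t * Z t := by
    have := integral_add_compl (measurableSet_Ioi (a := T0)) hint
    rw [compl_Ioi] at this
    linarith
  have habs : ∫ t in Ioi T0, wt ε t * |Z t| = |∫ t in Ioi T0, wt ε t * Z t| := by
    rcases hs with hs | hs
    · rw [abs_of_nonneg]
      · exact setIntegral_congr_fun measurableSet_Ioi fun t ht => by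
          simp only [abs_of_nonneg (hs t ht)]
      · exact setIntegral_nonneg measurableSet_Ioi fun t ht => mul_nonneg (F07_wt_pos ε t).le (hs t ht)
    · rw [abs_of_nonpos, ← integral_neg]
      · exact setIntegral_congr_fun measurableSet_Ioi fun t ht => by
          simp only [abs_of_nonpos (hs t ht)]; ring
      · exact setIntegral_nonpos measurableSet_Ioi fun t ht =>
          mul_nonpos_of_nonneg_of_nonpos (F07_wt_pos ε t).le (hs t ht)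
  rw [habs, hsplit]
  rw [Real.norm_eq_abs] at hK
  have := abs_sub (∫ t, wt ε t * Z t) (∫ t in Iic T0, wt ε t * Z t)
  linarith

/-- Lower bound. -/
private theorem F07_lower {Z : ℝ → ℝ} (hZc : Continuous Z) {T0 T : ℝ} (hT0 : 0 < T0) (hT : T0 < T)
    (hint : Integrable (fun t => wt T⁻¹ t * Z t)) :
    Real.exp (-4) * ∫ t in Icc T (2 * T), |Z t| ≤ ∫ t in Ioi T0, wt T⁻¹ t * |Z t| := by
  have hTp : 0 < T := hT0.trans hT
  have hint' : Integrable (fun t => wt T⁻¹ t * |Z t|) := by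
    refine hint.norm.congr (Eventually.of_forall fun t => ?_)
    simp only [norm_mul, Real.norm_eq_abs, abs_of_pos (F07_wt_pos _ _)]
  have hsub : Icc T (2 * T) ⊆ Ioi T0 := fun t ht => lt_of_lt_of_le hT ht.1
  calc Real.exp (-4) * ∫ t in Icc T (2 * T), |Z t|
      = ∫ t in Icc T (2 * T), Real.exp (-4) * |Z t| := (integral_const_mul _ _).symm
    _ ≤ ∫ t in Icc T (2 * T), wt T⁻¹ t * |Z t| := by
        refine setIntegral_mono_on ?_ hint'.integrableOn measurableSet_Icc fun t ht => ?_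
        · exact ((continuous_const.mul hZc.abs).continuousOn).integrableOn_Icc
        · refine mul_le_mul_of_nonneg_right ?_ (abs_nonneg _)
          refine le_trans (Real.exp_le_exp.mpr ?_) (F07_wt_ge (hTp.le.trans ht.1))
          have h1 : T⁻¹ * t ≤ 2 := by
            rw [inv_mul_le_iff₀ hTp]; linarith [ht.2]
          linarith
    _ ≤ ∫ t in Ioi T0, wt T⁻¹ t * |Z t| :=
        setIntegral_mono_set hint'.integrableOn
          (Eventually.of_forall fun t => mul_nonneg (F07_wt_pos _ _).le (abs_nonneg _))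
          hsub.eventuallyLE

private theorem F07_abs {Z : ℝ → ℝ} (hZc : Continuous Z) {CZ : ℝ} (hCZ : 0 ≤ CZ)
    (hZ : ∀ t, |Z t| ≤ CZ * (1 + |t|) ^ 4) {T0 : ℝ} (hT0 : 0 < T0)
    (hs : (∀ t, T0 < t → 0 ≤ Z t) ∨ (∀ t, T0 < t → Z t ≤ 0)) {R : ℝ → ℝ → ℂ}
    (hRc : ∀ ε, Continuous (R ε)) {κ : ℂ} (hκ : κ ≠ 0) {C1 : ℝ} (hC1 : 0 ≤ C1)
    (hR : ∀ ε : ℝ, 0 < ε → ε ≤ 1 / 2 → ∀ t : ℝ, ‖R ε t - κ * ((wt ε t * Z t : ℝ) : ℂ)‖ ≤
      C1 * (1 + |t|) ^ 12 * Real.exp (-|t|))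
    {C2 ε0 : ℝ} (hC2 : 0 ≤ C2) (hε0 : 0 < ε0) (hε0' : ε0 ≤ 1 / 3)
    (hA : ∀ ε : ℝ, 0 < ε → ε ≤ ε0 → ‖∫ t, R ε t‖ ≤ C2 * ε⁻¹ * Real.log (1 / ε) ^ (3 / 4 : ℝ) +
      C2 * ε ^ (-(3 / 4 : ℝ)))
    {c T1 : ℝ} (hc : 0 < c) (hT1 : 3 ≤ T1)
    (hL : ∀ T : ℝ, T1 ≤ T → c * T * Real.log T ≤ ∫ t in Icc T (2 * T), |Z t|) : False := by
  obtain ⟨K, hK0, hK⟩ := F07_core hZc hCZ hZ hT0 hs
  set K1 : ℝ := ∫ t : ℝ, C1 * ((1 + |t|) ^ 12 * Real.exp (-(1 * |t|))) with hK1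
  have hK10 : 0 ≤ K1 := integral_nonneg fun t => by positivity
  have hκp : 0 < ‖κ‖ := norm_pos_iff.mpr hκ
  -- upper bound
  have hup : ∀ ε : ℝ, 0 < ε → ε ≤ ε0 → ∫ t in Ioi T0, wt ε t * |Z t| ≤
      ‖κ‖⁻¹ * (C2 * ε⁻¹ * Real.log (1 / ε) ^ (3 / 4 : ℝ) + C2 * ε ^ (-(3 / 4 : ℝ)) + K1) + K := by
    intro ε h0 h1
    have h12 : ε ≤ 1 / 2 := by linarith
    obtain ⟨hi, hle⟩ := hK ε h0 h12
    have hiC : Integrable (fun t => κ * ((wt ε t * Z t : ℝ) : ℂ)) := hi.ofReal.const_mul κ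
    have hiE : Integrable (fun t => R ε t - κ * ((wt ε t * Z t : ℝ) : ℂ)) := by
      refine ((F07_int 1 one_pos 12).const_mul C1).mono' ?_ (Eventually.of_forall fun t => ?_)
      · refine ((hRc ε).sub (continuous_const.mul ?_)).aestronglyMeasurable
        exact continuous_ofReal.comp ((F07_wt_cont ε).mul hZc)
      · have := hR ε h0 h12 t
        rw [one_mul]
        linarith
    have hE : ‖∫ t, (R ε t - κ * ((wt ε t * Z t : ℝ) : ℂ))‖ ≤ K1 := by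
      refine norm_integral_le_of_norm_le ((F07_int 1 one_pos 12).const_mul C1)
        (Eventually.of_forall fun t => ?_)
      have := hR ε h0 h12 t
      rw [one_mul]
      linarith
    have hiR : Integrable (R ε) := by
      have := hiE.add hiC
      refine this.congr (Eventually.of_forall fun t => ?_)
      simp
    rw [integral_sub hiR hiC, integral_const_mul] at hE
    have h5 : ‖κ * ∫ t, ((wt ε t * Z t : ℝ) : ℂ)‖ ≤ ‖∫ t, R ε t‖ + K1 := by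
      have := norm_sub_norm_le (κ * ∫ t, ((wt ε t * Z t : ℝ) : ℂ)) (∫ t, R ε t)
      rw [norm_sub_rev] at this
      linarith
    have h6 : ‖κ * ∫ t, ((wt ε t * Z t : ℝ) : ℂ)‖ = ‖κ‖ * |∫ t, wt ε t * Z t| := by
      rw [norm_mul, integral_complex_ofReal, Complex.norm_real, Real.norm_eq_abs]
    rw [h6] at h5
    have h7 := hA ε h0 h1
    have h8 : |∫ t, wt ε t * Z t| ≤ ‖κ‖⁻¹ * (C2 * ε⁻¹ * Real.log (1 / ε) ^ (3 / 4 : ℝ) +
        C2 * ε ^ (-(3 / 4 : ℝ)) + K1) := by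
      rw [← div_eq_inv_mul, le_div_iff₀ hκp]
      linarith
    linarith
  -- choose T = exp(z^4)
  set b : ℝ := ‖κ‖⁻¹ * C2 with hb
  set d : ℝ := ‖κ‖⁻¹ * (C2 + K1) + K with hd
  set a : ℝ := Real.exp (-4) * c with ha
  have hap : 0 < a := mul_pos (Real.exp_pos _) hc
  have hb0 : 0 ≤ b := by positivity
  have hd0 : 0 ≤ d := by positivity
  set z : ℝ := 1 + T0 + T1 + ε0⁻¹ + (b + d) / a with hz
  have hz1 : 1 ≤ z := by
    have : 0 ≤ (b + d) / a := by positivity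
    have : 0 < ε0⁻¹ := by positivity
    linarith
  have hz4 : z ≤ z ^ 4 := by
    calc z = z ^ 1 := (pow_one z).symm
      _ ≤ z ^ 4 := pow_le_pow_right₀ hz1 (by norm_num)
  set T : ℝ := Real.exp (z ^ 4) with hTdef
  have hTz : z < T := by
    have := Real.add_one_le_exp (z ^ 4)
    linarith
  have hbd : 0 ≤ (b + d) / a := by positivity
  have hεi : 0 < ε0⁻¹ := by positivity
  have hTT0 : T0 < T := by linarith
  have hTT1 : T1 ≤ T := by linarith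
  have hTε : T⁻¹ ≤ ε0 := by
    rw [inv_le_comm₀ (by positivity) hε0]
    linarith
  have hTp : 0 < T := Real.exp_pos _
  have hT1' : 1 ≤ T := by linarith
  have hTi : 0 < T⁻¹ := by positivity
  have hlog : Real.log T = z ^ 4 := Real.log_exp _
  have h1 := hup T⁻¹ hTi hTε
  have h2 := F07_lower hZc hT0 hTT0 (hK T⁻¹ hTi (by linarith)).1
  have h3 := hL T hTT1
  have h4 : Real.log (1 / T⁻¹) ^ (3 / 4 : ℝ) = z ^ 3 := by
    rw [one_div, inv_inv, hlog, ← Real.rpow_natCast z 4, ← Real.rpow_mul (by linarith),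
      ← Real.rpow_natCast z 3]
    congr 1
    norm_num
  have h5 : (T⁻¹) ^ (-(3 / 4 : ℝ)) ≤ T := by
    rw [Real.inv_rpow hTp.le, Real.rpow_neg hTp.le, inv_inv]
    calc T ^ (3 / 4 : ℝ) ≤ T ^ (1 : ℝ) := Real.rpow_le_rpow_of_exponent_le hT1' (by norm_num)
      _ = T := Real.rpow_one T
  rw [h4, inv_inv] at h1
  rw [hlog] at h3
  have h6 : a * T * z ^ 4 ≤ b * T * z ^ 3 + d * T := by
    have h7 : Real.exp (-4) * (c * T * z ^ 4) ≤ Real.exp (-4) * ∫ t in Icc T (2 * T), |Z t| :=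
      mul_le_mul_of_nonneg_left h3 (Real.exp_pos _).le
    have h8 : ‖κ‖⁻¹ * (C2 * T * z ^ 3 + C2 * T⁻¹ ^ (-(3 / 4 : ℝ)) + K1) + K ≤
        ‖κ‖⁻¹ * (C2 * T * z ^ 3 + C2 * T + K1 * T) + K * T := by
      have e1 : C2 * T⁻¹ ^ (-(3 / 4 : ℝ)) ≤ C2 * T := mul_le_mul_of_nonneg_left h5 hC2
      have e2 : K1 ≤ K1 * T := le_mul_of_one_le_right hK10 hT1'
      have e3 : K ≤ K * T := le_mul_of_one_le_right hK0 hT1'
      have e4 : ‖κ‖⁻¹ * (C2 * T * z ^ 3 + C2 * T⁻¹ ^ (-(3 / 4 : ℝ)) + K1) ≤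
          ‖κ‖⁻¹ * (C2 * T * z ^ 3 + C2 * T + K1 * T) :=
        mul_le_mul_of_nonneg_left (by linarith) (by positivity)
      linarith
    have h9 : a * T * z ^ 4 = Real.exp (-4) * (c * T * z ^ 4) := by rw [ha]; ring
    have h10 : ‖κ‖⁻¹ * (C2 * T * z ^ 3 + C2 * T + K1 * T) + K * T = b * T * z ^ 3 + d * T := by
      rw [hb, hd]; ring
    linarith
  have h7 : a * z ^ 4 ≤ b * z ^ 3 + d := by
    have : T * (a * z ^ 4) ≤ T * (b * z ^ 3 + d) := by linarith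
    exact le_of_mul_le_mul_left this hTp
  have hz3 : 1 ≤ z ^ 3 := one_le_pow₀ hz1
  have h8 : b * z ^ 3 + d ≤ (b + d) * z ^ 3 := by
    have e : d * 1 ≤ d * z ^ 3 := mul_le_mul_of_nonneg_left hz3 hd0
    rw [add_mul]
    linarith
  have h9 : (b + d) < a * z := by
    have : (b + d) / a < z := by
      have : 0 < 1 + T0 + T1 + ε0⁻¹ := by positivity
      linarith
    rw [div_lt_iff₀ hap] at this
    linarith
  have h10 : (b + d) * z ^ 3 < a * z * z ^ 3 := mul_lt_mul_of_pos_right h9 (by linarith)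
  have h11 : a * z * z ^ 3 = a * z ^ 4 := by ring
  linarith

/-- Row F07. Contradiction, given the bound of the correlation integral. -/
theorem odd4_of_bound {q1 q2 q3 q4 : ℕ} [NeZero q1] [NeZero q2] [NeZero q3] [NeZero q4]
    {χ1 : DirichletCharacter ℂ q1} {χ2 : DirichletCharacter ℂ q2} {χ3 : DirichletCharacter ℂ q3}
    {χ4 : DirichletCharacter ℂ q4} (h1 : χ1.IsPrimitive) (h2 : χ2.IsPrimitive) (h3 : χ3.IsPrimitive)
    (h4 : χ4.IsPrimitive) (n12 : OO.Ne12 χ1 χ2) (n13 : OO.Ne12 χ1 χ3) (n14 : OO.Ne12 χ1 χ4)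
    (n23 : OO.Ne12 χ2 χ3) (n24 : OO.Ne12 χ2 χ4) (n34 : OO.Ne12 χ3 χ4)
    (hJ : ∃ C ε0 : ℝ, 0 < ε0 ∧ ε0 ≤ 1 / 3 ∧ ∀ ε : ℝ, 0 < ε → ε ≤ ε0 →
      ‖JJ χ1 χ2 χ3 χ4 ε‖ ≤ C * ε⁻¹ * Real.log (1 / ε) ^ (3 / 4 : ℝ)) :
    {g : ℝ | 0 < g ∧ Odd (analyticOrderNatAt (LX.Lf χ1) (1 / 2 + g * I) +
      analyticOrderNatAt (LX.Lf χ2) (1 / 2 + g * I) + analyticOrderNatAt (LX.Lf χ3) (1 / 2 + g * I) +
      analyticOrderNatAt (LX.Lf χ4) (1 / 2 + g * I))}.Infinite := by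
  intro hfin
  obtain ⟨T0, hT0, hs⟩ := sign4 h1 h2 h3 h4 hfin
  obtain ⟨κ, C1, hκ, hC1, hR⟩ := RR_prod h1 h2 h3 h4
  obtain ⟨Cp, hCp, hp⟩ := parseval h1 h2 h3 h4 n12 n34
  obtain ⟨CJ, ε0, hε0, hε0', hJ⟩ := hJ
  -- the moduli as n + 1
  obtain ⟨m1, rfl⟩ : ∃ m, q1 = m + 1 := ⟨q1 - 1, (Nat.succ_pred (NeZero.ne q1)).symm⟩
  obtain ⟨m2, rfl⟩ : ∃ m, q2 = m + 1 := ⟨q2 - 1, (Nat.succ_pred (NeZero.ne q2)).symm⟩
  obtain ⟨m3, rfl⟩ : ∃ m, q3 = m + 1 := ⟨q3 - 1, (Nat.succ_pred (NeZero.ne q3)).symm⟩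
  obtain ⟨m4, rfl⟩ : ∃ m, q4 = m + 1 := ⟨q4 - 1, (Nat.succ_pred (NeZero.ne q4)).symm⟩
  have hsymm : ∀ {a b : ℕ} {χ : DirichletCharacter ℂ a} {ψ : DirichletCharacter ℂ b},
      OO.Ne12 χ ψ → OO.Ne12 ψ χ := by
    rintro a b χ ψ ⟨n, hn, hne⟩
    exact ⟨n, by rwa [mul_comm], fun h => hne h.symm⟩
  set x : Fin 4 → GG.Ch := ![⟨m1, χ1⟩, ⟨m2, χ2⟩, ⟨m3, χ3⟩, ⟨m4, χ4⟩] with hx
  have hne : ∀ i j, i ≠ j → OO.Ne12 (x i).2 (x j).2 := by
    intro i j hij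
    fin_cases i <;> fin_cases j
    · exact absurd rfl hij
    · exact n12
    · exact n13
    · exact n14
    · exact hsymm n12
    · exact absurd rfl hij
    · exact n23
    · exact n24
    · exact hsymm n13
    · exact hsymm n23
    · exact absurd rfl hij
    · exact n34
    · exact hsymm n14
    · exact hsymm n24
    · exact hsymm n34
    · exact absurd rfl hij
  obtain ⟨c, T1, hc, hT1, hL⟩ := GG.moment_lower (by norm_num : 0 < 4) x hne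
  obtain ⟨G1, hG1, hg1⟩ := Lf_growth χ1
  obtain ⟨G2, hG2, hg2⟩ := Lf_growth χ2
  obtain ⟨G3, hG3, hg3⟩ := Lf_growth χ3
  obtain ⟨G4, hG4, hg4⟩ := Lf_growth χ4
  have hZabs : ∀ t, |ZZ χ1 t * ZZ χ2 t * ZZ χ3 t * ZZ χ4 t| =
      ‖LX.Lf χ1 (1 / 2 + t * I)‖ * ‖LX.Lf χ2 (1 / 2 + t * I)‖ * ‖LX.Lf χ3 (1 / 2 + t * I)‖ *
        ‖LX.Lf χ4 (1 / 2 + t * I)‖ := by
    intro t
    rw [abs_mul, abs_mul, abs_mul, ZZ_abs h1, ZZ_abs h2, ZZ_abs h3, ZZ_abs h4]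
  refine F07_abs (Z := fun t => ZZ χ1 t * ZZ χ2 t * ZZ χ3 t * ZZ χ4 t)
    (((ZZ_cont h1).mul (ZZ_cont h2)).mul (ZZ_cont h3) |>.mul (ZZ_cont h4))
    (CZ := G1 * G2 * G3 * G4) (by positivity) ?_ hT0 hs
    (R := fun ε t => RR χ1 χ2 ε t * conj (RR χ3 χ4 ε t))
    (fun ε => (RR_cont χ1 χ2 ε).mul (continuous_conj.comp (RR_cont χ3 χ4 ε))) hκ hC1 hR
    (C2 := Cp * |CJ| + Cp) (ε0 := ε0) (by positivity) hε0 hε0' ?_ (c := c) (T1 := T1) hc hT1 ?_
  · intro t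
    rw [hZabs]
    have h0 : 0 ≤ 1 + |t| := by positivity
    calc ‖LX.Lf χ1 (1 / 2 + t * I)‖ * ‖LX.Lf χ2 (1 / 2 + t * I)‖ * ‖LX.Lf χ3 (1 / 2 + t * I)‖ *
        ‖LX.Lf χ4 (1 / 2 + t * I)‖
        ≤ (G1 * (1 + |t|)) * (G2 * (1 + |t|)) * (G3 * (1 + |t|)) * (G4 * (1 + |t|)) := by
          gcongr
          · exact hg1 t
          · exact hg2 t
          · exact hg3 t
          · exact hg4 t
      _ = _ := by ring
  · intro ε h0 h1'
    refine (hp ε h0 (by linarith)).trans ?_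
    have hlog : 0 ≤ Real.log (1 / ε) := Real.log_nonneg (by
      rw [le_div_iff₀ h0]; linarith)
    have e1 : ‖JJ χ1 χ2 χ3 χ4 ε‖ ≤ |CJ| * ε⁻¹ * Real.log (1 / ε) ^ (3 / 4 : ℝ) := by
      refine (hJ ε h0 h1').trans ?_
      have : 0 ≤ ε⁻¹ * Real.log (1 / ε) ^ (3 / 4 : ℝ) := by positivity
      have := mul_le_mul_of_nonneg_right (le_abs_self CJ) this
      linarith
    have e2 : Cp * ‖JJ χ1 χ2 χ3 χ4 ε‖ ≤ Cp * (|CJ| * ε⁻¹ * Real.log (1 / ε) ^ (3 / 4 : ℝ)) :=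
      mul_le_mul_of_nonneg_left e1 hCp
    have e3 : 0 ≤ Cp * (ε⁻¹ * Real.log (1 / ε) ^ (3 / 4 : ℝ)) := by positivity
    have e4 : 0 ≤ Cp * |CJ| * ε ^ (-(3 / 4 : ℝ)) := by positivity
    calc Cp * ‖JJ χ1 χ2 χ3 χ4 ε‖ + Cp * ε ^ (-(3 / 4 : ℝ))
        ≤ Cp * (|CJ| * ε⁻¹ * Real.log (1 / ε) ^ (3 / 4 : ℝ)) + Cp * ε ^ (-(3 / 4 : ℝ)) := by linarith
      _ ≤ Cp * (|CJ| * ε⁻¹ * Real.log (1 / ε) ^ (3 / 4 : ℝ)) + Cp * ε ^ (-(3 / 4 : ℝ)) +
          (Cp * (ε⁻¹ * Real.log (1 / ε) ^ (3 / 4 : ℝ)) + Cp * |CJ| * ε ^ (-(3 / 4 : ℝ))) := by linarith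
      _ = _ := by ring
  · intro T hT
    have := hL T hT
    have h44 : ((4 : ℕ) : ℝ) / 4 = 1 := by norm_num
    rw [h44, Real.rpow_one] at this
    refine this.trans (le_of_eq ?_)
    refine setIntegral_congr_fun measurableSet_Icc fun t _ => ?_
    rw [hZabs]
    simp only [GG.FL, Fin.prod_univ_four]
    rw [norm_mul, norm_mul, norm_mul]
    rfl

end FF

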